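import Pool.Agent.Work.MP_f68f16_an.Stmts

/-! Bundle of small proof modules (one section per former module). -/

section

set_option autoImplicit false

open MeasureTheory Metric Set Filter Topology

namespace MPf68f16

theorem prf_N1 : S_N1 := by
  intro x η hx hη
  set u : ℝ := x ^ 2 with hu
  have hu0 : 0 < u := by linarith
  set l : ℝ := 2 / (1 + u) with hl
  have hd : ∀ e : ℝ, HasDerivAt (fun e : ℝ => 2 * l * e - Real.log (u + (1 + e) ^ 2) +
      Real.log (u + (1 - e) ^ 2))
      (2 * l - 2 * (1 + e) / (u + (1 + e) ^ 2) + -(2 * (1 - e)) / (u + (1 - e) ^ 2)) e := by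
    intro e
    have h0 : HasDerivAt (fun e : ℝ => 2 * l * e) (2 * l) e := by
      simpa using (hasDerivAt_id e).const_mul (2 * l)
    have h1 : HasDerivAt (fun e : ℝ => u + (1 + e) ^ 2) (2 * (1 + e)) e := by
      have := (((hasDerivAt_id e).const_add 1).pow 2).const_add u
      simpa using this
    have h2 : HasDerivAt (fun e : ℝ => u + (1 - e) ^ 2) (-(2 * (1 - e))) e := by
      have := (((hasDerivAt_id e).const_sub 1).pow 2).const_add u
      simpa using this
    exact (h0.sub (h1.log (by positivity))).add (h2.log (by positivity))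
  have hmono : MonotoneOn (fun e : ℝ => 2 * l * e - Real.log (u + (1 + e) ^ 2) +
      Real.log (u + (1 - e) ^ 2)) (Ici 0) := by
    refine monotoneOn_of_deriv_nonneg (convex_Ici 0)
      (fun e _ => (hd e).continuousAt.continuousWithinAt)
      (fun e _ => (hd e).differentiableAt.differentiableWithinAt) fun e he => ?_
    rw [interior_Ici] at he
    have he0 : 0 < e := he
    rw [(hd e).deriv]
    have hA : 0 < u + (1 + e) ^ 2 := by positivity
    have hB : 0 < u + (1 - e) ^ 2 := by positivity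
    have hC : 0 < 1 + u := by positivity
    have key : 2 * l - 2 * (1 + e) / (u + (1 + e) ^ 2) + -(2 * (1 - e)) / (u + (1 - e) ^ 2) =
        4 * e ^ 2 * (e ^ 2 + 3 * u - 1) / ((1 + u) * (u + (1 + e) ^ 2) * (u + (1 - e) ^ 2)) := by
      rw [hl]
      field_simp
      ring
    rw [key]
    have : 0 ≤ e ^ 2 + 3 * u - 1 := by nlinarith
    positivity
  have h0 := hmono (show (0 : ℝ) ∈ Ici (0 : ℝ) from Set.self_mem_Ici) (show η ∈ Ici (0 : ℝ) from hη.le) hη.le
  simp only [mul_zero, add_zero, sub_zero, one_pow] at h0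
  unfold gH
  rw [← hu, Real.log_div (by positivity) (by positivity)]
  linarith

end MPf68f16

end

section

set_option autoImplicit false

open MeasureTheory Metric Set Filter Topology

namespace MPf68f16

theorem n3_gH_eq (x η : ℝ) (hx : 0 < x) (hη : 0 < η) :
    gH x 1 η = (Real.log (x ^ 2 + (1 + η) ^ 2) - Real.log (x ^ 2 + (1 - η) ^ 2)) / 2 := by
  unfold gH
  rw [Real.log_div (by positivity) (by positivity)]

theorem n3_convex (A B : ℝ) (hB : 0 ≤ B) (hAB : B ≤ A) :
    ConvexOn ℝ (Ioi (0 : ℝ)) (fun v => Real.log (v + A) - Real.log (v + B)) := by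
  have hA : 0 ≤ A := hB.trans hAB
  have hd : ∀ v : ℝ, 0 < v → HasDerivAt (fun v => Real.log (v + A) - Real.log (v + B))
      (1 / (v + A) - 1 / (v + B)) v := by
    intro v hv
    have h1 : HasDerivAt (fun v : ℝ => v + A) 1 v := (hasDerivAt_id v).add_const A
    have h2 : HasDerivAt (fun v : ℝ => v + B) 1 v := (hasDerivAt_id v).add_const B
    exact (h1.log (by positivity)).sub (h2.log (by positivity))
  refine MonotoneOn.convexOn_of_deriv (convex_Ioi 0) (fun v hv => ?_) ?_ ?_
  · exact (hd v hv).continuousAt.continuousWithinAt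
  · rw [interior_Ioi]
    exact fun v hv => (hd v hv).differentiableAt.differentiableWithinAt
  · rw [interior_Ioi]
    intro a ha b hb hab
    have ha' : 0 < a := ha
    have hb' : 0 < b := hb
    rw [(hd a ha).deriv, (hd b hb).deriv]
    have e : ∀ v : ℝ, 0 < v → 1 / (v + A) - 1 / (v + B) = -((A - B) / ((v + A) * (v + B))) := by
      intro v hv
      have h1 : v + A ≠ 0 := by positivity
      have h2 : v + B ≠ 0 := by positivity
      field_simp
      ring
    rw [e a ha', e b hb', neg_le_neg_iff]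
    refine div_le_div_of_nonneg_left (by linarith) (by positivity) ?_
    gcongr

theorem prf_N3 : S_N3 := by
  intro x0 x1 l0 l1 hx1 hx10 h1 h0 x hxa hxb η hη
  have hx : 0 < x := lt_of_lt_of_le hx1 hxa
  have hx0 : 0 < x0 := hx1.trans hx10
  have hconv := n3_convex ((1 + η) ^ 2) ((1 - η) ^ 2) (sq_nonneg _) (by nlinarith)
  have hden : 0 < x0 ^ 2 - x1 ^ 2 := by nlinarith
  set s : ℝ := (x0 ^ 2 - x ^ 2) / (x0 ^ 2 - x1 ^ 2) with hs
  have hs0 : 0 ≤ s := div_nonneg (by nlinarith) hden.le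
  have hs1 : s ≤ 1 := by
    rw [hs, div_le_one hden]
    nlinarith
  have key := hconv.2 (show x1 ^ 2 ∈ Ioi (0 : ℝ) from by simp only [mem_Ioi]; positivity)
    (show x0 ^ 2 ∈ Ioi (0 : ℝ) from by simp only [mem_Ioi]; positivity) hs0
    (sub_nonneg.2 hs1) (by ring : s + (1 - s) = 1)
  have hv : s • x1 ^ 2 + (1 - s) • x0 ^ 2 = x ^ 2 := by
    have : s * (x0 ^ 2 - x1 ^ 2) = x0 ^ 2 - x ^ 2 := by
      rw [hs]
      exact div_mul_cancel₀ _ hden.ne'
    simp only [smul_eq_mul]
    linarith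
  rw [hv] at key
  simp only [smul_eq_mul] at key
  have g0 := h0 η hη
  have g1 := h1 η hη
  rw [n3_gH_eq _ _ hx0 hη] at g0
  rw [n3_gH_eq _ _ hx1 hη] at g1
  rw [n3_gH_eq _ _ hx hη]
  have m1 := mul_le_mul_of_nonneg_left g1 hs0
  have m0 := mul_le_mul_of_nonneg_left g0 (sub_nonneg.2 hs1)
  nlinarith

end MPf68f16

end

section

set_option autoImplicit false

open MeasureTheory Metric Set Filter Topology

namespace MPf68f16

theorem n4_artanh (a e : ℝ) (ha : 0 < a) (hae : a ≤ e) (he : e < 1) :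
    Real.log ((1 + a) / (1 - a)) ≤ a / e * Real.log ((1 + e) / (1 - e)) := by
  have he0 : 0 < e := lt_of_lt_of_le ha hae
  have ha1 : a < 1 := lt_of_le_of_lt hae he
  rw [Real.log_div (by linarith) (by linarith), Real.log_div (by linarith) (by linarith)]
  have h1 := Real.hasSum_log_sub_log_of_abs_lt_one (x := a) (by rw [abs_of_pos ha]; exact ha1)
  have h2 := (Real.hasSum_log_sub_log_of_abs_lt_one (x := e)
    (by rw [abs_of_pos he0]; exact he)).mul_left (a / e)
  refine hasSum_le (fun k => ?_) h1 h2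
  have e1 : a / e * (2 * (1 / (2 * (k : ℝ) + 1)) * e ^ (2 * k + 1)) =
      2 * (1 / (2 * (k : ℝ) + 1)) * (a * e ^ (2 * k)) := by
    rw [pow_succ]
    field_simp
  rw [e1, pow_succ, mul_comm (a ^ (2 * k)) a]
  have : a ^ (2 * k) ≤ e ^ (2 * k) := pow_le_pow_left₀ ha.le hae _
  gcongr

theorem prf_N4 : S_N4 := by
  intro x1 l1 e1 hx1 he0 he1 h1 hlog x hx hxx η hη
  have hLx : 0 ≤ Real.log (x1 / x) := Real.log_nonneg (by rw [le_div_iff₀ hx]; linarith)
  have eqH : ∀ x : ℝ, 0 < x → gH x 1 η =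
      (Real.log (x ^ 2 + (1 + η) ^ 2) - Real.log (x ^ 2 + (1 - η) ^ 2)) / 2 := by
    intro x hx
    unfold gH
    rw [Real.log_div (by positivity) (by positivity)]
  rcases le_or_gt e1 η with hc | hc
  · have g1 := h1 η hη
    rw [eqH x1 hx1] at g1
    rw [eqH x hx]
    have a1 : Real.log (x ^ 2 + (1 + η) ^ 2) ≤ Real.log (x1 ^ 2 + (1 + η) ^ 2) :=
      Real.log_le_log (by positivity) (by nlinarith)
    have a2 : Real.log (x1 ^ 2 + (1 - η) ^ 2) - Real.log (x ^ 2 + (1 - η) ^ 2) ≤
        2 * Real.log (x1 / x) := by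
      have e2 : 2 * Real.log (x1 / x) = Real.log (x1 ^ 2 / x ^ 2) := by
        rw [← div_pow, Real.log_pow]
        norm_num
      rw [e2, ← Real.log_div (by positivity) (by positivity)]
      refine Real.log_le_log (by positivity) ?_
      rw [div_le_div_iff₀ (by positivity) (by positivity)]
      have : x ^ 2 ≤ x1 ^ 2 := pow_le_pow_left₀ hx.le hxx 2
      nlinarith [mul_le_mul_of_nonneg_right this (sq_nonneg (1 - η))]
    have a3 : Real.log (x1 / x) ≤ η * (Real.log (x1 / x) / e1) := by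
      rw [mul_div_assoc', le_div_iff₀ he0]
      nlinarith
    nlinarith
  · have hη1 : η < 1 := hc.trans he1
    have b1 : gH x 1 η ≤ Real.log ((1 + η) / (1 - η)) := by
      have e2 : Real.log ((1 + η) / (1 - η)) = Real.log ((1 + η) ^ 2 / (1 - η) ^ 2) / 2 := by
        rw [← div_pow, Real.log_pow]
        push_cast
        ring
      rw [e2]
      unfold gH
      refine div_le_div_of_nonneg_right (Real.log_le_log (by positivity) ?_) (by norm_num)
      have hp : 0 < (1 - η) ^ 2 := by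
        have : 0 < 1 - η := by linarith
        positivity
      rw [div_le_div_iff₀ (by positivity) hp]
      nlinarith [mul_pos (pow_pos hx 2) hη]
    have b2 := n4_artanh η e1 hη hc.le he1
    have b3 : η / e1 * Real.log ((1 + e1) / (1 - e1)) ≤ η / e1 * (e1 * l1) :=
      mul_le_mul_of_nonneg_left hlog (by positivity)
    have b4 : η / e1 * (e1 * l1) = η * l1 := by
      field_simp
    have b5 : 0 ≤ η * (Real.log (x1 / x) / e1) := by positivity
    nlinarith

end MPf68f16

end

section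

set_option autoImplicit false

open MeasureTheory Metric Set Filter Topology

namespace MPf68f16

/-- a majorant on `(0, a)` with integral at most `c` -/
def N6Good (a c : ℝ) : Prop := 0 ≤ c ∧ ∃ h : ℝ → ℝ, Measurable h ∧ (∀ x, 0 ≤ h x) ∧
  (∀ x η : ℝ, 0 < x → x < a → 0 < η → gH x 1 η ≤ η * h x) ∧
  ∫⁻ x in Ioo 0 a, ENNReal.ofReal (h x) ≤ ENNReal.ofReal c

theorem n6_base (h4 : S_N4) {x1 l1 e1 c : ℝ} (hx1 : 0 < x1) (he0 : 0 < e1) (he1 : e1 < 1)
    (hl : 0 ≤ l1) (h1 : ∀ η : ℝ, 0 < η → gH x1 1 η ≤ η * l1)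
    (hlog : Real.log ((1 + e1) / (1 - e1)) ≤ e1 * l1) (hc : x1 * (l1 + 1 / e1) ≤ c) :
    N6Good x1 c := by
  have hc0 : 0 ≤ c := le_trans (by positivity) hc
  have hpos : ∀ x, x ∈ Ioo 0 x1 → 0 ≤ l1 + Real.log (x1 / x) / e1 := by
    intro x hx
    have : 0 ≤ Real.log (x1 / x) := Real.log_nonneg (by rw [le_div_iff₀ hx.1]; linarith [hx.2])
    positivity
  refine ⟨hc0, (Ioo 0 x1).indicator fun x => l1 + Real.log (x1 / x) / e1, ?_, ?_, ?_, ?_⟩
  · refine Measurable.indicator ?_ measurableSet_Ioo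
    exact measurable_const.add
      ((Real.measurable_log.comp (measurable_const.div measurable_id)).div_const e1)
  · intro x
    by_cases hx : x ∈ Ioo 0 x1
    · rw [indicator_of_mem hx]
      exact hpos x hx
    · rw [indicator_of_notMem hx]
  · intro x η hx0 hxa hη
    rw [indicator_of_mem (show x ∈ Ioo 0 x1 from ⟨hx0, hxa⟩)]
    exact h4 x1 l1 e1 hx1 he0 he1 h1 hlog x hx0 hxa.le η hη
  · have e2 : ∫⁻ x in Ioo 0 x1, ENNReal.ofReal ((Ioo 0 x1).indicator
        (fun x => l1 + Real.log (x1 / x) / e1) x) =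
        ∫⁻ x in Ioo 0 x1, ENNReal.ofReal (l1 + (Real.log x1 - Real.log x) / e1) := by
      refine setLIntegral_congr_fun measurableSet_Ioo fun x hx => ?_
      rw [indicator_of_mem hx, Real.log_div hx1.ne' hx.1.ne']
    rw [e2]
    have hii : IntervalIntegrable (fun x => l1 + (Real.log x1 - Real.log x) / e1) volume 0 x1 := by
      refine intervalIntegrable_const.add ?_
      exact (intervalIntegrable_const.sub intervalIntegral.intervalIntegrable_log').div_const e1
    have hint : IntegrableOn (fun x => l1 + (Real.log x1 - Real.log x) / e1) (Ioo 0 x1) :=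
      ((intervalIntegrable_iff_integrableOn_Ioo_of_le hx1.le).1 hii)
    rw [← ofReal_integral_eq_lintegral_ofReal hint]
    · refine ENNReal.ofReal_le_ofReal (le_trans (le_of_eq ?_) hc)
      rw [← integral_Ioc_eq_integral_Ioo, ← intervalIntegral.integral_of_le hx1.le,
        intervalIntegral.integral_add intervalIntegrable_const
        ((intervalIntegrable_const.sub intervalIntegral.intervalIntegrable_log').div_const e1),
        intervalIntegral.integral_div, intervalIntegral.integral_sub intervalIntegrable_const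
        intervalIntegral.intervalIntegrable_log']
      simp only [intervalIntegral.integral_const, integral_log, sub_zero, smul_eq_mul,
        Real.log_zero, mul_zero, zero_mul]
      ring
    · rw [EventuallyLE, ae_restrict_iff' measurableSet_Ioo]
      refine Eventually.of_forall fun x hx => ?_
      have := hpos x hx
      rw [Real.log_div hx1.ne' hx.1.ne'] at this
      exact this

theorem n6_step (h3 : S_N3) {a b la lb c c' : ℝ} (ha : 0 < a) (hab : a < b) (hl : lb ≤ la)
    (hb : 0 ≤ lb) (g : N6Good a c) (ga : ∀ η : ℝ, 0 < η → gH a 1 η ≤ η * la)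
    (gb : ∀ η : ℝ, 0 < η → gH b 1 η ≤ η * lb)
    (hc : c + (lb * (b - a) + (la - lb) / (b ^ 2 - a ^ 2) *
      (b ^ 2 * (b - a) - (b ^ 3 - a ^ 3) / 3)) ≤ c') : N6Good b c' := by
  obtain ⟨hc0, h, hm, hn, hbd, hint⟩ := g
  have hden : 0 < b ^ 2 - a ^ 2 := by nlinarith
  set p : ℝ → ℝ := fun x => lb + (la - lb) * ((b ^ 2 - x ^ 2) / (b ^ 2 - a ^ 2)) with hp
  have hp0 : ∀ x ∈ Icc a b, 0 ≤ p x := by
    intro x hx
    have h1 : 0 ≤ (b ^ 2 - x ^ 2) / (b ^ 2 - a ^ 2) :=
      div_nonneg (by nlinarith [hx.1, hx.2]) hden.le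
    have h2 : 0 ≤ la - lb := by linarith
    rw [hp]
    positivity
  have hpc : Continuous p := by
    rw [hp]
    fun_prop
  have hI : ∫ x in a..b, p x = lb * (b - a) + (la - lb) / (b ^ 2 - a ^ 2) *
      (b ^ 2 * (b - a) - (b ^ 3 - a ^ 3) / 3) := by
    have e : p = fun x => (lb + (la - lb) / (b ^ 2 - a ^ 2) * b ^ 2) -
        (la - lb) / (b ^ 2 - a ^ 2) * x ^ 2 := by
      funext x
      rw [hp]
      ring
    have hii : IntervalIntegrable (fun x : ℝ => (la - lb) / (b ^ 2 - a ^ 2) * x ^ 2) volume a b :=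
      Continuous.intervalIntegrable (by fun_prop) _ _
    rw [e, intervalIntegral.integral_sub intervalIntegrable_const hii,
      intervalIntegral.integral_const, intervalIntegral.integral_const_mul, integral_pow]
    simp only [smul_eq_mul]
    push_cast
    ring
  have hI0 : 0 ≤ ∫ x in a..b, p x := intervalIntegral.integral_nonneg hab.le hp0
  rw [← hI] at hc
  refine ⟨by linarith, fun x => if x < a then h x else if x ≤ b then p x else 0, ?_, ?_, ?_, ?_⟩
  · refine Measurable.ite measurableSet_Iio hm (Measurable.ite measurableSet_Iic hpc.measurable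
      measurable_const)
  · intro x
    simp only
    split_ifs with h1 h2
    · exact hn x
    · exact hp0 x ⟨not_lt.1 h1, h2⟩
    · exact le_rfl
  · intro x η hx0 hxb hη
    simp only
    by_cases h1 : x < a
    · rw [if_pos h1]
      exact hbd x η hx0 h1 hη
    · rw [if_neg h1, if_pos hxb.le]
      exact h3 b a lb la ha hab ga gb x (not_lt.1 h1) hxb.le η hη
  · have hu : Ioo (0 : ℝ) b = Ioo 0 a ∪ Ico a b := (Ioo_union_Ico_eq_Ioo ha hab.le).symm
    have hdj : Disjoint (Ioo (0 : ℝ) a) (Ico a b) := by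
      rw [Set.disjoint_left]
      intro x h1 h2
      exact absurd h1.2 (not_lt.2 h2.1)
    rw [hu, lintegral_union measurableSet_Ico hdj]
    have e1 : ∫⁻ x in Ioo 0 a, ENNReal.ofReal (if x < a then h x else if x ≤ b then p x else 0) =
        ∫⁻ x in Ioo 0 a, ENNReal.ofReal (h x) :=
      setLIntegral_congr_fun measurableSet_Ioo fun x hx => by rw [if_pos hx.2]
    have e2 : ∫⁻ x in Ico a b, ENNReal.ofReal (if x < a then h x else if x ≤ b then p x else 0) =
        ∫⁻ x in Ico a b, ENNReal.ofReal (p x) :=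
      setLIntegral_congr_fun measurableSet_Ico fun x hx => by
        rw [if_neg (not_lt.2 hx.1), if_pos hx.2.le]
    have e3 : ∫⁻ x in Ico a b, ENNReal.ofReal (p x) = ENNReal.ofReal (∫ x in a..b, p x) := by
      have hio : IntegrableOn p (Ico a b) :=
        (hpc.integrableOn_Icc (a := a) (b := b)).mono_set Ico_subset_Icc_self
      rw [← ofReal_integral_eq_lintegral_ofReal hio, ← integral_Icc_eq_integral_Ico,
        integral_Icc_eq_integral_Ioc, ← intervalIntegral.integral_of_le hab.le]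
      rw [EventuallyLE, ae_restrict_iff' measurableSet_Ico]
      exact Eventually.of_forall fun x hx => hp0 x ⟨hx.1, hx.2.le⟩
    rw [e1, e2, e3]
    refine (add_le_add hint le_rfl).trans ?_
    rw [← ENNReal.ofReal_add hc0 hI0]
    exact ENNReal.ofReal_le_ofReal hc

theorem n6_final (h1 : S_N1) {c : ℝ} (g : N6Good (√3)⁻¹ c)
    (hc : c + 2 * Real.pi / 3 ≤ Real.pi * K0) : S_N6 := by
  obtain ⟨hc0, h, hm, hn, hbd, hint⟩ := g
  have hs3 : 0 < (√3)⁻¹ := by positivity
  have hsq : ((√3)⁻¹) ^ 2 = 1 / 3 := by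
    rw [inv_pow, Real.sq_sqrt (by norm_num)]
    norm_num
  set F : ℝ → ℝ := fun x => if |x| < (√3)⁻¹ then h |x| else 2 / (1 + x ^ 2) with hF
  have hFm : Measurable F := by
    refine Measurable.ite (measurableSet_lt measurable_norm measurable_const)
      (hm.comp measurable_norm) ?_
    exact measurable_const.div (measurable_const.add (measurable_id.pow_const 2))
  have hFn : ∀ x, 0 ≤ F x := by
    intro x
    rw [hF]
    simp only
    split_ifs
    · exact hn _
    · positivity
  refine ⟨F, hFm, hFn, ?_, ?_⟩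
  · intro x η hx hη
    rw [hF]
    simp only
    split_ifs with hc1
    · have e : gH x 1 η = gH |x| 1 η := by
        unfold gH
        rw [sq_abs]
      rw [e]
      exact hbd |x| η (abs_pos.2 hx) hc1 hη
    · refine h1 x η ?_ hη
      have h2 := pow_le_pow_left₀ hs3.le (not_lt.1 hc1) 2
      rw [hsq, sq_abs] at h2
      exact h2
  · have hFm' : Measurable fun x => ENNReal.ofReal (F x) := hFm.ennreal_ofReal
    have hodd : ∫⁻ x in Iio (0 : ℝ), ENNReal.ofReal (F x) =
        ∫⁻ x in Ioi (0 : ℝ), ENNReal.ofReal (F x) := by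
      have := (Measure.measurePreserving_neg (volume : Measure ℝ)).setLIntegral_comp_preimage
        (measurableSet_Iio (a := (0 : ℝ))) hFm'
      rw [← this]
      have e : (Neg.neg ⁻¹' Iio (0 : ℝ)) = Ioi 0 := by
        ext x
        simp
      rw [e]
      refine lintegral_congr fun x => ?_
      rw [hF]
      simp only [abs_neg, neg_sq]
    have htot : ∫⁻ x, ENNReal.ofReal (F x) = 2 * ∫⁻ x in Ioi (0 : ℝ), ENNReal.ofReal (F x) := by
      rw [← lintegral_add_compl _ (measurableSet_Iio (a := (0 : ℝ))), hodd, compl_Iio,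
        setLIntegral_congr Ioi_ae_eq_Ici.symm, two_mul]
    have hsplit : ∫⁻ x in Ioi (0 : ℝ), ENNReal.ofReal (F x) =
        (∫⁻ x in Ioo 0 (√3)⁻¹, ENNReal.ofReal (h x)) +
        ∫⁻ x in Ici (√3)⁻¹, ENNReal.ofReal (2 / (1 + x ^ 2)) := by
      have hdj : Disjoint (Ioo (0 : ℝ) (√3)⁻¹) (Ici (√3)⁻¹) := by
        rw [Set.disjoint_left]
        intro x h1 h2
        exact absurd h1.2 (not_lt.2 h2)
      have f1 : ∫⁻ x in Ioo 0 (√3)⁻¹, ENNReal.ofReal (F x) =
          ∫⁻ x in Ioo 0 (√3)⁻¹, ENNReal.ofReal (h x) := by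
        refine setLIntegral_congr_fun measurableSet_Ioo fun x hx => ?_
        have : F x = h x := by
          rw [hF]
          simp only [abs_of_pos hx.1]
          rw [if_pos hx.2]
        rw [this]
      have f2 : ∫⁻ x in Ici (√3)⁻¹, ENNReal.ofReal (F x) =
          ∫⁻ x in Ici (√3)⁻¹, ENNReal.ofReal (2 / (1 + x ^ 2)) := by
        refine setLIntegral_congr_fun measurableSet_Ici fun x hx => ?_
        have hx' : (√3)⁻¹ ≤ x := hx
        have : F x = 2 / (1 + x ^ 2) := by
          rw [hF]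
          simp only [abs_of_pos (lt_of_lt_of_le hs3 hx')]
          rw [if_neg (not_lt.2 hx')]
        rw [this]
      rw [← f1, ← f2, ← lintegral_union measurableSet_Ici hdj, Ioo_union_Ici_eq_Ioi hs3]
    have htail : ∫⁻ x in Ici (√3)⁻¹, ENNReal.ofReal (2 / (1 + x ^ 2)) =
        ENNReal.ofReal (2 * Real.pi / 3) := by
      have hio : IntegrableOn (fun x : ℝ => 2 / (1 + x ^ 2)) (Ici (√3)⁻¹) := by
        have := (integrable_inv_one_add_sq.const_mul 2).integrableOn (s := Ici (√3)⁻¹)
        simpa [div_eq_mul_inv] using this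
      rw [← ofReal_integral_eq_lintegral_ofReal hio
        (Eventually.of_forall fun x => by simp only [Pi.zero_apply]; positivity)]
      congr 1
      rw [integral_Ici_eq_integral_Ioi]
      simp only [div_eq_mul_inv (2 : ℝ)]
      rw [integral_const_mul, integral_Ioi_inv_one_add_sq, Real.arctan_inv_sqrt_three]
      ring
    rw [htot, hsplit, htail]
    calc 2 * ((∫⁻ x in Ioo 0 (√3)⁻¹, ENNReal.ofReal (h x)) + ENNReal.ofReal (2 * Real.pi / 3))
        ≤ 2 * (ENNReal.ofReal c + ENNReal.ofReal (2 * Real.pi / 3)) :=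
          mul_le_mul_right (add_le_add hint le_rfl) _
      _ = ENNReal.ofReal (2 * (c + 2 * Real.pi / 3)) := by
          rw [← ENNReal.ofReal_add hc0 (by positivity), ENNReal.ofReal_mul (by norm_num)]
          norm_num
      _ ≤ ENNReal.ofReal (2 * Real.pi * K0) := ENNReal.ofReal_le_ofReal (by linarith)

theorem n6_log : Real.log ((1 + 0.977) / (1 - 0.977)) ≤ (0.977 : ℝ) * 4.5602 := by
  rw [Real.log_le_iff_le_exp (by norm_num)]
  have e : (0.977 : ℝ) * 4.5602 = 4 * 1 + 0.4553154 := by norm_num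
  rw [e, Real.exp_add]
  have h1 : Real.exp (4 * 1) = Real.exp 1 ^ 4 := by
    rw [← Real.exp_nat_mul]
    norm_num
  rw [h1]
  have h2 : (2.7182818283 : ℝ) < Real.exp 1 := Real.exp_one_gt_d9
  have h3 : (54.598 : ℝ) ≤ Real.exp 1 ^ 4 :=
    le_trans (by norm_num) (pow_le_pow_left₀ (by norm_num) h2.le 4)
  have h4 : (1.5766 : ℝ) ≤ Real.exp 0.4553154 := by
    refine le_trans ?_ (Real.sum_le_exp_of_nonneg (by norm_num) 6)
    norm_num [Finset.sum_range_succ, Nat.factorial]
  have h5 : (54.598 : ℝ) * 1.5766 ≤ Real.exp 1 ^ 4 * Real.exp 0.4553154 := by gcongr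
  exact le_trans (by norm_num) h5

theorem prf_N6 (h1 : S_N1) (h3 : S_N3) (h4 : S_N4) (h5 : S_N5) : S_N6 := by
  have g14 : N6Good 0.021 0.117259 := n6_base h4 (e1 := 0.977) (l1 := 4.5602) (by norm_num)
    (by norm_num) (by norm_num) (by norm_num) (fun η hη => by
      obtain ⟨a1, a2, a3, a4, a5, a6, a7, a8, a9, a10, a11, a12, a13, a14⟩ := h5 η hη
      exact a14) n6_log (by norm_num)
  have t := h5
  have g13 : N6Good 0.029 0.152527 := n6_step h3 (la := 4.5602) (lb := 4.2397) (by norm_num)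
    (by norm_num) (by norm_num) (by norm_num) g14 (fun η hη => (h5 η hη).2.2.2.2.2.2.2.2.2.2.2.2.2)
    (fun η hη => (h5 η hη).2.2.2.2.2.2.2.2.2.2.2.2.1) (by norm_num)
  have g12 : N6Good 0.040 0.197509 := n6_step h3 (la := 4.2397) (lb := 3.9218) (by norm_num)
    (by norm_num) (by norm_num) (by norm_num) g13 (fun η hη => (h5 η hη).2.2.2.2.2.2.2.2.2.2.2.2.1)
    (fun η hη => (h5 η hη).2.2.2.2.2.2.2.2.2.2.2.1) (by norm_num)
  have g11 : N6Good 0.052 0.243090 := n6_step h3 (la := 3.9218) (lb := 3.6638) (by norm_num)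
    (by norm_num) (by norm_num) (by norm_num) g12 (fun η hη => (h5 η hη).2.2.2.2.2.2.2.2.2.2.2.1)
    (fun η hη => (h5 η hη).2.2.2.2.2.2.2.2.2.2.1) (by norm_num)
  have g10 : N6Good 0.067 0.296269 := n6_step h3 (la := 3.6638) (lb := 3.4163) (by norm_num)
    (by norm_num) (by norm_num) (by norm_num) g11 (fun η hη => (h5 η hη).2.2.2.2.2.2.2.2.2.2.1)
    (fun η hη => (h5 η hη).2.2.2.2.2.2.2.2.2.1) (by norm_num)
  have g9 : N6Good 0.085 0.355772 := n6_step h3 (la := 3.4163) (lb := 3.1860) (by norm_num)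
    (by norm_num) (by norm_num) (by norm_num) g10 (fun η hη => (h5 η hη).2.2.2.2.2.2.2.2.2.1)
    (fun η hη => (h5 η hη).2.2.2.2.2.2.2.2.1) (by norm_num)
  have g8 : N6Good 0.107 0.423534 := n6_step h3 (la := 3.1860) (lb := 2.9657) (by norm_num)
    (by norm_num) (by norm_num) (by norm_num) g9 (fun η hη => (h5 η hη).2.2.2.2.2.2.2.2.1)
    (fun η hη => (h5 η hη).2.2.2.2.2.2.2.1) (by norm_num)
  have g7 : N6Good 0.136 0.506388 := n6_step h3 (la := 2.9657) (lb := 2.7393) (by norm_num)
    (by norm_num) (by norm_num) (by norm_num) g8 (fun η hη => (h5 η hη).2.2.2.2.2.2.2.1)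
    (fun η hη => (h5 η hη).2.2.2.2.2.2.1) (by norm_num)
  have g6 : N6Good 0.172 0.601239 := n6_step h3 (la := 2.7393) (lb := 2.5217) (by norm_num)
    (by norm_num) (by norm_num) (by norm_num) g7 (fun η hη => (h5 η hη).2.2.2.2.2.2.1)
    (fun η hη => (h5 η hη).2.2.2.2.2.1) (by norm_num)
  have g5 : N6Good 0.218 0.712496 := n6_step h3 (la := 2.5217) (lb := 2.3071) (by norm_num)
    (by norm_num) (by norm_num) (by norm_num) g6 (fun η hη => (h5 η hη).2.2.2.2.2.1)
    (fun η hη => (h5 η hη).2.2.2.2.1) (by norm_num)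
  have g4 : N6Good 0.271 0.829871 := n6_step h3 (la := 2.3071) (lb := 2.1152) (by norm_num)
    (by norm_num) (by norm_num) (by norm_num) g5 (fun η hη => (h5 η hη).2.2.2.2.1)
    (fun η hη => (h5 η hη).2.2.2.1) (by norm_num)
  have g3 : N6Good 0.333 0.955739 := n6_step h3 (la := 2.1152) (lb := 1.9390) (by norm_num)
    (by norm_num) (by norm_num) (by norm_num) g4 (fun η hη => (h5 η hη).2.2.2.1)
    (fun η hη => (h5 η hη).2.2.1) (by norm_num)
  have g2 : N6Good 0.404 1.087918 := n6_step h3 (la := 1.9390) (lb := 1.7792) (by norm_num)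
    (by norm_num) (by norm_num) (by norm_num) g3 (fun η hη => (h5 η hη).2.2.1)
    (fun η hη => (h5 η hη).2.1) (by norm_num)
  have g1 : N6Good 0.485 1.226316 := n6_step h3 (la := 1.7792) (lb := 1.6336) (by norm_num)
    (by norm_num) (by norm_num) (by norm_num) g2 (fun η hη => (h5 η hη).2.1)
    (fun η hη => (h5 η hη).1) (by norm_num)
  have hsq : ((√3)⁻¹) ^ 2 = (1 : ℝ) / 3 := by
    rw [inv_pow, Real.sq_sqrt (by norm_num)]
    norm_num
  have hs3 : (0 : ℝ) < (√3)⁻¹ := by positivity
  have hlow : (0.577 : ℝ) ≤ (√3)⁻¹ := by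
    by_contra hcon
    push Not at hcon
    have : ((√3)⁻¹) ^ 2 < (0.577 : ℝ) ^ 2 := pow_lt_pow_left₀ hcon hs3.le (by norm_num)
    rw [hsq] at this
    norm_num at this
  have hup : (√3)⁻¹ ≤ (0.57736 : ℝ) := by
    by_contra hcon
    push Not at hcon
    have : (0.57736 : ℝ) ^ 2 < ((√3)⁻¹) ^ 2 := pow_lt_pow_left₀ hcon (by norm_num) (by norm_num)
    rw [hsq] at this
    norm_num at this
  have g0 : N6Good (√3)⁻¹ 1.37122 := by
    refine n6_step h3 (la := 1.6336) (lb := 1.5) (by norm_num) (by linarith) (by norm_num)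
      (by norm_num) g1 (fun η hη => (h5 η hη).1) (fun η hη => ?_) ?_
    · have := h1 (√3)⁻¹ η (by rw [hsq]) hη
      rw [hsq] at this
      refine this.trans (le_of_eq ?_)
      norm_num
    · have e3 : ((√3)⁻¹ : ℝ) ^ 3 = (1 / 3) * (√3)⁻¹ := by
        rw [pow_succ, hsq]
      rw [e3, hsq]
      nlinarith
  refine n6_final h1 g0 ?_
  have hpi := Real.pi_gt_d4
  unfold K0
  nlinarith

end MPf68f16

end

section

/-! Items NRE, NADD, NCOMP. -/

set_option autoImplicit false

open MeasureTheory Metric Set Filter Topology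

namespace MPf68f16

theorem prf_NRE : S_NRE := by
  intro f hf
  refine ⟨Complex.continuous_re.comp_continuousOn hf.continuousOn, ?_⟩
  intro ψ hψ hm z r hr hz
  have hd : DifferentiableOn ℂ (fun w => f (ψ w)) (ball 0 1) := hf.comp hψ hm
  have hd' : DiffContOnCl ℂ (fun w => f (ψ w)) (ball z |r|) := by
    rw [abs_of_pos hr]
    refine DifferentiableOn.diffContOnCl ?_
    rw [closure_ball z hr.ne']
    exact hd.mono hz
  have h1 : Real.circleAverage (fun w => f (ψ w)) z r = f (ψ z) := hd'.circleAverage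
  have hci : CircleIntegrable (fun w => f (ψ w)) z r := by
    refine ContinuousOn.circleIntegrable' ?_
    rw [abs_of_pos hr]
    exact hd.continuousOn.mono (sphere_subset_closedBall.trans hz)
  have h2 := Real.circleAverage_def (f := fun w => f (ψ w)) (c := z) (R := r)
  have h3 : Real.circleAverage (fun w => (f (ψ w)).re) z r =
      (Real.circleAverage (fun w => f (ψ w)) z r).re := by
    rw [Real.circleAverage_def, Real.circleAverage_def, Complex.smul_re]
    congr 1
    exact intervalIntegral.intervalIntegral_re hci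
  rw [h3, h1]

theorem Nice.ci {u : ℂ → ℝ} (hu : Nice u) {ψ : ℂ → ℂ} (hψ : DifferentiableOn ℂ ψ (ball 0 1))
    (hm : MapsTo ψ (ball 0 1) (ball 0 1)) {z : ℂ} {r : ℝ} (hr : 0 < r)
    (hz : closedBall z r ⊆ ball 0 1) : CircleIntegrable (fun w => u (ψ w)) z r := by
  refine ContinuousOn.circleIntegrable' ?_
  rw [abs_of_pos hr]
  exact (hu.1.comp hψ.continuousOn hm).mono (sphere_subset_closedBall.trans hz)

theorem prf_NADD : S_NADD := by
  intro u v hu hv a b ha hb
  refine ⟨(hu.1.const_smul a).add (hv.1.const_smul b), ?_⟩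
  intro ψ hψ hm z r hr hz
  have h1 := hu.ci hψ hm hr hz
  have h2 := hv.ci hψ hm hr hz
  have e : Real.circleAverage (fun w => a * u (ψ w) + b * v (ψ w)) z r =
      a * Real.circleAverage (fun w => u (ψ w)) z r +
        b * Real.circleAverage (fun w => v (ψ w)) z r := by
    have h3 : CircleIntegrable (fun w => a • u (ψ w)) z r := h1.const_smul
    have h4 : CircleIntegrable (fun w => b • v (ψ w)) z r := h2.const_smul
    have h5 := Real.circleAverage_fun_add h3 h4
    rw [Real.circleAverage_fun_smul, Real.circleAverage_fun_smul] at h5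
    exact h5
  have i1 := hu.2 ψ hψ hm z r hr hz
  have i2 := hv.2 ψ hψ hm z r hr hz
  show a * u (ψ z) + b * v (ψ z) ≤ _
  rw [e]
  exact add_le_add (mul_le_mul_of_nonneg_left i1 ha) (mul_le_mul_of_nonneg_left i2 hb)

theorem prf_NCOMP : S_NCOMP := by
  intro u ψ hu hψ hm
  refine ⟨hu.1.comp hψ.continuousOn hm, ?_⟩
  intro ψ' hψ' hm' z r hr hz
  exact hu.2 (fun w => ψ (ψ' w)) (hψ.comp hψ' hm') (hm.comp hm') z r hr hz

end MPf68f16

end

section

set_option autoImplicit false

/-!
# MP_f68f16_an, item NLOG: `log (max ‖f‖ τ)` is Nice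
-/

open MeasureTheory Metric Set Filter Topology

namespace MPf68f16

/-- the inequality in Jensen's formula -/
theorem NLOG_jensen {g : ℂ → ℂ} {c : ℂ} {R : ℝ} (hR : 0 < R)
    (hg : AnalyticOnNhd ℂ g (closedBall c |R|)) (hc : g c ≠ 0) :
    Real.log ‖g c‖ ≤ Real.circleAverage (fun z => Real.log ‖g z‖) c R := by
  have h := AnalyticOnNhd.circleAverage_log_norm hR.ne' hg hc
  have h2 : 0 ≤ ∑ᶠ u, (MeromorphicOn.divisor g (closedBall c |R|) u : ℝ)
      * Real.log (R * ‖c - u‖⁻¹) := by
    refine finsum_nonneg fun u => ?_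
    by_cases hu : u ∈ closedBall c |R|
    · refine mul_nonneg (mod_cast MeromorphicOn.AnalyticOnNhd.divisor_nonneg hg u) ?_
      rcases eq_or_ne c u with h | h
      · simp [h]
      · apply Real.log_nonneg
        have h3 : 0 < ‖c - u‖ := norm_pos_iff.2 (sub_ne_zero.2 h)
        rw [mem_closedBall, dist_comm, dist_eq_norm, abs_of_pos hR] at hu
        rw [← div_eq_mul_inv, le_div_iff₀ h3]
        linarith
    · simp [hu]
  have h4 : Real.circleAverage (fun z => Real.log ‖g z‖) c R
      = ∑ᶠ u, (MeromorphicOn.divisor g (closedBall c |R|) u : ℝ)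
      * Real.log (R * ‖c - u‖⁻¹) + Real.log ‖g c‖ := h
  linarith

theorem NLOG_eq {x τ : ℝ} (hx : 0 ≤ x) (hτ : 0 < τ) :
    Real.log (max x τ) = Real.log τ + Real.posLog (x / τ) := by
  unfold Real.posLog
  rcases le_total x τ with h | h
  · rw [max_eq_right h, max_eq_left, add_zero]
    exact Real.log_nonpos (by positivity) ((div_le_one hτ).2 h)
  · have hx0 : 0 < x := hτ.trans_le h
    rw [max_eq_left h, max_eq_right, Real.log_div hx0.ne' hτ.ne']
    · ring
    · exact Real.log_nonneg ((one_le_div hτ).2 h)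

theorem prf_NLOG : S_NLOG := by
  intro f τ hf hτ
  have hmax : ∀ z, (0 : ℝ) < max ‖f z‖ τ := fun z => hτ.trans_le (le_max_right _ _)
  have hcont : ContinuousOn (fun z => Real.log (max ‖f z‖ τ)) (ball 0 1) :=
    ContinuousOn.log (hf.continuousOn.norm.sup continuousOn_const) fun z _ => (hmax z).ne'
  refine ⟨hcont, fun ψ hψ hmaps z r hr hsub => ?_⟩
  -- the analytic function `h = f ∘ ψ / τ`
  set g : ℂ → ℂ := fun w => f (ψ w) / (τ : ℂ) with hg
  have hgd : DifferentiableOn ℂ g (ball 0 1) := (hf.comp hψ hmaps).div_const _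
  have hga : AnalyticOnNhd ℂ g (ball 0 1) := hgd.analyticOnNhd isOpen_ball
  have hga' : AnalyticOnNhd ℂ g (closedBall z |r|) := by
    rw [abs_of_pos hr]; exact hga.mono hsub
  have hnorm : ∀ w, ‖g w‖ = ‖f (ψ w)‖ / τ := by
    intro w
    rw [hg]
    simp only
    rw [norm_div, Complex.norm_real, Real.norm_eq_abs, abs_of_pos hτ]
  have hu : ∀ w, Real.log (max ‖f (ψ w)‖ τ) = Real.log τ + Real.posLog ‖g w‖ := by
    intro w
    rw [hnorm, NLOG_eq (norm_nonneg _) hτ]
  have hsph : sphere z |r| ⊆ ball (0 : ℂ) 1 := by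
    rw [abs_of_pos hr]; exact sphere_subset_closedBall.trans hsub
  have hpc : ContinuousOn (fun w => Real.posLog ‖g w‖) (sphere z |r|) := by
    have h1 : ContinuousOn (fun w => Real.log (max ‖f (ψ w)‖ τ)) (ball 0 1) :=
      hcont.comp hψ.continuousOn hmaps
    have h2 : (fun w => Real.posLog ‖g w‖)
        = fun w => Real.log (max ‖f (ψ w)‖ τ) - Real.log τ := by
      funext w
      rw [hu w]
      ring
    rw [h2]
    exact (h1.mono hsph).sub continuousOn_const
  have hpi : CircleIntegrable (fun w => Real.posLog ‖g w‖) z r := hpc.circleIntegrable'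
  have key : Real.posLog ‖g z‖ ≤ Real.circleAverage (fun w => Real.posLog ‖g w‖) z r := by
    have h0 : 0 ≤ Real.circleAverage (fun w => Real.posLog ‖g w‖) z r :=
      Real.circleAverage_nonneg_of_nonneg fun w _ => Real.posLog_nonneg
    by_cases h1 : ‖g z‖ ≤ 1
    · have h2 : Real.posLog ‖g z‖ = 0 := by
        unfold Real.posLog
        exact max_eq_left (Real.log_nonpos (norm_nonneg _) h1)
      rw [h2]; exact h0
    · have hne : g z ≠ 0 := by
        intro h
        rw [h, norm_zero] at h1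
        exact h1 zero_le_one
      have h3 : Real.posLog ‖g z‖ = Real.log ‖g z‖ := by
        unfold Real.posLog
        exact max_eq_right (Real.log_nonneg (not_le.1 h1).le)
      rw [h3]
      refine (NLOG_jensen hr hga' hne).trans ?_
      refine Real.circleAverage_mono ?_ hpi fun w _ => ?_
      · exact MeromorphicOn.circleIntegrable_log_norm
          ((hga'.mono sphere_subset_closedBall).meromorphicOn)
      · unfold Real.posLog
        exact le_max_right _ _
  show Real.log (max ‖f (ψ z)‖ τ) ≤ Real.circleAverage (fun w => Real.log (max ‖f (ψ w)‖ τ)) z r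
  have h5 : (fun w => Real.log (max ‖f (ψ w)‖ τ))
      = fun w => Real.log τ + Real.posLog ‖g w‖ := funext hu
  rw [h5, hu z, Real.circleAverage_fun_add (circleIntegrable_const _ _ _) hpi,
    Real.circleAverage_const]
  linarith

end MPf68f16

end

section

set_option autoImplicit false

namespace MPf68f16

/-- Taylor upper bound for the arctangent. -/
lemma arctan_le_poly (x : ℝ) (hx : 0 ≤ x) :
    Real.arctan x ≤ x - x^3/3 + x^5/5 - x^7/7 + x^9/9 - x^11/11 + x^13/13 := by
  have hmono : MonotoneOn (fun x : ℝ => x - x^3/3 + x^5/5 - x^7/7 + x^9/9 - x^11/11 + x^13/13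
      - Real.arctan x) (Set.Ici 0) := by
    have hd : ∀ y : ℝ, HasDerivAt (fun x : ℝ => x - x^3/3 + x^5/5 - x^7/7 + x^9/9 - x^11/11
        + x^13/13 - Real.arctan x)
        (1 - y^2 + y^4 - y^6 + y^8 - y^10 + y^12 - 1/(1+y^2)) y := by
      intro y
      have h1 := hasDerivAt_id' y
      have h (n : ℕ) : HasDerivAt (fun x : ℝ => x^(n+1)/((n:ℝ)+1)) (y^n) y := by
        have := (hasDerivAt_pow (n+1) y).div_const ((n:ℝ)+1)
        have e : ((n+1 : ℕ) : ℝ) * y^(n+1-1) / ((n:ℝ)+1) = y^n := by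
          have : (n:ℝ)+1 ≠ 0 := by positivity
          rw [Nat.add_sub_cancel]
          push_cast
          field_simp
        rw [e] at this
        exact this
      have h3 := h 2
      have h5 := h 4
      have h7 := h 6
      have h9 := h 8
      have h11 := h 10
      have h13 := h 12
      norm_num at h3 h5 h7 h9 h11 h13
      have := ((((((h1.sub h3).add h5).sub h7).add h9).sub h11).add h13).sub
        (Real.hasDerivAt_arctan y)
      exact this
    refine monotoneOn_of_deriv_nonneg (convex_Ici 0) ?_ ?_ ?_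
    · exact fun y _ => (hd y).continuousAt.continuousWithinAt
    · exact fun y _ => (hd y).differentiableAt.differentiableWithinAt
    · intro y _
      rw [(hd y).deriv]
      have hp : 0 < 1 + y^2 := by positivity
      have : 1 - y^2 + y^4 - y^6 + y^8 - y^10 + y^12 - 1/(1+y^2) = y^14/(1+y^2) := by
        field_simp
        ring
      rw [this]
      positivity
  have h := hmono (Set.mem_Ici.mpr le_rfl) (Set.mem_Ici.mpr hx) hx
  simp only at h
  norm_num at h
  linarith

/-- Lower bound for the logarithm. -/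
lemma log_ge : (2.65528 : ℝ) ≤ Real.log (4 / 0.2811) := by
  have h2 := Real.log_two_gt_d9
  have e : (4 / 0.2811 : ℝ) = 2^4 * (1 / (16 * 0.2811 / 4)) := by norm_num
  rw [e, Real.log_mul (by norm_num) (by norm_num), Real.log_pow, Real.log_div (by norm_num)
    (by norm_num), Real.log_one]
  have hc : Real.log (16 * 0.2811 / 4) ≤ 0.1173 := by
    rw [Real.log_le_iff_le_exp (by norm_num)]
    have := Real.sum_le_exp_of_nonneg (x := 0.1173) (by norm_num) 4
    norm_num [Finset.sum_range_succ, Nat.factorial] at this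
    linarith
  push_cast
  linarith

theorem prf_NUM1 : S_NUM1 := by
  unfold S_NUM1
  have h2 := Real.two_mul_arctan (x := 0.281) (by norm_num) (by norm_num)
  have hx : (2 * 0.281 / (1 - 0.281 ^ 2) : ℝ) = 2 * 0.281 / (1 - 0.281 ^ 2) := rfl
  rw [← h2]
  have ha := arctan_le_poly 0.281 (by norm_num)
  have hl := log_ge
  have hpi := Real.pi_gt_d6
  have hdiv : 2 * Real.arctan 0.281 / Real.pi ≤ 0.174395 := by
    rw [div_le_iff₀ Real.pi_pos]
    norm_num at ha
    nlinarith
  norm_num at *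
  nlinarith

end MPf68f16

end

section

/-!
MP_f68f16_an, item PLATE: the plate (helper57).
-/

set_option autoImplicit false

open MeasureTheory Metric Set Filter Topology

namespace MPf68f16

private theorem plate_concave : ConcaveOn ℝ (Ici 0) Real.arctan := by
  refine AntitoneOn.concaveOn_of_deriv (convex_Ici 0) Real.continuous_arctan.continuousOn
    Real.differentiable_arctan.differentiableOn ?_
  intro x hx y hy hxy
  rw [interior_Ici, mem_Ioi] at hx hy
  rw [Real.deriv_arctan]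
  show 1 / (1 + y ^ 2) ≤ 1 / (1 + x ^ 2)
  have : x ^ 2 ≤ y ^ 2 := pow_le_pow_left₀ hx.le hxy 2
  gcongr

/-- convexity of `X ↦ arctan (c / (y + X))` -/
private theorem plate_conv {c y0 y1 l : ℝ} (hc : 0 < c) (h0 : 0 < y0) (h1 : 0 < y1) (hl : 0 ≤ l)
    (hl1 : l ≤ 1) : Real.arctan (c / ((1 - l) * y0 + l * y1)) ≤
      (1 - l) * Real.arctan (c / y0) + l * Real.arctan (c / y1) := by
  have key : ∀ y : ℝ, 0 < y → Real.arctan (c / y) = Real.pi / 2 - Real.arctan (y / c) := by
    intro y hy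
    have := Real.arctan_inv_of_pos (div_pos hy hc)
    rwa [inv_div] at this
  have hy : 0 < (1 - l) * y0 + l * y1 := by
    rcases hl.eq_or_lt with h | h
    · rw [← h]; simpa using h0
    · have : 0 ≤ (1 - l) * y0 := mul_nonneg (by linarith) h0.le
      have : 0 < l * y1 := mul_pos h h1
      linarith
  rw [key _ hy, key _ h0, key _ h1]
  have h2 := plate_concave.2 (show y0 / c ∈ Ici 0 from (div_pos h0 hc).le)
    (show y1 / c ∈ Ici 0 from (div_pos h1 hc).le) (by linarith : 0 ≤ 1 - l) hl (by ring)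
  simp only [smul_eq_mul] at h2
  have h3 : (1 - l) * (y0 / c) + l * (y1 / c) = ((1 - l) * y0 + l * y1) / c := by
    field_simp
  rw [h3] at h2
  nlinarith

private theorem plate_log {v : ℝ} (h0 : 0 ≤ v) (h1 : v ≤ 0.08) : 0.96 * v ≤ Real.log (1 + v) := by
  -- log (1+v) ≥ 2v/(v+2)
  have h2 := Real.le_log_one_add_of_nonneg h0
  refine le_trans ?_ h2
  rw [le_div_iff₀ (by linarith)]
  nlinarith

private theorem plate_T2 {s : ℝ} (hs : s ^ 2 ≤ 0.32) :
    Real.log 2 + 0.12 * s ^ 2 ≤ Real.log (s ^ 2 + 4) / 2 := by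
  have h0 : 0 ≤ s ^ 2 := sq_nonneg s
  have h1 : s ^ 2 + 4 = 2 ^ 2 * (1 + s ^ 2 / 4) := by ring
  rw [h1, Real.log_mul (by norm_num) (by positivity), Real.log_pow]
  have h2 := plate_log (v := s ^ 2 / 4) (by positivity) (by linarith)
  push_cast
  linarith

private theorem plate_node_le (N j : ℕ) : node N j ^ 2 ≤ 1 := by
  unfold node
  exact Real.cos_sq_le_one _

/-- the scaled sum -/
private theorem plate_sum (h1 : S_CHEB) (h2 : S_MOM) (h3 : S_DMON) (N : ℕ) (hN : 2 ≤ N)
    (M1 M2 b : ℝ) (hM1 : 0 < M1) (hM2 : 0 < M2) (hb : 0 < b) (hb1 : (2 * b) ^ 2 ≤ 0.32) (e : ℝ)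
    (hCN : N * (1 / 4 - Real.log 2 / 2 - e) ≤
      ∑ j ∈ Finset.range N, node N j ^ 2 * Real.log |node N j|) (x : ℝ) (hx : |x| ≤ b)
    (hxn : ∀ j ∈ Finset.range N, x ≠ b * node N j) :
    (M1 + M2) * Real.log (4 / b) + M2 * (1 / 2 - x ^ 2 / b ^ 2) +
      0.12 * ((M1 + M2) * x ^ 2 + M1 * b ^ 2 / 2) -
      ((M1 + 2 * M2) * Real.log 2 / N + 2 * M2 * e) ≤
    ∑ j ∈ Finset.range N, (M1 + 2 * M2 * (1 - node N j ^ 2)) / N *
      (Real.log (((x - b * node N j) ^ 2 + 4) / (x - b * node N j) ^ 2) / 2) := by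
  have hN0 : (0 : ℝ) < N := by
    have : 0 < N := by omega
    exact_mod_cast this
  set ξ := x / b with hξ
  have hxb : x = b * ξ := by rw [hξ]; field_simp
  have hξ1 : |ξ| ≤ 1 := by
    rw [hξ, abs_div, abs_of_pos hb, div_le_one hb]
    exact hx
  have hξn : ∀ j ∈ Finset.range N, ξ ≠ node N j := by
    intro j hj h
    exact hxn j hj (by rw [hxb, h])
  obtain ⟨m1, m2, m3⟩ := h2 N hN
  -- product bound
  have hprod : ∑ j ∈ Finset.range N, Real.log |ξ - node N j| ≤ -((N : ℝ) - 1) * Real.log 2 := by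
    have h4 := h1 N (by omega) ξ hξ1
    rw [← Real.log_prod (fun j hj => abs_ne_zero.2 (sub_ne_zero.2 (hξn j hj)))]
    have hpos : 0 < ∏ j ∈ Finset.range N, |ξ - node N j| :=
      Finset.prod_pos fun j hj => abs_pos.2 (sub_ne_zero.2 (hξn j hj))
    refine (Real.log_le_log hpos h4).trans (le_of_eq ?_)
    rw [Real.log_div (by norm_num) (by positivity), Real.log_pow]
    ring
  have hdm := h3 N hN ξ hξ1 hξn
  -- each term
  have hterm : ∀ j ∈ Finset.range N,
      (M1 + 2 * M2 * (1 - node N j ^ 2)) / N * (Real.log 2 + 0.12 * (x - b * node N j) ^ 2) -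
        (M1 + 2 * M2 * (1 - node N j ^ 2)) / N * Real.log b -
        (M1 / N * Real.log |ξ - node N j| +
          2 * M2 / N * ((1 - node N j ^ 2) * Real.log |ξ - node N j|)) ≤
      (M1 + 2 * M2 * (1 - node N j ^ 2)) / N *
        (Real.log (((x - b * node N j) ^ 2 + 4) / (x - b * node N j) ^ 2) / 2) := by
    intro j hj
    have hne : x - b * node N j ≠ 0 := sub_ne_zero.2 (hxn j hj)
    have hne' : ξ - node N j ≠ 0 := sub_ne_zero.2 (hξn j hj)
    have e1 : Real.log (((x - b * node N j) ^ 2 + 4) / (x - b * node N j) ^ 2) / 2 =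
        Real.log ((x - b * node N j) ^ 2 + 4) / 2 - (Real.log b + Real.log |ξ - node N j|) := by
      rw [Real.log_div (by positivity) (pow_ne_zero 2 hne)]
      have e2 : Real.log ((x - b * node N j) ^ 2) = 2 * (Real.log b + Real.log |ξ - node N j|) := by
        have e3 : (x - b * node N j) ^ 2 = (b * |ξ - node N j|) ^ 2 := by
          rw [mul_pow, sq_abs, ← mul_pow, mul_sub, ← hxb]
        rw [e3, Real.log_pow, Real.log_mul hb.ne' (abs_ne_zero.2 hne')]
        norm_num
      rw [e2]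
      ring
    rw [e1]
    have hnl := plate_node_le N j
    have hc0 : 0 ≤ (M1 + 2 * M2 * (1 - node N j ^ 2)) / N := by
      apply div_nonneg _ hN0.le
      have : 0 ≤ M2 * (1 - node N j ^ 2) := mul_nonneg hM2.le (by linarith)
      linarith
    have hs : (x - b * node N j) ^ 2 ≤ 0.32 := by
      refine le_trans ?_ hb1
      rw [sq_le_sq]
      have a1 : |node N j| ≤ 1 := by
        rw [← sq_le_one_iff_abs_le_one]
        exact hnl
      calc |x - b * node N j| ≤ |x| + |b * node N j| := abs_sub _ _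
        _ ≤ b + b * 1 := by
          rw [abs_mul, abs_of_pos hb]
          gcongr
        _ = |2 * b| := by rw [abs_of_pos (by positivity)]; ring
    have h5 := mul_le_mul_of_nonneg_left (plate_T2 hs) hc0
    have e4 : (M1 + 2 * M2 * (1 - node N j ^ 2)) / N * Real.log |ξ - node N j| =
        M1 / N * Real.log |ξ - node N j| +
          2 * M2 / N * ((1 - node N j ^ 2) * Real.log |ξ - node N j|) := by
      ring
    rw [← e4]
    nlinarith
  refine le_trans ?_ (Finset.sum_le_sum hterm)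
  rw [Finset.sum_sub_distrib, Finset.sum_sub_distrib, Finset.sum_add_distrib, ← Finset.mul_sum,
    ← Finset.mul_sum, ← Finset.sum_mul]
  -- sums of coefficients
  have s1 : ∑ j ∈ Finset.range N, (M1 + 2 * M2 * (1 - node N j ^ 2)) / N = M1 + M2 := by
    have : ∀ j ∈ Finset.range N, (M1 + 2 * M2 * (1 - node N j ^ 2)) / N =
        (M1 + 2 * M2) / N - 2 * M2 / N * node N j ^ 2 := by
      intro j _
      ring
    rw [Finset.sum_congr rfl this, Finset.sum_sub_distrib, ← Finset.mul_sum, m2,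
      Finset.sum_const, Finset.card_range, nsmul_eq_mul]
    field_simp
    ring
  have s2 : (M1 + M2) * Real.log 2 + 0.12 * ((M1 + M2) * x ^ 2 + M1 * b ^ 2 / 2) ≤
      ∑ j ∈ Finset.range N, (M1 + 2 * M2 * (1 - node N j ^ 2)) / N *
        (Real.log 2 + 0.12 * (x - b * node N j) ^ 2) := by
    have h6 : ∀ j ∈ Finset.range N, (M1 + 2 * M2 * (1 - node N j ^ 2)) / N *
        (Real.log 2 + 0.12 * x ^ 2) - 0.24 * x * b / N * ((M1 + 2 * M2) * node N j -
          2 * M2 * node N j ^ 3) + 0.12 * b ^ 2 * M1 / N * node N j ^ 2 ≤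
        (M1 + 2 * M2 * (1 - node N j ^ 2)) / N *
        (Real.log 2 + 0.12 * (x - b * node N j) ^ 2) := by
      intro j _
      have hnl := plate_node_le N j
      have a1 : 0 ≤ 0.12 * b ^ 2 * (2 * M2 * ((1 - node N j ^ 2) * node N j ^ 2)) / N := by
        have : 0 ≤ (1 - node N j ^ 2) * node N j ^ 2 := mul_nonneg (by linarith) (sq_nonneg _)
        positivity
      have a2 : (M1 + 2 * M2 * (1 - node N j ^ 2)) / N *
          (Real.log 2 + 0.12 * (x - b * node N j) ^ 2) =
          ((M1 + 2 * M2 * (1 - node N j ^ 2)) / N *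
        (Real.log 2 + 0.12 * x ^ 2) - 0.24 * x * b / N * ((M1 + 2 * M2) * node N j -
          2 * M2 * node N j ^ 3) + 0.12 * b ^ 2 * M1 / N * node N j ^ 2) +
          0.12 * b ^ 2 * (2 * M2 * ((1 - node N j ^ 2) * node N j ^ 2)) / N := by
        ring
      linarith
    refine le_trans (le_of_eq ?_) (Finset.sum_le_sum h6)
    rw [Finset.sum_add_distrib, Finset.sum_sub_distrib, ← Finset.sum_mul, s1, ← Finset.mul_sum,
      ← Finset.mul_sum, Finset.sum_sub_distrib, ← Finset.mul_sum, ← Finset.mul_sum, m1, m2, m3]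
    field_simp
    ring
  have s3 : M1 / N * ∑ j ∈ Finset.range N, Real.log |ξ - node N j| ≤
      -(M1 * (1 - 1 / N) * Real.log 2) := by
    calc M1 / N * ∑ j ∈ Finset.range N, Real.log |ξ - node N j| ≤
        M1 / N * (-((N : ℝ) - 1) * Real.log 2) := by gcongr
      _ = _ := by
        field_simp
  have s4 : 2 * M2 / N * ∑ j ∈ Finset.range N, (1 - node N j ^ 2) * Real.log |ξ - node N j| ≤
      2 * M2 * (-((1 - 1 / N) * Real.log 2) + ξ ^ 2 / 2 - (1 / 4 - Real.log 2 / 2 - e)) := by
    calc 2 * M2 / N * ∑ j ∈ Finset.range N, (1 - node N j ^ 2) * Real.log |ξ - node N j| ≤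
        2 * M2 / N * (-((N : ℝ) - 1) * Real.log 2 + N * ξ ^ 2 / 2 -
          N * (1 / 4 - Real.log 2 / 2 - e)) := by
          gcongr
          linarith
      _ = _ := by
        field_simp
  rw [s1]
  have hlog : Real.log (4 / b) = 2 * Real.log 2 - Real.log b := by
    rw [Real.log_div (by norm_num) hb.ne', show (4 : ℝ) = 2 ^ 2 by norm_num, Real.log_pow]
    norm_num
  have hξ2 : x ^ 2 / b ^ 2 = ξ ^ 2 := by rw [hξ, div_pow]
  rw [hlog, hξ2]
  have hfin : (M1 + M2) * (2 * Real.log 2 - Real.log b) + M2 * (1 / 2 - ξ ^ 2) +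
      0.12 * ((M1 + M2) * x ^ 2 + M1 * b ^ 2 / 2) -
      ((M1 + 2 * M2) * Real.log 2 / N + 2 * M2 * e) =
      ((M1 + M2) * Real.log 2 + 0.12 * ((M1 + M2) * x ^ 2 + M1 * b ^ 2 / 2)) -
      (M1 + M2) * Real.log b - (-(M1 * (1 - 1 / N) * Real.log 2) +
      2 * M2 * (-((1 - 1 / N) * Real.log 2) + ξ ^ 2 / 2 - (1 / 4 - Real.log 2 / 2 - e))) := by
    field_simp
    ring
  rw [hfin]
  linarith

theorem prf_PLATE (h1 : S_CHEB) (h2 : S_MOM) (h3 : S_DMON) (h4 : S_CN) (h5 : S_NUM1)
    (h6 : S_NUM2) : S_PLATE := by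
  have hl2 : Real.log 2 < 0.6931471808 := Real.log_two_lt_d9
  have hl2p : 0 < Real.log 2 := Real.log_pos one_lt_two
  have hpi := Real.pi_lt_d4
  have hpi0 := Real.pi_pos
  obtain ⟨N0, hN0⟩ := h4 0.0001 (by norm_num)
  set N := max N0 100000 with hN
  have hN1 : N0 ≤ N := le_max_left _ _
  have hN2 : 100000 ≤ N := le_max_right _ _
  have hNr : (100000 : ℝ) ≤ N := by exact_mod_cast hN2
  have hNp : (0 : ℝ) < N := by linarith
  have hCN := hN0 N hN1
  obtain ⟨m1, m2, m3⟩ := h2 N (by omega)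
  refine ⟨N, fun j => 0.2811 * node N j,
    fun j => (0.07714 + 2 * 0.0123 * (1 - node N j ^ 2)) / N, ?_, ?_, ?_, ?_, ?_, ?_⟩
  · norm_num
  · norm_num
  · norm_num
  · intro j
    have hnl := plate_node_le N j
    apply div_pos _ hNp
    nlinarith
  · rw [← Finset.sum_range (fun j => (0.07714 + 2 * 0.0123 * (1 - node N j ^ 2)) / (N : ℝ))]
    have : ∀ j ∈ Finset.range N, (0.07714 + 2 * 0.0123 * (1 - node N j ^ 2)) / (N : ℝ) =
        (0.07714 + 2 * 0.0123) / N - 2 * 0.0123 / N * node N j ^ 2 := by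
      intro j _
      ring
    rw [Finset.sum_congr rfl this, Finset.sum_sub_distrib, ← Finset.mul_sum, m2,
      Finset.sum_const, Finset.card_range, nsmul_eq_mul]
    have e1 : (N : ℝ) * ((0.07714 + 2 * 0.0123) / N) - 2 * 0.0123 / N * (N / 2) = 0.08944 := by
      field_simp
      norm_num
    rw [e1, lt_div_iff₀ hpi0]
    linarith
  · intro x hx hxn
    rw [← Finset.sum_range (fun j => (0.07714 + 2 * 0.0123 * (1 - node N j ^ 2)) / (N : ℝ) *
      (Real.log (((x - 0.2811 * node N j) ^ 2 + 4) / (x - 0.2811 * node N j) ^ 2) / 2))]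
    have hsum := plate_sum h1 h2 h3 N (by omega) 0.07714 0.0123 0.2811 (by norm_num) (by norm_num)
      (by norm_num) (by norm_num) 0.0001 hCN x hx (by
        intro j hj
        exact hxn ⟨j, Finset.mem_range.1 hj⟩)
    refine lt_of_lt_of_le ?_ hsum
    -- the small terms
    have hsmall : (0.07714 + 2 * 0.0123) * Real.log 2 / N + 2 * 0.0123 * 0.0001 ≤ 0.00001 := by
      have : (0.07714 + 2 * 0.0123) * Real.log 2 / N ≤ 0.000001 := by
        rw [div_le_iff₀ hNp]
        nlinarith
      linarith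
    -- convexity
    set l := x ^ 2 / 0.2811 ^ 2 with hl
    have hx2 : x ^ 2 ≤ 0.2811 ^ 2 := by
      rw [sq_le_sq, abs_of_pos (show (0 : ℝ) < 0.2811 by norm_num)]
      exact hx
    have hl0 : 0 ≤ l := by positivity
    have hl1 : l ≤ 1 := by
      rw [hl, div_le_one (by norm_num)]
      exact hx2
    have hxl : x ^ 2 = l * 0.2811 ^ 2 := by
      rw [hl]
      field_simp
    have hcv := plate_conv (c := 2 * 0.281) (y0 := 1 - 0.281 ^ 2)
      (y1 := 1 + 0.2811 ^ 2 - 0.281 ^ 2) (l := l) (by norm_num) (by norm_num) (by norm_num) hl0 hl1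
    have e2 : (1 - l) * (1 - 0.281 ^ 2) + l * (1 + 0.2811 ^ 2 - 0.281 ^ 2) =
        1 + x ^ 2 - 0.281 ^ 2 := by
      rw [hxl]
      ring
    rw [e2] at hcv
    unfold S_NUM1 at h5
    unfold S_NUM2 at h6
    set a0 := Real.arctan (2 * 0.281 / (1 - 0.281 ^ 2)) with ha0
    set a1 := Real.arctan (2 * 0.281 / (1 + 0.2811 ^ 2 - 0.281 ^ 2)) with ha1
    set ax := Real.arctan (2 * 0.281 / (1 + x ^ 2 - 0.281 ^ 2)) with hax
    have h7 : ax / Real.pi ≤ (1 - l) * (a0 / Real.pi) + l * (a1 / Real.pi) := by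
      calc ax / Real.pi ≤ ((1 - l) * a0 + l * a1) / Real.pi := by gcongr
        _ = _ := by ring
    set L := Real.log (4 / 0.2811) with hL
    have h8 : (1 - l) * (0.06953 + a0 / Real.pi + 0.00002) ≤
        (1 - l) * (0.08944 * L + 0.0123 / 2 + 0.12 * (0.07714 * 0.2811 ^ 2 / 2)) :=
      mul_le_mul_of_nonneg_left h5.le (by linarith)
    have h9 : l * (0.06953 + a1 / Real.pi + 0.00002) ≤
        l * (0.08944 * L - 0.0123 / 2 +
      0.12 * (0.08944 * 0.2811 ^ 2 + 0.07714 * 0.2811 ^ 2 / 2)) :=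
      mul_le_mul_of_nonneg_left h6.le hl0
    have e3 : (0.07714 + 0.0123 : ℝ) = 0.08944 := by norm_num
    rw [e3, hxl]
    linarith

end MPf68f16

end

section

/-!
# POT0: the Green function of the disc is nonnegative (helper69)
-/

set_option autoImplicit false

open MeasureTheory Metric Set Filter Topology

namespace MPf68f16

theorem POT0_sq (z a : ℂ) : ‖1 - (starRingEnd ℂ) a * z‖ ^ 2 - ‖z - a‖ ^ 2 =
    (1 - ‖a‖ ^ 2) * (1 - ‖z‖ ^ 2) := by
  rw [Complex.sq_norm, Complex.sq_norm, Complex.sq_norm, Complex.sq_norm]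
  simp only [Complex.normSq_apply, Complex.sub_re, Complex.sub_im, Complex.mul_re, Complex.mul_im,
    Complex.conj_re, Complex.conj_im, Complex.one_re, Complex.one_im]
  ring

theorem POT0_le {z a : ℂ} (hz : ‖z‖ < 1) (ha : ‖a‖ < 1) :
    ‖z - a‖ ≤ ‖1 - (starRingEnd ℂ) a * z‖ := by
  have h := POT0_sq z a
  have h1 : 0 < 1 - ‖a‖ ^ 2 := by nlinarith [norm_nonneg a]
  have h2 : 0 < 1 - ‖z‖ ^ 2 := by nlinarith [norm_nonneg z]
  have h3 := mul_pos h1 h2
  exact (sq_le_sq₀ (norm_nonneg _) (norm_nonneg _)).1 (by linarith)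

theorem prf_POT0 : S_POT0 := by
  intro z a hz ha
  unfold gD
  by_cases h : z = a
  · rw [h, sub_self, norm_zero, div_zero, Real.log_zero]
  · have h1 : 0 < ‖z - a‖ := norm_pos_iff.2 (sub_ne_zero.2 h)
    exact Real.log_nonneg ((one_le_div h1).2 (POT0_le hz ha))

end MPf68f16

end

section

set_option autoImplicit false

open MeasureTheory Metric Set Filter Topology

namespace MPf68f16

theorem pot1_norm_pt {t : ℝ} (ht : 0 ≤ t) (θ : ℝ) : ‖pt t θ‖ = t := by
  unfold pt
  rw [norm_mul, Complex.norm_exp_ofReal_mul_I, mul_one, Complex.norm_real, Real.norm_of_nonneg ht]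

theorem pot1_num {a z : ℂ} {ρ : ℝ} (ha : ‖a‖ ≤ ρ) (hz : ‖z‖ < 1) (hρ : ρ < 1) :
    1 - ρ ≤ ‖1 - (starRingEnd ℂ) a * z‖ ∧ ‖1 - (starRingEnd ℂ) a * z‖ ≤ 2 := by
  have h0 : ‖(starRingEnd ℂ) a * z‖ ≤ ρ := by
    rw [norm_mul, RCLike.norm_conj]
    calc ‖a‖ * ‖z‖ ≤ ‖a‖ * 1 := mul_le_mul_of_nonneg_left hz.le (norm_nonneg _)
      _ ≤ ρ := by rw [mul_one]; exact ha
  constructor
  · have := norm_sub_norm_le (1 : ℂ) ((starRingEnd ℂ) a * z)
    rw [norm_one] at this
    linarith
  · have := norm_sub_le (1 : ℂ) ((starRingEnd ℂ) a * z)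
    rw [norm_one] at this
    linarith

theorem prf_POT1 : S_POT1 := by
  intro D r ρ hD hr hρ z0 hz0
  refine ContinuousAt.continuousWithinAt ?_
  unfold pot
  refine ContinuousAt.mul continuousAt_const ?_
  obtain ⟨s, hs, hsub⟩ := Metric.nhds_basis_closedBall.mem_iff.1 (hD.isOpen.mem_nhds hz0)
  have hfr : ∀ θ, pt (r θ) θ ∉ D := by
    intro θ h
    have h1 := hr.mem θ
    rw [hD.isOpen.frontier_eq] at h1
    exact h1.2 h
  have hfar : ∀ z ∈ ball z0 (s / 2), ∀ θ, s / 2 ≤ ‖z - pt (r θ) θ‖ := by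
    intro z hz θ
    have h1 : s < ‖pt (r θ) θ - z0‖ := by
      by_contra hcon
      rw [not_lt] at hcon
      exact hfr θ (hsub (mem_closedBall_iff_norm.2 hcon))
    rw [mem_ball_iff_norm] at hz
    have h2 : ‖pt (r θ) θ - z0‖ ≤ ‖z - pt (r θ) θ‖ + ‖z - z0‖ := by
      have e : pt (r θ) θ - z0 = -(z - pt (r θ) θ) + (z - z0) := by ring
      rw [e]
      refine (norm_add_le _ _).trans ?_
      rw [norm_neg]
    linarith
  have hfar0 : ∀ θ, s / 2 ≤ ‖z0 - pt (r θ) θ‖ := hfar z0 (mem_ball_self (by linarith))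
  have hmD : ∀ z ∈ ball z0 (s / 2), ‖z‖ < 1 := by
    intro z hz
    have h1 : z ∈ D := hsub (ball_subset_closedBall (ball_subset_ball (by linarith) hz))
    have h2 := hD.subset h1
    rwa [mem_ball_zero_iff] at h2
  have hptn : ∀ θ, ‖pt (r θ) θ‖ = r θ := fun θ => pot1_norm_pt (hr.pos θ).le θ
  have hptm : Measurable (fun θ : ℝ => pt (r θ) θ) := by
    unfold pt
    exact (Complex.measurable_ofReal.comp hr.meas).mul
      ((Complex.measurable_ofReal.mul_const _).cexp)
  refine continuousAt_of_dominated (bound := fun _ =>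
    |(|Real.log ((1 - ρ) / 2)| + |Real.log (4 / s)|) / Real.log (1 / ρ)|) ?_ ?_ ?_ ?_
  · refine Eventually.of_forall fun z => ?_
    refine Measurable.aestronglyMeasurable ?_
    refine Measurable.ite (measurableSet_le hr.meas measurable_const) ?_ measurable_const
    refine Measurable.div ?_ (Real.measurable_log.comp (measurable_const.div hr.meas))
    unfold gD
    refine Real.measurable_log.comp (Measurable.div ?_ ?_)
    · exact (measurable_const.sub ((Complex.continuous_conj.measurable.comp hptm).mul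
        measurable_const)).norm
    · exact (measurable_const.sub hptm).norm
  · filter_upwards [ball_mem_nhds z0 (half_pos hs)] with z hz
    refine Eventually.of_forall fun θ => ?_
    by_cases hθ : r θ ≤ ρ
    · rw [if_pos hθ]
      have hρ0 : 0 < ρ := (hr.pos θ).trans_le hθ
      obtain ⟨hn1, hn2⟩ := pot1_num ((hptn θ).le.trans hθ) (hmD z hz) hρ
      have hd1 := hfar z hz θ
      have hd2 : ‖z - pt (r θ) θ‖ ≤ 2 := by
        refine (norm_sub_le _ _).trans ?_
        rw [hptn θ]
        have := hmD z hz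
        linarith
      have hq1 : (1 - ρ) / 2 ≤ ‖1 - (starRingEnd ℂ) (pt (r θ) θ) * z‖ / ‖z - pt (r θ) θ‖ := by
        rw [div_le_div_iff₀ (by norm_num) (by linarith)]
        nlinarith
      have hq2 : ‖1 - (starRingEnd ℂ) (pt (r θ) θ) * z‖ / ‖z - pt (r θ) θ‖ ≤ 4 / s := by
        rw [div_le_div_iff₀ (by linarith) hs]
        nlinarith
      have hq0 : 0 < (1 - ρ) / 2 := by linarith
      have hlog1 := Real.log_le_log hq0 hq1
      have hlog2 := Real.log_le_log (hq0.trans_le hq1) hq2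
      have hnum : |gD z (pt (r θ) θ)| ≤ |Real.log ((1 - ρ) / 2)| + |Real.log (4 / s)| := by
        unfold gD
        rw [abs_le]
        have a1 := neg_abs_le (Real.log ((1 - ρ) / 2))
        have a2 := le_abs_self (Real.log (4 / s))
        have a3 := abs_nonneg (Real.log ((1 - ρ) / 2))
        have a4 := abs_nonneg (Real.log (4 / s))
        constructor <;> linarith
      have hl1 : 0 < Real.log (1 / ρ) := Real.log_pos (by rw [lt_div_iff₀ hρ0]; linarith)
      have hl2 : Real.log (1 / ρ) ≤ Real.log (1 / r θ) :=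
        Real.log_le_log (by positivity) (one_div_le_one_div_of_le (hr.pos θ) hθ)
      have hAB : 0 ≤ |Real.log ((1 - ρ) / 2)| + |Real.log (4 / s)| :=
        add_nonneg (abs_nonneg _) (abs_nonneg _)
      rw [norm_div, Real.norm_eq_abs, Real.norm_eq_abs, abs_div,
        abs_of_pos (hl1.trans_le hl2), abs_of_pos hl1, abs_of_nonneg hAB]
      exact div_le_div₀ hAB hnum hl1 hl2
    · rw [if_neg hθ, norm_zero]
      exact abs_nonneg _
  · exact integrable_const _
  · refine Eventually.of_forall fun θ => ?_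
    by_cases hθ : r θ ≤ ρ
    · simp only [if_pos hθ]
      refine ContinuousAt.div_const ?_ _
      unfold gD
      obtain ⟨hn1, -⟩ := pot1_num ((hptn θ).le.trans hθ)
        (hmD z0 (mem_ball_self (by linarith))) hρ
      have h1 : ‖1 - (starRingEnd ℂ) (pt (r θ) θ) * z0‖ ≠ 0 := by
        have : 0 < 1 - ρ := by linarith
        exact (this.trans_le hn1).ne'
      have h2 : ‖z0 - pt (r θ) θ‖ ≠ 0 := ((half_pos hs).trans_le (hfar0 θ)).ne'
      refine ContinuousAt.log (ContinuousAt.div ?_ ?_ h2) (div_ne_zero h1 h2)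
      · fun_prop
      · fun_prop
    · simp only [if_neg hθ]
      exact continuousAt_const

end MPf68f16

end

section

set_option autoImplicit false

open MeasureTheory Metric Set Filter Topology

namespace MPf68f16

/-- Mean value property of the Green function away from the pole. -/
theorem pot2_mean {z a : ℂ} {s : ℝ} (hs : 0 < s) (hsub : closedBall z s ⊆ ball (0 : ℂ) 1)
    (ha : ‖a‖ < 1) (han : a ∉ closedBall z s) :
    Real.circleAverage (fun z' => gD z' a) z s = gD z a := by
  have h1 : ∀ u ∈ closedBall z s, 1 - (starRingEnd ℂ) a * u ≠ 0 := by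
    intro u hu h
    have hu1 : ‖u‖ < 1 := by simpa using hsub hu
    have h2 : (starRingEnd ℂ) a * u = 1 := by linear_combination -h
    have h3 : ‖a‖ * ‖u‖ = 1 := by
      have := congrArg norm h2
      rwa [norm_mul, Complex.norm_conj, norm_one] at this
    nlinarith [norm_nonneg a, norm_nonneg u]
  have h2 : ∀ u ∈ closedBall z s, u - a ≠ 0 := by
    intro u hu h
    rw [sub_eq_zero] at h
    exact han (h ▸ hu)
  have key := AnalyticOnNhd.circleAverage_log_norm_of_ne_zero (R := s) (c := z)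
    (g := fun u => (1 - (starRingEnd ℂ) a * u) / (u - a)) ?_ ?_
  · simp only [norm_div] at key
    exact key
  · rw [abs_of_pos hs]
    intro u hu
    refine AnalyticAt.div ?_ ?_ (h2 u hu)
    · fun_prop
    · fun_prop
  · rw [abs_of_pos hs]
    intro u hu
    exact div_ne_zero (h1 u hu) (h2 u hu)

theorem pot2_norm_pt {t θ : ℝ} (ht : 0 ≤ t) : ‖pt t θ‖ = t := by
  unfold pt
  rw [norm_mul, Complex.norm_exp_ofReal_mul_I, mul_one, Complex.norm_real, Real.norm_eq_abs,
    abs_of_nonneg ht]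

/-- Bound of the Green function away from the pole. -/
theorem pot2_bound {z a : ℂ} {ρ δ : ℝ} (hρ : ρ < 1) (hδ : 0 < δ) (hz : ‖z‖ ≤ 1) (ha : ‖a‖ ≤ ρ)
    (hd : δ ≤ ‖z - a‖) : |gD z a| ≤ |Real.log ((1 - ρ) / 2)| + |Real.log (2 / δ)| := by
  have hρ0 : 0 ≤ ρ := (norm_nonneg a).trans ha
  have h1 : 1 - ρ ≤ ‖1 - (starRingEnd ℂ) a * z‖ := by
    have h2 := norm_sub_norm_le (1 : ℂ) ((starRingEnd ℂ) a * z)
    rw [norm_one, norm_mul, Complex.norm_conj] at h2
    nlinarith [norm_nonneg a, norm_nonneg z]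
  have h2 : ‖1 - (starRingEnd ℂ) a * z‖ ≤ 2 := by
    have h3 := norm_sub_le (1 : ℂ) ((starRingEnd ℂ) a * z)
    rw [norm_one, norm_mul, Complex.norm_conj] at h3
    nlinarith [norm_nonneg a, norm_nonneg z]
  have h3 : ‖z - a‖ ≤ 2 := by
    have := norm_sub_le z a
    linarith
  have hp : 0 < ‖z - a‖ := lt_of_lt_of_le hδ hd
  have l1 : (1 - ρ) / 2 ≤ ‖1 - (starRingEnd ℂ) a * z‖ / ‖z - a‖ :=
    div_le_div₀ (by linarith) h1 hp h3
  have l2 : ‖1 - (starRingEnd ℂ) a * z‖ / ‖z - a‖ ≤ 2 / δ :=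
    div_le_div₀ (by norm_num) h2 hδ hd
  have hpos : 0 < (1 - ρ) / 2 := by linarith
  have m1 := Real.log_le_log hpos l1
  have m2 := Real.log_le_log (by linarith) l2
  unfold gD
  rw [abs_le]
  constructor
  · have := neg_abs_le (Real.log ((1 - ρ) / 2))
    have := abs_nonneg (Real.log (2 / δ))
    linarith
  · have := le_abs_self (Real.log (2 / δ))
    have := abs_nonneg (Real.log ((1 - ρ) / 2))
    linarith

theorem prf_POT2 : S_POT2 := by
  intro D r ρ hD hr hρ z s hs hsub
  have hpi := Real.pi_pos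
  set k : ℂ → ℝ → ℝ := fun w θ => if r θ ≤ ρ then gD w (pt (r θ) θ) / Real.log (1 / r θ) else 0
    with hk
  have hpot : ∀ w, pot r ρ w = (2 * Real.pi)⁻¹ * ∫ θ in Ioc 0 (2 * Real.pi), k w θ := fun w => rfl
  -- distance
  obtain ⟨δ, hδ, hδs⟩ := (isCompact_closedBall z s).exists_thickening_subset_open hD.isOpen hsub
  have hdist : ∀ w ∈ closedBall z s, ∀ θ, δ ≤ ‖w - pt (r θ) θ‖ := by
    intro w hw θ
    by_contra h
    push Not at h
    have h1 : pt (r θ) θ ∈ thickening δ (closedBall z s) := by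
      rw [mem_thickening_iff]
      refine ⟨w, hw, ?_⟩
      rw [dist_comm, dist_eq_norm]
      exact h
    have h2 : pt (r θ) θ ∈ D := hδs h1
    have h3 := hr.mem θ
    rw [hD.isOpen.frontier_eq] at h3
    exact h3.2 h2
  have hball : closedBall z s ⊆ ball (0 : ℂ) 1 := hsub.trans hD.subset
  -- mean value of the kernel
  have hmean : ∀ θ, Real.circleAverage (fun w => k w θ) z s = k z θ := by
    intro θ
    by_cases h : r θ ≤ ρ
    · have e : (fun w => k w θ) = fun w => (Real.log (1 / r θ))⁻¹ • gD w (pt (r θ) θ) := by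
        funext w
        simp only [hk, if_pos h, smul_eq_mul]
        ring
      rw [e, Real.circleAverage_fun_smul]
      rw [pot2_mean hs hball]
      · simp only [hk, if_pos h, smul_eq_mul]
        ring
      · rw [pot2_norm_pt (hr.pos θ).le]
        exact hr.lt_one θ
      · intro hm
        have := hdist _ hm θ
        rw [sub_self, norm_zero] at this
        linarith
    · have e : (fun w => k w θ) = fun _ => (0 : ℝ) := by
        funext w
        simp only [hk, if_neg h]
      rw [e, Real.circleAverage_const]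
      simp only [hk, if_neg h]
  -- joint measurability
  have hmeas : Measurable (fun p : ℝ × ℝ => k (circleMap z s p.1) p.2) := by
    have hset : MeasurableSet {p : ℝ × ℝ | r p.2 ≤ ρ} :=
      measurableSet_le (hr.meas.comp measurable_snd) measurable_const
    refine Measurable.ite hset ?_ measurable_const
    have hr2 : Measurable (fun p : ℝ × ℝ => r p.2) := hr.meas.comp measurable_snd
    have hpt : Measurable (fun p : ℝ × ℝ => pt (r p.2) p.2) := by
      unfold pt
      refine Measurable.mul ?_ ?_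
      · exact Complex.measurable_ofReal.comp hr2
      · exact Complex.measurable_exp.comp
          ((Complex.measurable_ofReal.comp measurable_snd).mul_const _)
    have hcm : Measurable (fun p : ℝ × ℝ => circleMap z s p.1) :=
      (continuous_circleMap z s).measurable.comp measurable_fst
    have hconj : Measurable (fun p : ℝ × ℝ => (starRingEnd ℂ) (pt (r p.2) p.2)) :=
      Complex.continuous_conj.measurable.comp hpt
    unfold gD
    refine Measurable.div ?_ ?_
    · refine Real.measurable_log.comp ?_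
      exact ((measurable_const.sub (hconj.mul hcm)).norm).div ((hcm.sub hpt).norm)
    · exact Real.measurable_log.comp (measurable_const.div hr2)
  -- bound
  obtain ⟨C, hC⟩ : ∃ C : ℝ, ∀ p : ℝ × ℝ, ‖k (circleMap z s p.1) p.2‖ ≤ C := by
    refine ⟨(|Real.log ((1 - ρ) / 2)| + |Real.log (2 / δ)|) / |Real.log (1 / ρ)|, fun p => ?_⟩
    simp only [hk]
    split_ifs with h
    · have hr0 := hr.pos p.2
      have hρ0 : 0 < ρ := lt_of_lt_of_le hr0 h
      have hmem : circleMap z s p.1 ∈ closedBall z s := circleMap_mem_closedBall z hs.le p.1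
      have hb := pot2_bound (z := circleMap z s p.1) (a := pt (r p.2) p.2) hρ hδ
        (by have := hball hmem; rw [mem_ball_zero_iff] at this; exact this.le)
        (by rw [pot2_norm_pt hr0.le]; exact h) (hdist _ hmem p.2)
      have hl0 : 0 < Real.log (1 / ρ) := by
        refine Real.log_pos ?_
        rw [lt_div_iff₀ hρ0]
        linarith
      have hl : Real.log (1 / ρ) ≤ Real.log (1 / r p.2) :=
        Real.log_le_log (by positivity) (one_div_le_one_div_of_le hr0 h)
      rw [Real.norm_eq_abs, abs_div]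
      refine div_le_div₀ (by positivity) hb ?_ ?_
      · rw [abs_of_pos hl0]
        exact hl0
      · rw [abs_of_pos hl0, abs_of_pos (by linarith)]
        exact hl
    · rw [norm_zero]
      positivity
  have hint : Integrable (Function.uncurry fun t θ => k (circleMap z s t) θ)
      ((volume.restrict (Ioc 0 (2 * Real.pi))).prod (volume.restrict (Ioc 0 (2 * Real.pi)))) := by
    refine Integrable.of_bound hmeas.aestronglyMeasurable C (ae_of_all _ fun p => ?_)
    exact hC p
  rw [Real.circleAverage_def, intervalIntegral.integral_of_le (by positivity)]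
  simp only [hpot, smul_eq_mul]
  rw [integral_const_mul, integral_integral_swap hint]
  have h2 : ∀ θ, ∫ t in Ioc 0 (2 * Real.pi), k (circleMap z s t) θ = 2 * Real.pi * k z θ := by
    intro θ
    have h3 := hmean θ
    rw [Real.circleAverage_def, intervalIntegral.integral_of_le (by positivity), smul_eq_mul] at h3
    rw [← h3]
    field_simp
  simp only [h2]
  rw [integral_const_mul]
  field_simp

end MPf68f16

end

section

set_option autoImplicit false

open MeasureTheory Metric Set Filter Topology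

namespace MPf68f16

/-- `|1 - conj a z|² = |z - a|² + (1 - |a|²)(1 - |z|²)`. -/
theorem pot3_id (z a : ℂ) : ‖1 - (starRingEnd ℂ) a * z‖ ^ 2 =
    ‖z - a‖ ^ 2 + (1 - ‖a‖ ^ 2) * (1 - ‖z‖ ^ 2) := by
  rw [← Complex.normSq_eq_norm_sq, ← Complex.normSq_eq_norm_sq, ← Complex.normSq_eq_norm_sq,
    ← Complex.normSq_eq_norm_sq]
  simp only [Complex.normSq_apply, Complex.sub_re, Complex.sub_im, Complex.mul_re, Complex.mul_im,
    Complex.conj_re, Complex.conj_im, Complex.one_re, Complex.one_im]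
  ring

theorem pot3_gD {z a : ℂ} {ρ : ℝ} (ha : ‖a‖ ≤ ρ) (hz : ρ < ‖z‖) (hz1 : ‖z‖ < 1) :
    0 ≤ gD z a ∧ gD z a ≤ (1 - ‖z‖ ^ 2) / (2 * (‖z‖ - ρ) ^ 2) := by
  have hna : ‖a‖ < 1 := by linarith
  have hd : ‖z‖ - ρ ≤ ‖z - a‖ := by
    have := norm_sub_norm_le z a
    linarith
  have hd0 : 0 < ‖z‖ - ρ := by linarith
  have hp : 0 < ‖z - a‖ := by linarith
  have hA : 0 ≤ (1 - ‖a‖ ^ 2) := by nlinarith [norm_nonneg a]
  have hA1 : (1 - ‖a‖ ^ 2) ≤ 1 := by nlinarith [norm_nonneg a]
  have hZ : 0 ≤ (1 - ‖z‖ ^ 2) := by nlinarith [norm_nonneg z]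
  have hq : (‖1 - (starRingEnd ℂ) a * z‖ / ‖z - a‖) ^ 2 =
      1 + (1 - ‖a‖ ^ 2) * (1 - ‖z‖ ^ 2) / ‖z - a‖ ^ 2 := by
    rw [div_pow, pot3_id]
    field_simp
  set x := (1 - ‖a‖ ^ 2) * (1 - ‖z‖ ^ 2) / ‖z - a‖ ^ 2 with hx
  have hx0 : 0 ≤ x := by positivity
  have hg : gD z a = Real.log (1 + x) / 2 := by
    unfold gD
    rw [← hq, Real.log_pow]
    push_cast
    ring
  have hx1 : x ≤ (1 - ‖z‖ ^ 2) / (‖z‖ - ρ) ^ 2 := by
    rw [hx]
    refine div_le_div₀ hZ ?_ (by positivity) (pow_le_pow_left₀ hd0.le hd 2)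
    nlinarith
  rw [hg]
  refine ⟨div_nonneg (Real.log_nonneg (by linarith)) (by norm_num), ?_⟩
  have h1 : Real.log (1 + x) ≤ x := by
    have := Real.log_le_sub_one_of_pos (show 0 < 1 + x by linarith)
    linarith
  calc Real.log (1 + x) / 2 ≤ (1 - ‖z‖ ^ 2) / (‖z‖ - ρ) ^ 2 / 2 := by linarith
    _ = _ := by
      field_simp

theorem prf_POT3 : S_POT3 := by
  intro r hr hr0 hr1 ρ ε hρ hε
  have hpi := Real.pi_pos
  rcases le_or_gt ρ 0 with hρ0 | hρ0
  · refine ⟨0, zero_lt_one, fun z _ _ => ?_⟩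
    unfold pot
    have : ∀ θ, (if r θ ≤ ρ then gD z (pt (r θ) θ) / Real.log (1 / r θ) else 0) = 0 := by
      intro θ
      rw [if_neg]
      have := hr0 θ
      linarith
    simp only [this, integral_zero, mul_zero]
    exact hε.le
  set L : ℝ := Real.log (1 / ρ) with hL
  have hL0 : 0 < L := by
    refine Real.log_pos ?_
    rw [lt_div_iff₀ hρ0]
    linarith
  have hρ' : 0 < 1 - ρ := by linarith
  refine ⟨max ((1 + ρ) / 2) (1 - ε * (1 - ρ) ^ 2 * L / 4), ?_, ?_⟩
  · refine max_lt (by linarith) ?_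
    have : 0 < ε * (1 - ρ) ^ 2 * L / 4 := by positivity
    linarith
  intro z hz hz1
  have hz2 : (1 + ρ) / 2 < ‖z‖ := lt_of_le_of_lt (le_max_left _ _) hz
  have hz3 : 1 - ε * (1 - ρ) ^ 2 * L / 4 < ‖z‖ := lt_of_le_of_lt (le_max_right _ _) hz
  have hk : ∀ θ, ‖(if r θ ≤ ρ then gD z (pt (r θ) θ) / Real.log (1 / r θ) else 0 : ℝ)‖ ≤ ε := by
    intro θ
    split_ifs with h
    · have hn : ‖pt (r θ) θ‖ = r θ := by
        unfold pt
        rw [norm_mul, Complex.norm_exp_ofReal_mul_I, mul_one, Complex.norm_real,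
          Real.norm_eq_abs, abs_of_nonneg (hr0 θ).le]
      obtain ⟨g0, g1⟩ := pot3_gD (z := z) (a := pt (r θ) θ) (ρ := ρ) (by rw [hn]; exact h)
        (by linarith) hz1
      have hl : L ≤ Real.log (1 / r θ) := by
        refine Real.log_le_log (by positivity) ?_
        exact one_div_le_one_div_of_le (hr0 θ) h
      have hl0 : 0 < Real.log (1 / r θ) := by linarith
      rw [Real.norm_eq_abs, abs_of_nonneg (div_nonneg g0 hl0.le)]
      have h1 : (1 - ‖z‖ ^ 2) / (2 * (‖z‖ - ρ) ^ 2) ≤ ε * L := by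
        have hzr : (1 - ρ) / 2 ≤ ‖z‖ - ρ := by linarith
        have hzr2 : ((1 - ρ) / 2) ^ 2 ≤ (‖z‖ - ρ) ^ 2 :=
          pow_le_pow_left₀ (by positivity) hzr 2
        rw [div_le_iff₀ (by nlinarith)]
        have h2 : 1 - ‖z‖ ^ 2 ≤ 2 * (1 - ‖z‖) := by nlinarith [norm_nonneg z]
        have h3 : 1 - ‖z‖ ≤ ε * (1 - ρ) ^ 2 * L / 4 := by linarith
        have h4 : ε * L * (2 * ((1 - ρ) / 2) ^ 2) ≤ ε * L * (2 * (‖z‖ - ρ) ^ 2) := by
          refine mul_le_mul_of_nonneg_left ?_ (by positivity)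
          linarith
        nlinarith
      rw [div_le_iff₀ hl0]
      calc gD z (pt (r θ) θ) ≤ ε * L := g1.trans h1
        _ ≤ ε * Real.log (1 / r θ) := mul_le_mul_of_nonneg_left hl hε.le
    · rw [norm_zero]
      exact hε.le
  unfold pot
  have h5 := norm_setIntegral_le_of_norm_le_const (μ := volume) (s := Ioc 0 (2 * Real.pi))
    (f := fun θ => (if r θ ≤ ρ then gD z (pt (r θ) θ) / Real.log (1 / r θ) else 0 : ℝ))
    (C := ε) (by rw [Real.volume_Ioc]; exact ENNReal.ofReal_lt_top) (fun θ _ => hk θ)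
  have h6 : ∫ θ in Ioc 0 (2 * Real.pi),
      (if r θ ≤ ρ then gD z (pt (r θ) θ) / Real.log (1 / r θ) else 0 : ℝ) ≤ ε * (2 * Real.pi) := by
    refine (Real.le_norm_self _).trans (h5.trans (le_of_eq ?_))
    simp only [Measure.real, Real.volume_Ioc, sub_zero]
    rw [ENNReal.toReal_ofReal (by positivity)]
  calc (2 * Real.pi)⁻¹ * ∫ θ in Ioc 0 (2 * Real.pi),
      (if r θ ≤ ρ then gD z (pt (r θ) θ) / Real.log (1 / r θ) else 0 : ℝ)
      ≤ (2 * Real.pi)⁻¹ * (ε * (2 * Real.pi)) := mul_le_mul_of_nonneg_left h6 (by positivity)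
    _ = ε := by field_simp

end MPf68f16

end

section

set_option autoImplicit false

open MeasureTheory Metric Set Filter Topology

namespace MPf68f16

theorem pot4_norm_pt {t θ : ℝ} (ht : 0 ≤ t) : ‖pt t θ‖ = t := by
  unfold pt
  rw [norm_mul, Complex.norm_exp_ofReal_mul_I, mul_one, Complex.norm_real, Real.norm_eq_abs,
    abs_of_nonneg ht]

theorem pot4_log {t : ℝ} (h0 : 0 < t) (h1 : t < 1) : 0 < Real.log (1 / t) := by
  refine Real.log_pos ?_
  rw [lt_div_iff₀ h0]
  linarith

theorem prf_POT4 (h : S_PER) (h0 : S_POT0) : S_POT4 := by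
  intro H K hM hK r hr hr0 hr1 ρ z hz
  set k : ℝ → ℝ := fun θ => if r θ ≤ ρ then gD z (pt (r θ) θ) / Real.log (1 / r θ) else 0 with hk
  have hg : ∀ θ, 0 ≤ gD z (pt (r θ) θ) / Real.log (1 / r θ) := fun θ =>
    div_nonneg (h0 z _ hz (by rw [pot4_norm_pt (hr0 θ).le]; exact hr1 θ))
      (pot4_log (hr0 θ) (hr1 θ)).le
  have hk0 : ∀ θ, 0 ≤ k θ := by
    intro θ
    simp only [hk]
    split_ifs
    · exact hg θ
    · exact le_rfl
  have hpot : pot r ρ z = (2 * Real.pi)⁻¹ * ∫ θ in Ioc 0 (2 * Real.pi), k θ := rfl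
  have hpi := Real.pi_pos
  have hnn : 0 ≤ ∫ θ in Ioc 0 (2 * Real.pi), k θ := integral_nonneg fun θ => hk0 θ
  have hle : ∫ θ in Ioc 0 (2 * Real.pi), k θ ≤ 2 * Real.pi * K := by
    by_cases hi : IntegrableOn k (Ioc 0 (2 * Real.pi))
    · have h1 := ofReal_integral_eq_lintegral_ofReal hi (ae_of_all _ hk0)
      have h2 : ∫⁻ θ in Ioc 0 (2 * Real.pi), ENNReal.ofReal (k θ) ≤
          ENNReal.ofReal (2 * Real.pi * K) := by
        refine le_trans (lintegral_mono fun θ => ?_)
          (h H K hM hK z (by simpa using hz) r hr hr0 hr1)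
        refine ENNReal.ofReal_le_ofReal ?_
        simp only [hk]
        split_ifs
        · exact le_rfl
        · exact hg θ
      rw [← h1] at h2
      exact (ENNReal.ofReal_le_ofReal_iff (by positivity)).1 h2
    · have : ∫ θ in Ioc 0 (2 * Real.pi), k θ = 0 := integral_undef hi
      rw [this]
      positivity
  rw [hpot]
  refine ⟨by positivity, ?_⟩
  calc (2 * Real.pi)⁻¹ * ∫ θ in Ioc 0 (2 * Real.pi), k θ
      ≤ (2 * Real.pi)⁻¹ * (2 * Real.pi * K) := mul_le_mul_of_nonneg_left hle (by positivity)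
    _ = K := by field_simp

end MPf68f16

end

section

set_option autoImplicit false

open MeasureTheory Metric Set Filter Topology

namespace MPf68f16

theorem pot5_gD {t θ : ℝ} (h0 : 0 < t) (h1 : t < 1) :
    gD 0 (pt t θ) / Real.log (1 / t) = 1 := by
  have hn : ‖pt t θ‖ = t := by
    unfold pt
    rw [norm_mul, Complex.norm_exp_ofReal_mul_I, mul_one, Complex.norm_real, Real.norm_eq_abs,
      abs_of_nonneg h0.le]
  have hl : 0 < Real.log (1 / t) := by
    refine Real.log_pos ?_
    rw [lt_div_iff₀ h0]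
    linarith
  unfold gD
  rw [mul_zero, sub_zero, norm_one, zero_sub, norm_neg, hn]
  exact div_self hl.ne'

theorem prf_POT5 : S_POT5 := by
  intro r hr hr0 hr1 ε hε
  have hpi := Real.pi_pos
  let ρ : ℕ → ℝ := fun n => 1 - 1 / ((n : ℝ) + 1)
  have hρ : Tendsto ρ atTop (𝓝 (1 - 0)) :=
    tendsto_const_nhds.sub tendsto_one_div_add_atTop_nhds_zero_nat
  rw [sub_zero] at hρ
  have hk : ∀ ρ' θ, (if r θ ≤ ρ' then gD 0 (pt (r θ) θ) / Real.log (1 / r θ) else 0) =
      if r θ ≤ ρ' then (1 : ℝ) else 0 := by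
    intro ρ' θ
    rw [pot5_gD (hr0 θ) (hr1 θ)]
  have hlim : Tendsto (fun n => ∫ θ in Ioc 0 (2 * Real.pi), if r θ ≤ ρ n then (1 : ℝ) else 0)
      atTop (𝓝 (∫ θ in Ioc 0 (2 * Real.pi), (1 : ℝ))) := by
    refine tendsto_integral_of_dominated_convergence (fun _ => (1 : ℝ)) ?_ ?_ ?_ ?_
    · intro n
      refine (Measurable.ite ?_ measurable_const measurable_const).aestronglyMeasurable
      exact measurableSet_le hr measurable_const
    · exact integrable_const _
    · intro n
      refine ae_of_all _ fun θ => ?_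
      split_ifs <;> simp
    · refine ae_of_all _ fun θ => ?_
      refine tendsto_const_nhds.congr' ?_
      filter_upwards [hρ.eventually (lt_mem_nhds (hr1 θ))] with n hn
      rw [if_pos hn.le]
  have hlim2 : Tendsto (fun n => pot r (ρ n) 0) atTop (𝓝 1) := by
    have h1 := hlim.const_mul (2 * Real.pi)⁻¹
    have h2 : (2 * Real.pi)⁻¹ * ∫ θ in Ioc 0 (2 * Real.pi), (1 : ℝ) = 1 := by
      rw [setIntegral_const]
      simp only [Measure.real, Real.volume_Ioc, sub_zero, smul_eq_mul, mul_one]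
      rw [ENNReal.toReal_ofReal (by positivity)]
      field_simp
    rw [h2] at h1
    refine h1.congr fun n => ?_
    unfold pot
    congr 1
    refine integral_congr_ae (ae_of_all _ fun θ => ?_)
    exact (hk (ρ n) θ).symm
  obtain ⟨n, hn⟩ := (hlim2.eventually (lt_mem_nhds (show 1 - ε < 1 by linarith))).exists
  refine ⟨ρ n, ?_, hn⟩
  show 1 - 1 / ((n : ℝ) + 1) < 1
  have : (0 : ℝ) < 1 / ((n : ℝ) + 1) := by positivity
  linarith

end MPf68f16

end

section

set_option autoImplicit false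

open MeasureTheory Metric Set Filter Topology

namespace MPf68f16

theorem q1_cross (A : ℝ) (z : ℂ) :
    (Complex.I * (1 - z) - A * (1 + z)).im * (Complex.I * (1 - z) + A * (1 + z)).re -
    (Complex.I * (1 - z) - A * (1 + z)).re * (Complex.I * (1 - z) + A * (1 + z)).im =
    2 * A * (1 - ‖z‖ ^ 2) := by
  rw [← Complex.normSq_eq_norm_sq, Complex.normSq_apply]
  simp only [Complex.sub_re, Complex.sub_im, Complex.add_re, Complex.add_im, Complex.mul_re,
    Complex.mul_im, Complex.I_re, Complex.I_im, Complex.one_re, Complex.one_im, Complex.ofReal_re,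
    Complex.ofReal_im]
  ring

theorem q1_pos {A : ℝ} (hA : 0 < A) {z : ℂ} (hz : z ∈ ball (0 : ℂ) 1) :
    0 < 2 * A * (1 - ‖z‖ ^ 2) := by
  have h1 : ‖z‖ < 1 := by simpa using hz
  have : 0 < 1 - ‖z‖ ^ 2 := by nlinarith [norm_nonneg z]
  positivity

theorem q1_ne {A : ℝ} (hA : 0 < A) {z : ℂ} (hz : z ∈ ball (0 : ℂ) 1) :
    Complex.I * (1 - z) + A * (1 + z) ≠ 0 := by
  intro h
  have h1 := q1_cross A z
  have h2 := q1_pos hA hz
  rw [h] at h1
  simp only [Complex.zero_re, Complex.zero_im, mul_zero, sub_zero] at h1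
  linarith

theorem q1_im (A : ℝ) (z : ℂ) :
    (qA A z).im = 2 * A * (1 - ‖z‖ ^ 2) / Complex.normSq (Complex.I * (1 - z) + A * (1 + z)) := by
  unfold qA
  rw [Complex.div_im, ← q1_cross, sub_div]

theorem q1_im_pos {A : ℝ} (hA : 0 < A) {z : ℂ} (hz : z ∈ ball (0 : ℂ) 1) : 0 < (qA A z).im := by
  rw [q1_im]
  exact div_pos (q1_pos hA hz) (Complex.normSq_pos.2 (q1_ne hA hz))

theorem q1_hA (A : ℝ) (z : ℂ) : hA A z = Complex.arg (qA A z) / Real.pi := by
  unfold hA FA
  rw [Complex.mul_re, Complex.log_im]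
  have h1 : (-(Complex.I / (Real.pi : ℂ))).re = 0 := by
    rw [Complex.neg_re, Complex.div_ofReal_re, Complex.I_re, zero_div, neg_zero]
  have h2 : (-(Complex.I / (Real.pi : ℂ))).im = -(1 / Real.pi) := by
    rw [Complex.neg_im, Complex.div_ofReal_im, Complex.I_im]
  rw [h1, h2]
  ring

theorem q1_arg_pos {w : ℂ} (hw : 0 < w.im) : 0 < w.arg ∧ w.arg < Real.pi := by
  constructor
  · rcases (Complex.arg_nonneg_iff.2 hw.le).eq_or_lt with h | h
    · exfalso
      have := (Complex.arg_eq_zero_iff.1 h.symm).2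
      linarith
    · exact h
  · exact Complex.arg_lt_pi_iff.2 (Or.inr hw.ne')

theorem q1_zero {A : ℝ} (hA0 : 0 < A) : Complex.arg (qA A 0) = 2 * Real.arctan A := by
  have hs : 0 < 1 + A ^ 2 := by positivity
  have ha0 : 0 < Real.arctan A := Real.arctan_pos.2 hA0
  have ha1 : Real.arctan A < Real.pi / 2 := Real.arctan_lt_pi_div_two A
  have hc : Real.cos (2 * Real.arctan A) = (1 - A ^ 2) / (1 + A ^ 2) := by
    rw [Real.cos_two_mul, Real.cos_sq_arctan]
    field_simp
    ring
  have hsn : Real.sin (2 * Real.arctan A) = 2 * A / (1 + A ^ 2) := by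
    rw [Real.sin_two_mul]
    have h1 : Real.sin (Real.arctan A) = A * Real.cos (Real.arctan A) := by
      have := Real.tan_arctan A
      rw [Real.tan_eq_sin_div_cos, div_eq_iff (Real.cos_arctan_pos A).ne'] at this
      exact this
    rw [h1]
    have h2 := Real.cos_sq_arctan A
    calc 2 * (A * Real.cos (Real.arctan A)) * Real.cos (Real.arctan A)
        = 2 * A * Real.cos (Real.arctan A) ^ 2 := by ring
      _ = _ := by
        rw [h2]
        field_simp
  have hq : qA A 0 = Complex.cos ((2 * Real.arctan A : ℝ) : ℂ) +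
      Complex.sin ((2 * Real.arctan A : ℝ) : ℂ) * Complex.I := by
    rw [← Complex.ofReal_cos, ← Complex.ofReal_sin, hc, hsn]
    unfold qA
    have hd : Complex.I * (1 - 0) + (A : ℂ) * (1 + 0) ≠ 0 := q1_ne hA0 (by simp)
    rw [div_eq_iff hd]
    have hs' : (1 + (A : ℂ) ^ 2) ≠ 0 := by exact_mod_cast hs.ne'
    push_cast
    field_simp
    have hI : Complex.I ^ 2 = -1 := Complex.I_sq
    ring_nf
    simp only [hI]
    ring
  rw [hq]
  exact Complex.arg_cos_add_sin_mul_I ⟨by linarith [Real.pi_pos], by linarith⟩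

theorem prf_Q1 : S_Q1 := by
  intro A hA0
  refine ⟨fun z hz => ⟨q1_ne hA0 hz, q1_im_pos hA0 hz⟩, ?_, ?_, ?_⟩
  · intro z hz
    have hq : DifferentiableAt ℂ (qA A) z := by
      unfold qA
      refine DifferentiableAt.div ?_ ?_ (q1_ne hA0 hz)
      · fun_prop
      · fun_prop
    have hs : qA A z ∈ Complex.slitPlane := Or.inr (q1_im_pos hA0 hz).ne'
    exact ((hq.clog hs).const_mul _).differentiableWithinAt
  · intro z hz
    obtain ⟨h1, h2⟩ := q1_arg_pos (q1_im_pos hA0 hz)
    rw [q1_hA]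
    have := Real.pi_pos
    exact ⟨by positivity, by rw [div_lt_one this]; exact h2⟩
  · rw [q1_hA, q1_zero hA0]

end MPf68f16

end

section

/-! Assembly of the lower bound. -/

set_option autoImplicit false

open MeasureTheory Metric Set Filter Topology

namespace MPf68f16

theorem lower_of (hG : S_GLUE) (hC : S_CLUSTER) (hP : S_PLATE) (hD : S_DOM) : S_LOWER := by
  obtain ⟨m, t, c, hp⟩ := hP
  obtain ⟨A, d, P, hA, hd, hN, hP0, hcov, h0⟩ := hC 0.06953 0.281 0.2811 (Fin m) t c (by norm_num) hp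
  obtain ⟨u, hu, hu0⟩ := hG A d 0.06953 P hA hd (by norm_num) hN hP0 hcov h0 0.065 (by norm_num)
  obtain ⟨D, hDa, hDo⟩ := hD u hu (by linarith)
  exact ⟨D, hDa, by linarith⟩

end MPf68f16

end
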