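import Pool.Agent.Work.MP_f68f16_an.Stmts

/-! Bundle of small proof modules (one section per former module). -/

section

/-! Items C1, C2. -/

set_option autoImplicit false

open MeasureTheory Metric Set Filter Topology

namespace MPf68f16

/-- `M(z) = i (1 - z) / (1 + z)`. -/
noncomputable def MM (z : ℂ) : ℂ := Complex.I * (1 - z) / (1 + z)

theorem one_add_ne {z : ℂ} (hz : ‖z‖ < 1) : 1 + z ≠ 0 := by
  intro h
  have h1 : z = -1 := by linear_combination h
  rw [h1, norm_neg, norm_one] at hz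
  exact lt_irrefl _ hz

theorem MM_im {z : ℂ} (hz : ‖z‖ < 1) : 0 < (MM z).im := by
  have h1 : (1 + z) ≠ 0 := one_add_ne hz
  have h2 : 0 < Complex.normSq (1 + z) := Complex.normSq_pos.2 h1
  have h3 : (MM z).im = (1 - Complex.normSq z) / Complex.normSq (1 + z) := by
    unfold MM
    rw [Complex.div_im]
    simp only [Complex.mul_im, Complex.mul_re, Complex.I_re, Complex.I_im, Complex.sub_re,
      Complex.sub_im, Complex.one_re, Complex.one_im, Complex.add_re, Complex.add_im,
      Complex.normSq_apply]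
    field_simp
    ring
  rw [h3]
  apply div_pos _ h2
  rw [Complex.normSq_eq_norm_sq]
  nlinarith [norm_nonneg z]

theorem prf_C1 : S_C1 := by
  intro ε t hε hε1
  have hnum : ∀ z : ℂ, ‖z‖ < 1 → Complex.I * (1 - z) - ε * (t + Complex.I) * (1 + z) =
      (1 + z) * (MM z - ε * (t + Complex.I)) := by
    intro z hz
    have h1 := one_add_ne hz
    unfold MM
    field_simp
  have hden : ∀ z : ℂ, ‖z‖ < 1 → Complex.I * (1 - z) - ε * (t - Complex.I) * (1 + z) =
      (1 + z) * (MM z - ε * (t - Complex.I)) := by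
    intro z hz
    have h1 := one_add_ne hz
    unfold MM
    field_simp
  have hpos : ∀ z : ℂ, ‖z‖ < 1 → ‖MM z - ε * (t + Complex.I)‖ < ‖MM z - ε * (t - Complex.I)‖ := by
    intro z hz
    have h1 := MM_im hz
    rw [← sq_lt_sq₀ (norm_nonneg _) (norm_nonneg _), ← Complex.normSq_eq_norm_sq,
      ← Complex.normSq_eq_norm_sq, Complex.normSq_apply, Complex.normSq_apply]
    simp only [Complex.sub_re, Complex.mul_re, Complex.ofReal_re, Complex.add_re, Complex.I_re,
      Complex.ofReal_im, Complex.add_im, Complex.I_im, Complex.sub_im, Complex.mul_im]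
    nlinarith [mul_pos hε h1]
  have hne : ∀ z : ℂ, ‖z‖ < 1 → MM z - ε * (t - Complex.I) ≠ 0 := by
    intro z hz h
    have h1 := hpos z hz
    rw [h, norm_zero] at h1
    exact absurd h1 (not_lt.2 (norm_nonneg _))
  refine ⟨?_, ?_, ?_⟩
  · unfold bl
    refine DifferentiableOn.div (by fun_prop) (by fun_prop) ?_
    intro z hz
    have hz' : ‖z‖ < 1 := by simpa using hz
    rw [hden z hz']
    exact mul_ne_zero (one_add_ne hz') (hne z hz')
  · intro z hz
    have hz' : ‖z‖ < 1 := by simpa using hz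
    unfold bl
    rw [hnum z hz', hden z hz', mul_div_mul_left _ _ (one_add_ne hz'), norm_div,
      div_lt_one (norm_pos_iff.2 (hne z hz'))]
    exact hpos z hz'
  · have e : bl ε t 0 = (Complex.I - ε * (t + Complex.I)) / (Complex.I - ε * (t - Complex.I)) := by
      unfold bl
      simp
    have hd : 0 < ‖Complex.I - ε * (t - Complex.I)‖ := by
      rw [norm_pos_iff]
      intro h
      have := congrArg Complex.im h
      simp at this
      linarith
    rw [e, norm_div, div_le_div_iff₀ (by linarith) hd,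
      ← sq_le_sq₀ (mul_nonneg (by linarith) hd.le) (mul_nonneg (norm_nonneg _) (by linarith)),
      mul_pow, mul_pow, ← Complex.normSq_eq_norm_sq, ← Complex.normSq_eq_norm_sq,
      Complex.normSq_apply, Complex.normSq_apply]
    simp only [Complex.sub_re, Complex.mul_re, Complex.ofReal_re, Complex.add_re, Complex.I_re,
      Complex.ofReal_im, Complex.add_im, Complex.I_im, Complex.sub_im, Complex.mul_im]
    nlinarith [mul_nonneg hε.le (sq_nonneg (ε * t)), sq_nonneg (ε * t)]

theorem prf_C2 : S_C2 := by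
  intro a ε x hε ha
  set w : ℂ := ε * (x + Complex.I) with hw
  set z : ℂ := pt (Real.exp (-(2 * ε))) (2 * ε * x) with hz
  have hzw : z = Complex.exp (2 * Complex.I * w) := by
    rw [hz, hw]
    unfold pt
    rw [Complex.ofReal_exp, ← Complex.exp_add]
    congr 1
    push_cast
    ring_nf
    rw [Complex.I_sq]
    ring
  have hz1 : ‖z‖ < 1 := by
    rw [hz]
    unfold pt
    rw [norm_mul, Complex.norm_exp_ofReal_mul_I, mul_one, Complex.norm_real,
      Real.norm_of_nonneg (Real.exp_pos _).le, Real.exp_lt_one_iff]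
    linarith
  have h1 : 1 + z ≠ 0 := one_add_ne hz1
  have hε' : (ε : ℂ) ≠ 0 := by exact_mod_cast hε.ne'
  have htan : Complex.tan w = Complex.I * (1 - z) / (1 + z) := by
    have he : z = Complex.exp (w * Complex.I) * Complex.exp (w * Complex.I) := by
      rw [hzw, ← Complex.exp_add]; congr 1; ring
    have hi : Complex.exp (-w * Complex.I) = (Complex.exp (w * Complex.I))⁻¹ := by
      rw [← Complex.exp_neg]; congr 1; ring
    have hE : Complex.exp (w * Complex.I) ≠ 0 := Complex.exp_ne_zero _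
    rw [Complex.tan_eq_sin_div_cos, Complex.sin, Complex.cos, hi]
    set E := Complex.exp (w * Complex.I) with hEdef
    rw [he] at h1 ⊢
    have h2 : E + E⁻¹ ≠ 0 := by
      intro h
      apply h1
      have : E * (E + E⁻¹) = 0 := by rw [h, mul_zero]
      rw [mul_add, mul_inv_cancel₀ hE] at this
      linear_combination this
    rw [div_div_div_cancel_right₀ (by norm_num : (2 : ℂ) ≠ 0), div_eq_div_iff h2 h1]
    field_simp
    ring
  have hN : ∀ c : ℂ, (Complex.I * (1 - z) - ε * c * (1 + z)) =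
      ((1 + z) * ε) * (Complex.tan w / ε - c) := by
    intro c
    rw [htan]
    field_simp
  refine ⟨?_, ?_⟩
  · intro t
    unfold bl
    rw [hN, hN, mul_div_mul_left _ _ (mul_ne_zero h1 hε')]
  · unfold qA
    have e1 : Complex.I * (1 - z) - ((a * ε : ℝ) : ℂ) * (1 + z) =
        ((1 + z) * ε) * (Complex.tan w / ε - a) := by
      rw [← hN]; push_cast; ring
    have e2 : Complex.I * (1 - z) + ((a * ε : ℝ) : ℂ) * (1 + z) =
        ((1 + z) * ε) * (Complex.tan w / ε + a) := by
      have := hN (-(a : ℂ))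
      rw [sub_neg_eq_add] at this
      rw [← this]; push_cast; ring
    rw [e1, e2, mul_div_mul_left _ _ (mul_ne_zero h1 hε')]

end MPf68f16

end

section

set_option autoImplicit false

open MeasureTheory Metric Set Filter Topology

namespace MPf68f16

theorem prf_C3 : S_C3 := by
  intro Λ ρ b hΛ hρ
  set Φ : ℝ → ℝ → ℂ := fun ε x =>
    ((x : ℂ) + Complex.I) * dslope Complex.tan 0 ((ε : ℂ) * ((x : ℂ) + Complex.I)) with hΦ
  have htan : HasDerivAt Complex.tan 1 0 := by
    have h := Complex.hasDerivAt_tan (x := 0) (by simp)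
    simpa using h
  have hT : ContinuousAt (dslope Complex.tan 0) 0 :=
    continuousAt_dslope_same.2 htan.differentiableAt
  have hT0 : dslope Complex.tan 0 0 = 1 := by
    rw [dslope_same, htan.deriv]
  -- the values
  have hval : ∀ ε x : ℝ, 0 < ε → Φ ε x = Complex.tan (ε * (x + Complex.I)) / ε := by
    intro ε x hε
    have hxI : ((x : ℂ) + Complex.I) ≠ 0 := by
      intro h
      have := congrArg Complex.im h
      simp at this
    have hε' : (ε : ℂ) ≠ 0 := by exact_mod_cast hε.ne'
    have hw : (ε : ℂ) * ((x : ℂ) + Complex.I) ≠ 0 := mul_ne_zero hε' hxI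
    simp only [hΦ]
    rw [dslope_of_ne _ hw, slope_def_field, Complex.tan_zero, sub_zero, sub_zero]
    field_simp
  have hK : IsCompact (Icc (-b) b) := isCompact_Icc
  have hmain : ∀ᶠ ε : ℝ in 𝓝 0, ∀ x ∈ Icc (-b) b, ρ < Λ (Φ ε x) := by
    refine hK.eventually_forall_of_forall_eventually fun y hy => ?_
    have hcont : ContinuousAt (fun z : ℝ × ℝ => Φ z.1 z.2) (0, y) := by
      have h1 : ContinuousAt (fun z : ℝ × ℝ => (z.1 : ℂ) * ((z.2 : ℂ) + Complex.I)) (0, y) := by
        fun_prop
      have h2 : ContinuousAt (fun z : ℝ × ℝ =>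
          dslope Complex.tan 0 ((z.1 : ℂ) * ((z.2 : ℂ) + Complex.I))) (0, y) := by
        refine ContinuousAt.comp (g := dslope Complex.tan 0)
          (f := fun z : ℝ × ℝ => (z.1 : ℂ) * ((z.2 : ℂ) + Complex.I)) ?_ h1
        simpa using hT
      have h3 : ContinuousAt (fun z : ℝ × ℝ => (z.2 : ℂ) + Complex.I) (0, y) := by
        fun_prop
      exact h3.mul h2
    have h0 : Φ 0 y = (y : ℂ) + Complex.I := by
      simp only [hΦ]
      rw [Complex.ofReal_zero, zero_mul, hT0, mul_one]
    have hΛc : ContinuousAt Λ (Φ 0 y) := by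
      rw [h0]
      refine hΛ.continuousAt (IsOpen.mem_nhds ?_ ?_)
      · exact isOpen_lt continuous_const Complex.continuous_im
      · simp
    have h4 : ContinuousAt (fun z : ℝ × ℝ => Λ (Φ z.1 z.2)) (0, y) :=
      ContinuousAt.comp (g := Λ) (f := fun z : ℝ × ℝ => Φ z.1 z.2) hΛc hcont
    refine h4.eventually_const_lt ?_
    simp only [h0]
    exact hρ y (abs_le.2 hy)
  filter_upwards [hmain.filter_mono nhdsWithin_le_nhds, self_mem_nhdsWithin] with ε h1 hε x hx
  rw [← hval ε x hε]
  exact h1 x (abs_le.1 hx)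

end MPf68f16

end

section

/-! MP_f68f16_an, item CHEB (helper17): product of the distances to the Chebyshev nodes. -/

set_option autoImplicit false

namespace MPf68f16

open Polynomial Polynomial.Chebyshev in
theorem cheb_eval (N : ℕ) (x : ℝ) :
    (T ℝ N).eval x = 2 ^ (N - 1) * ∏ j ∈ Finset.range N, (x - node N j) := by
  have hinj : Set.InjOn (fun k : ℕ => Real.cos ((2 * k + 1) * Real.pi / (2 * N)))
      (Finset.range N) := (Finset.range N).nodup_map_iff_injOn.mp (roots_T_real_nodup N)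
  have hr := roots_T_real N
  have hcard : Multiset.card (T ℝ (N : ℤ)).roots = (T ℝ (N : ℤ)).natDegree := by
    rw [hr, natDegree_T]
    show Finset.card _ = _
    rw [Finset.card_image_of_injOn hinj, Finset.card_range, Int.natAbs_natCast]
  have h := C_leadingCoeff_mul_prod_multiset_X_sub_C hcard
  rw [leadingCoeff_T, Int.natAbs_natCast, hr] at h
  have h2 : (Multiset.map (fun a : ℝ => (X : ℝ[X]) - C a)
      ((Finset.range N).image (fun k : ℕ => Real.cos ((2 * k + 1) * Real.pi / (2 * N)))).val).prod =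
      ∏ j ∈ Finset.range N, (X - C (node N j)) := by
    show ∏ a ∈ (Finset.range N).image (fun k : ℕ => Real.cos ((2 * k + 1) * Real.pi / (2 * N))),
      ((X : ℝ[X]) - C a) = _
    rw [Finset.prod_image hinj]
    rfl
  rw [h2] at h
  rw [← h]
  simp [eval_prod]

theorem prf_CHEB : S_CHEB := by
  intro N hN x hx
  have h1 := Polynomial.Chebyshev.abs_eval_T_real_le_one (N : ℤ) hx
  rw [cheb_eval, abs_mul, Finset.abs_prod, abs_of_nonneg (by positivity : (0 : ℝ) ≤ 2 ^ (N - 1))]
    at h1
  have h2 : (2 : ℝ) ^ N = 2 * 2 ^ (N - 1) := by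
    rw [← pow_succ']
    congr 1
    omega
  rw [h2, le_div_iff₀ (by positivity)]
  linarith

end MPf68f16

end

section

set_option autoImplicit false

open MeasureTheory Metric Set Filter Topology

namespace MPf68f16

theorem prf_CI : S_CI := by
  intro D u hu hnn z r hr hsub
  have hmem : ∀ θ : ℝ, circleMap z r θ ∈ D := fun θ =>
    hsub (sphere_subset_closedBall (circleMap_mem_sphere z hr.le θ))
  have husc : UpperSemicontinuous (fun θ : ℝ => u (circleMap z r θ)) := by
    intro θ y hy
    have h1 := hu (circleMap z r θ) (hmem θ) y hy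
    have h2 : Tendsto (circleMap z r) (𝓝 θ) (𝓝[D] (circleMap z r θ)) :=
      tendsto_nhdsWithin_iff.2 ⟨(continuous_circleMap z r).continuousAt,
        Eventually.of_forall fun θ' => hmem θ'⟩
    exact h2.eventually h1
  obtain ⟨M, hM⟩ := UpperSemicontinuousOn.bddAbove_of_isCompact (f := u) (isCompact_sphere z r)
    (hu.mono (sphere_subset_closedBall.trans hsub))
  have hMb : ∀ θ : ℝ, u (circleMap z r θ) ≤ M := fun θ =>
    hM ⟨_, circleMap_mem_sphere z hr.le θ, rfl⟩
  unfold CircleIntegrable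
  rw [intervalIntegrable_iff]
  refine Measure.integrableOn_of_bounded (M := M) ?_ husc.measurable.aestronglyMeasurable ?_
  · rw [uIoc_of_le (by positivity)]
    exact measure_Ioc_lt_top.ne
  · filter_upwards with θ
    rw [Real.norm_of_nonneg (hnn _ (hmem θ))]
    exact hMb θ

end MPf68f16

end

section

set_option autoImplicit false

open MeasureTheory Metric Set Filter Topology

namespace MPf68f16

namespace ICL

/-- The potential in the half plane. -/
noncomputable def Lam (ι : Type) [Fintype ι] (t c : ι → ℝ) (a τ : ℝ) (w : ℂ) : ℝ :=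
  ∑ j, c j * (-Real.log (max (‖w - (t j + Complex.I)‖ / ‖w - (t j - Complex.I)‖) τ)) -
    ((w - a) / (w + a)).arg / Real.pi

theorem im_quot (a : ℝ) (w : ℂ) :
    ((w - a) / (w + a)).im = 2 * a * w.im / Complex.normSq (w + a) := by
  rw [Complex.div_im]
  simp only [Complex.sub_im, Complex.add_im, Complex.sub_re, Complex.add_re, Complex.ofReal_im,
    Complex.ofReal_re, sub_zero, add_zero]
  ring

theorem re_quot (a : ℝ) (w : ℂ) :
    ((w - a) / (w + a)).re = (w.re ^ 2 + w.im ^ 2 - a ^ 2) / Complex.normSq (w + a) := by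
  rw [Complex.div_re]
  simp only [Complex.sub_im, Complex.add_im, Complex.sub_re, Complex.add_re, Complex.ofReal_im,
    Complex.ofReal_re, sub_zero, add_zero]
  ring

theorem Lam_cont (ι : Type) [Fintype ι] (t c : ι → ℝ) (a τ : ℝ) (ha : 0 < a) (hτ : 0 < τ) :
    ContinuousOn (Lam ι t c a τ) {w : ℂ | 0 < w.im} := by
  intro w hw
  have hw' : 0 < w.im := hw
  apply ContinuousAt.continuousWithinAt
  unfold Lam
  apply ContinuousAt.sub
  · refine tendsto_finsetSum _ fun j _ => ?_
    refine ContinuousAt.mul continuousAt_const (ContinuousAt.neg (ContinuousAt.log ?_ ?_))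
    · refine Filter.Tendsto.max (ContinuousAt.div ?_ ?_ ?_) continuousAt_const
      · exact (continuousAt_id.sub continuousAt_const).norm
      · exact (continuousAt_id.sub continuousAt_const).norm
      · rw [norm_ne_zero_iff]
        intro h
        have := congrArg Complex.im h
        simp at this
        linarith
    · exact (lt_of_lt_of_le hτ (le_max_right _ _)).ne'
  · refine ContinuousAt.div_const ?_ _
    have hne : w + (a : ℂ) ≠ 0 := by
      intro h
      have := congrArg Complex.im h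
      simp at this
      linarith
    have h1 : ((w - a) / (w + a)) ∈ Complex.slitPlane := by
      rw [Complex.mem_slitPlane_iff]
      right
      rw [im_quot]
      have : 0 < Complex.normSq (w + a) := Complex.normSq_pos.2 hne
      positivity
    have h2 : ContinuousAt (fun w : ℂ => (w - a) / (w + a)) w :=
      (continuousAt_id.sub continuousAt_const).div (continuousAt_id.add continuousAt_const) hne
    exact ContinuousAt.comp (f := fun w : ℂ => (w - a) / (w + a)) (g := Complex.arg)
      (Complex.continuousAt_arg h1) h2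

theorem arg_line (a x : ℝ) (ha : 0 < a) (ha1 : a < 1) :
    ((((x : ℂ) + Complex.I) - a) / (((x : ℂ) + Complex.I) + a)).arg =
      Real.arctan (2 * a / (1 + x ^ 2 - a ^ 2)) := by
  set z : ℂ := (((x : ℂ) + Complex.I) - a) / (((x : ℂ) + Complex.I) + a) with hz
  have hne : (x : ℂ) + Complex.I + (a : ℂ) ≠ 0 := by
    intro h
    have := congrArg Complex.im h
    simp at this
  have hn : 0 < Complex.normSq ((x : ℂ) + Complex.I + a) := Complex.normSq_pos.2 hne
  have hre : z.re = (1 + x ^ 2 - a ^ 2) / Complex.normSq ((x : ℂ) + Complex.I + a) := by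
    rw [hz, re_quot]
    simp only [Complex.add_re, Complex.add_im, Complex.ofReal_re, Complex.ofReal_im,
      Complex.I_re, Complex.I_im]
    ring
  have him : z.im = 2 * a / Complex.normSq ((x : ℂ) + Complex.I + a) := by
    rw [hz, im_quot]
    simp only [Complex.add_im, Complex.ofReal_im, Complex.I_im]
    ring
  have hpos : 0 < 1 + x ^ 2 - a ^ 2 := by nlinarith [sq_nonneg x]
  have hre0 : 0 < z.re := by rw [hre]; positivity
  have h1 : |z.arg| < Real.pi / 2 := Complex.abs_arg_lt_pi_div_two_iff.2 (Or.inl hre0)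
  have h2 : Real.tan z.arg = 2 * a / (1 + x ^ 2 - a ^ 2) := by
    rw [Complex.tan_arg, hre, him]
    field_simp
  rw [← h2, Real.arctan_tan (abs_lt.1 h1).1 (abs_lt.1 h1).2]

theorem norm_line1 (x t : ℝ) : ‖((x : ℂ) + Complex.I) - (t + Complex.I)‖ = |x - t| := by
  have : ((x : ℂ) + Complex.I) - (t + Complex.I) = ((x - t : ℝ) : ℂ) := by
    push_cast; ring
  rw [this, Complex.norm_real, Real.norm_eq_abs]

theorem norm_line2 (x t : ℝ) : ‖((x : ℂ) + Complex.I) - (t - Complex.I)‖ =
    Real.sqrt ((x - t) ^ 2 + 4) := by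
  have : ((x : ℂ) + Complex.I) - (t - Complex.I) = ((x - t : ℝ) : ℂ) + (2 : ℝ) * Complex.I := by
    push_cast; ring
  rw [this, Complex.norm_add_mul_I]
  norm_num

theorem ratio_le_one (x t : ℝ) :
    ‖((x : ℂ) + Complex.I) - (t + Complex.I)‖ / ‖((x : ℂ) + Complex.I) - (t - Complex.I)‖ ≤ 1 := by
  rw [norm_line1, norm_line2]
  have h : 0 < Real.sqrt ((x - t) ^ 2 + 4) := Real.sqrt_pos.2 (by positivity)
  rw [div_le_one h]
  apply Real.abs_le_sqrt
  linarith

theorem Lam_line (ι : Type) [Fintype ι] (t c : ι → ℝ) (ρ a b τ : ℝ) (hρ : 0 < ρ) (hτ : 0 < τ)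
    (hτ1 : τ < 1) (hP : Plate ρ a b ι t c) (hM : ∀ j, ρ + 1 ≤ c j * (-Real.log τ)) (x : ℝ)
    (hx : |x| ≤ b) : ρ < Lam ι t c a τ (x + Complex.I) := by
  classical
  unfold Lam
  rw [arg_line a x hP.apos hP.alt]
  set q : ι → ℝ := fun j => ‖((x : ℂ) + Complex.I) - (t j + Complex.I)‖ /
    ‖((x : ℂ) + Complex.I) - (t j - Complex.I)‖ with hq
  have hq1 : ∀ j, q j ≤ 1 := fun j => ratio_le_one x (t j)
  have hnn : ∀ j, 0 ≤ c j * (-Real.log (max (q j) τ)) := by
    intro j
    refine mul_nonneg (hP.cpos j).le ?_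
    have h1 : max (q j) τ ≤ 1 := max_le (hq1 j) hτ1.le
    have h2 : 0 < max (q j) τ := lt_of_lt_of_le hτ (le_max_right _ _)
    linarith [Real.log_nonpos h2.le h1]
  show ρ < ∑ j, c j * (-Real.log (max (q j) τ)) - _
  by_cases hcase : ∃ j, q j < τ
  · obtain ⟨j, hj⟩ := hcase
    have h1 : c j * (-Real.log (max (q j) τ)) ≤ ∑ j, c j * (-Real.log (max (q j) τ)) :=
      Finset.single_le_sum (fun i _ => hnn i) (Finset.mem_univ j)
    rw [max_eq_right hj.le] at h1
    have h2 := hM j
    have h3 : Real.arctan (2 * a / (1 + x ^ 2 - a ^ 2)) / Real.pi < 1 := by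
      rw [div_lt_one Real.pi_pos]
      have := Real.arctan_lt_pi_div_two (2 * a / (1 + x ^ 2 - a ^ 2))
      linarith [Real.pi_pos]
    linarith
  · push Not at hcase
    have hne : ∀ j, x ≠ t j := by
      intro j h
      have h1 := hcase j
      rw [hq] at h1
      simp only [h, sub_self, norm_zero, zero_div] at h1
      linarith
    have hterm : ∀ j, c j * (-Real.log (max (q j) τ)) =
        c j * (Real.log (((x - t j) ^ 2 + 4) / (x - t j) ^ 2) / 2) := by
      intro j
      rw [max_eq_left (hcase j)]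
      congr 1
      rw [hq]
      simp only [norm_line1, norm_line2]
      have h0 : x - t j ≠ 0 := sub_ne_zero.2 (hne j)
      have h1 : 0 < |x - t j| := abs_pos.2 h0
      have h2 : 0 < (x - t j) ^ 2 := by positivity
      have h3 : 0 < (x - t j) ^ 2 + 4 := by positivity
      rw [Real.log_div h1.ne' (Real.sqrt_pos.2 h3).ne', Real.log_sqrt h3.le,
        Real.log_div h3.ne' h2.ne', Real.log_abs, Real.log_pow]
      push_cast
      ring
    rw [Finset.sum_congr rfl fun j _ => hterm j]
    have := hP.cover x hx hne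
    linarith

/-- sums of nice functions -/
theorem nice_sum (nl : S_NLOG) (na : S_NADD) {ι : Type} (s : Finset ι) (c : ι → ℝ)
    (u : ι → ℂ → ℝ) (hc : ∀ j, 0 ≤ c j) (hu : ∀ j, Nice (u j)) :
    Nice (fun z => ∑ j ∈ s, c j * u j z) := by
  classical
  induction s using Finset.induction_on with
  | empty =>
    have h := nl (fun _ => 0) 1 (differentiableOn_const _) one_pos
    simpa using h
  | insert i s hi ih =>
    have h := na _ _ (hu i) ih (c i) 1 (hc i) zero_le_one
    simp only [Finset.sum_insert hi]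
    simpa using h

theorem small (S a : ℝ) (hS : S < a / Real.pi) :
    ∀ᶠ ε : ℝ in 𝓝[>] 0, S * Real.log ((1 + ε) / (1 - ε)) <
      2 * Real.arctan (a * ε) / Real.pi := by
  set φ : ℝ → ℝ := fun ε => 2 * Real.arctan (a * ε) / Real.pi -
    S * (Real.log (1 + ε) - Real.log (1 - ε)) with hφ
  have h1 : HasDerivAt φ (2 * (1 / (1 + (a * 0) ^ 2) * (a * 1)) / Real.pi -
      S * (1 / (1 + 0) - (-1) / (1 - 0))) 0 := by
    have e1 : HasDerivAt (fun ε : ℝ => a * ε) (a * 1) 0 := (hasDerivAt_id (0 : ℝ)).const_mul a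
    have e2 : HasDerivAt (fun ε : ℝ => Real.arctan (a * ε)) (1 / (1 + (a * 0) ^ 2) * (a * 1)) 0 :=
      e1.arctan
    have e3 : HasDerivAt (fun ε : ℝ => Real.log (1 + ε)) (1 / (1 + 0)) 0 :=
      ((hasDerivAt_id (0 : ℝ)).const_add 1).log (by norm_num)
    have e4 : HasDerivAt (fun ε : ℝ => Real.log (1 - ε)) ((-1) / (1 - 0)) 0 :=
      ((hasDerivAt_id (0 : ℝ)).const_sub 1).log (by norm_num)
    exact ((e2.const_mul 2).div_const _).sub ((e3.sub e4).const_mul S)
  have hd : 0 < 2 * (1 / (1 + (a * 0) ^ 2) * (a * 1)) / Real.pi -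
      S * (1 / (1 + 0) - (-1) / (1 - 0)) := by
    have : a / Real.pi * 2 = 2 * (1 / (1 + (a * 0) ^ 2) * (a * 1)) / Real.pi := by
      norm_num
      ring
    rw [← this]
    norm_num
    linarith
  have h0 : φ 0 = 0 := by simp [hφ]
  have h2 := h1.tendsto_slope.eventually (lt_mem_nhds hd)
  have h3 : ∀ᶠ ε : ℝ in 𝓝[>] 0, 0 < slope φ 0 ε :=
    h2.filter_mono (nhdsWithin_mono (0 : ℝ) fun (x : ℝ) (hx : 0 < x) => ne_of_gt hx)
  have h4 : ∀ᶠ ε : ℝ in 𝓝[>] 0, ε < 1 :=
    nhdsWithin_le_nhds (Iio_mem_nhds one_pos)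
  filter_upwards [h3, h4, self_mem_nhdsWithin] with ε h5 h6 h7
  have h7' : 0 < ε := h7
  rw [slope_def_field, h0, sub_zero, sub_zero] at h5
  have h8 : 0 < φ ε := by
    have := mul_pos h5 h7'
    rwa [div_mul_cancel₀ _ h7'.ne'] at this
  rw [Real.log_div (by linarith) (by linarith)]
  rw [hφ] at h8
  simp only at h8
  linarith

theorem cA_eq (A : ℝ) : cA A = Real.cos (2 * Real.arctan A) := by
  rw [Real.cos_two_mul, Real.cos_sq_arctan, cA]
  have : 1 + A ^ 2 ≠ 0 := by positivity
  field_simp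
  ring

theorem hA_eq (A : ℝ) (z : ℂ) : hA A z = (qA A z).arg / Real.pi := by
  unfold hA FA
  have h : -(Complex.I / (Real.pi : ℂ)) * Complex.log (qA A z) =
      ((Real.pi⁻¹ : ℝ) : ℂ) * (-(Complex.I * Complex.log (qA A z))) := by
    push_cast
    ring
  rw [h, Complex.re_ofReal_mul, Complex.neg_re, Complex.mul_re, Complex.I_re, Complex.I_im,
    Complex.log_im]
  ring

theorem theta_red (κ θ : ℝ) (hκ : 0 ≤ κ) (hκ1 : κ < Real.pi) (h : Real.cos κ ≤ Real.cos θ) :
    ∃ (θ' : ℝ) (k : ℤ), θ = θ' + 2 * Real.pi * k ∧ |θ'| ≤ κ := by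
  have hp : 0 < 2 * Real.pi := Real.two_pi_pos
  set θ' := toIocMod hp (-Real.pi) θ with hθ'
  have h1 := toIocMod_mem_Ioc hp (-Real.pi) θ
  rw [← hθ'] at h1
  have h2 : θ' - θ = -toIocDiv hp (-Real.pi) θ • (2 * Real.pi) := by
    rw [hθ', toIocMod_sub_self]
  refine ⟨θ', toIocDiv hp (-Real.pi) θ, ?_, ?_⟩
  · have h3 : -toIocDiv hp (-Real.pi) θ • (2 * Real.pi) =
        -((toIocDiv hp (-Real.pi) θ : ℤ) : ℝ) * (2 * Real.pi) := by
      rw [zsmul_eq_mul]
      push_cast
      ring
    rw [h3] at h2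
    linarith
  · have hc : Real.cos θ = Real.cos θ' := by
      have h3 : θ = θ' + (toIocDiv hp (-Real.pi) θ : ℤ) * (2 * Real.pi) := by
        have h3 : -toIocDiv hp (-Real.pi) θ • (2 * Real.pi) =
          -((toIocDiv hp (-Real.pi) θ : ℤ) : ℝ) * (2 * Real.pi) := by
          rw [zsmul_eq_mul]
          push_cast
          ring
        rw [h3] at h2
        linarith
      rw [h3, Real.cos_add_int_mul_two_pi]
    by_contra hcon
    push Not at hcon
    have hle : |θ'| ≤ Real.pi := by
      rw [abs_le]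
      exact ⟨h1.1.le, by linarith [h1.2]⟩
    have := Real.cos_lt_cos_of_nonneg_of_le_pi hκ hle hcon
    rw [Real.cos_abs, ← hc] at this
    linarith

theorem pt_add (t θ : ℝ) (k : ℤ) : pt t (θ + 2 * Real.pi * k) = pt t θ := by
  unfold pt
  congr 1
  rw [Complex.exp_eq_exp_iff_exists_int]
  refine ⟨k, ?_⟩
  push_cast
  ring

end ICL

open ICL in
theorem prf_CLUSTER (nl : S_NLOG) (na : S_NADD) (q1 : S_Q1) (c1 : S_C1) (c2 : S_C2)
    (c3 : S_C3) : S_CLUSTER := by
  classical
  intro ρ a b ι _ t c hρ hP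
  have ha := hP.apos
  have hb : 0 < b := ha.trans hP.ab
  -- the truncation level
  obtain ⟨τ, hτ0, hτ1, hM⟩ : ∃ τ : ℝ, 0 < τ ∧ τ < 1 ∧ ∀ j, ρ + 1 ≤ c j * (-Real.log τ) := by
    refine ⟨Real.exp (-(1 + ∑ j, (ρ + 1) / c j)), Real.exp_pos _, ?_, ?_⟩
    · rw [Real.exp_lt_one_iff]
      have : 0 ≤ ∑ j, (ρ + 1) / c j :=
        Finset.sum_nonneg fun j _ => div_nonneg (by linarith) (hP.cpos j).le
      linarith
    · intro j
      rw [Real.log_exp, neg_neg]
      have h1 : (ρ + 1) / c j ≤ ∑ j, (ρ + 1) / c j :=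
        Finset.single_le_sum (f := fun j => (ρ + 1) / c j)
          (fun j _ => div_nonneg (by linarith) (hP.cpos j).le) (Finset.mem_univ j)
      have h2 : (ρ + 1) / c j ≤ 1 + ∑ j, (ρ + 1) / c j := by linarith
      rw [div_le_iff₀ (hP.cpos j)] at h2
      linarith
  have hev1 := c3 (Lam ι t c a τ) ρ b (Lam_cont ι t c a τ ha hτ0)
    (fun x hx => Lam_line ι t c ρ a b τ hρ hτ0 hτ1 hP hM x hx)
  have hev2 := small (∑ j, c j) a hP.mass
  have hev3 : ∀ᶠ ε : ℝ in 𝓝[>] 0, ε < 1 := nhdsWithin_le_nhds (Iio_mem_nhds one_pos)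
  have hev4 : ∀ᶠ ε : ℝ in 𝓝[>] 0, ε < Real.pi / (2 * b) :=
    nhdsWithin_le_nhds (Iio_mem_nhds (by positivity))
  obtain ⟨ε, h1, h2, h3, h4, h5⟩ :=
    (hev1.and (hev2.and (hev3.and (hev4.and self_mem_nhdsWithin)))).exists
  have hε : 0 < ε := h5
  have hAε : 0 < a * ε := mul_pos ha hε
  have hbl : ∀ j, ∀ z ∈ ball (0 : ℂ) 1, ‖bl ε (t j) z‖ < 1 := fun j => (c1 ε (t j) hε h3).2.1
  have hkap : 2 * ε * b < Real.pi := by
    rw [lt_div_iff₀ (by positivity)] at h4
    linarith
  have hkap0 : 0 ≤ 2 * ε * b := by positivity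
  have hd : 0 < cA (a * ε) - Real.cos (2 * ε * b) := by
    rw [cA_eq, sub_pos]
    apply Real.cos_lt_cos_of_nonneg_of_le_pi
    · have := Real.arctan_pos.2 hAε
      linarith
    · exact hkap.le
    · have e1 : 0 < Real.arctan (a * ε) := Real.arctan_pos.2 hAε
      have e2 : Real.arctan (a * ε) < a * ε := by
        have := Real.lt_tan e1 (Real.arctan_lt_pi_div_two _)
        rwa [Real.tan_arctan] at this
      have e3 : a * ε < b * ε := mul_lt_mul_of_pos_right hP.ab hε
      linarith
  refine ⟨a * ε, cA (a * ε) - Real.cos (2 * ε * b), PA ι t c ε τ, hAε, hd, ?_, ?_, ?_, ?_⟩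
  · -- nice
    have h := nice_sum nl na Finset.univ c (fun j z => Real.log (max ‖bl ε (t j) z‖ τ))
      (fun j => (hP.cpos j).le) (fun j => nl _ τ (c1 ε (t j) hε h3).1 hτ0)
    have e : (fun z => -PA ι t c ε τ z) =
        fun z => ∑ j, c j * Real.log (max ‖bl ε (t j) z‖ τ) := by
      funext z
      rw [PA, neg_neg]
    rw [e]
    exact h
  · intro z hz
    rw [PA, neg_nonneg]
    refine Finset.sum_nonpos fun j _ => ?_
    refine mul_nonpos_of_nonneg_of_nonpos (hP.cpos j).le ?_
    exact Real.log_nonpos (hτ0.le.trans (le_max_right _ _)) (max_le (hbl j z hz).le hτ1.le)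
  · intro θ hθ
    rw [sub_sub_cancel] at hθ
    obtain ⟨θ', k, hk, hθ'⟩ := theta_red (2 * ε * b) θ hkap0 hkap hθ
    refine ⟨Real.exp (-(2 * ε)), Real.exp_pos _, ?_, ?_⟩
    · rw [Real.exp_lt_one_iff]
      linarith
    rw [hk, pt_add]
    set x := θ' / (2 * ε) with hx
    have hx1 : θ' = 2 * ε * x := by
      rw [hx]
      field_simp
    have hxb : |x| ≤ b := by
      rw [hx, abs_div, abs_of_pos (by positivity : (0 : ℝ) < 2 * ε), div_le_iff₀ (by positivity)]
      linarith
    have h6 := h1 x hxb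
    obtain ⟨g1, g2⟩ := c2 a ε x hε ha
    rw [hx1, hA_eq, g2, PA]
    simp only [g1]
    unfold Lam at h6
    simp only [norm_div] at h6 ⊢
    have e : -∑ j, c j * Real.log (max (‖Complex.tan (ε * (x + Complex.I)) / ε -
        (t j + Complex.I)‖ / ‖Complex.tan (ε * (x + Complex.I)) / ε - (t j - Complex.I)‖) τ) =
        ∑ j, c j * (-Real.log (max (‖Complex.tan (ε * (x + Complex.I)) / ε -
        (t j + Complex.I)‖ / ‖Complex.tan (ε * (x + Complex.I)) / ε - (t j - Complex.I)‖) τ)) := by
      rw [← Finset.sum_neg_distrib]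
      exact Finset.sum_congr rfl fun j _ => by ring
    rw [e]
    exact h6
  · -- mass
    rw [(q1 (a * ε) hAε).2.2.2]
    refine lt_of_le_of_lt ?_ h2
    rw [PA, ← Finset.sum_neg_distrib, Finset.sum_mul]
    refine Finset.sum_le_sum fun j _ => ?_
    rw [← mul_neg]
    refine mul_le_mul_of_nonneg_left ?_ (hP.cpos j).le
    have e1 : 0 < (1 - ε) / (1 + ε) := div_pos (by linarith) (by linarith)
    have e2 : (1 - ε) / (1 + ε) ≤ max ‖bl ε (t j) 0‖ τ :=
      ((c1 ε (t j) hε h3).2.2).trans (le_max_left _ _)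
    have e3 := Real.log_le_log e1 e2
    have e4 : Real.log ((1 + ε) / (1 - ε)) = -Real.log ((1 - ε) / (1 + ε)) := by
      rw [← Real.log_inv, inv_div]
    rw [e4]
    linarith

end MPf68f16

end

section

set_option autoImplicit false

open MeasureTheory intervalIntegral Set

namespace MPf68f16

/-- `cos² log |cos|`. -/
noncomputable def cF (x : ℝ) : ℝ := Real.cos x * (Real.cos x * Real.log (Real.cos x))

lemma cF_continuous : Continuous cF := by
  unfold cF
  exact Real.continuous_cos.mul (Real.continuous_mul_log.comp Real.continuous_cos)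

lemma integral_log_cos_zero_pi : ∫ x in (0:ℝ)..Real.pi, Real.log (Real.cos x)
    = -Real.log 2 * Real.pi := by
  have h1 : ∫ x in (0:ℝ)..Real.pi, Real.log (Real.cos x)
      = ∫ x in (0:ℝ)..Real.pi, Real.log (Real.sin (x + Real.pi/2)) := by
    refine integral_congr fun x _ => ?_
    simp only [Real.sin_add_pi_div_two]
  rw [h1, integral_comp_add_right (fun x => Real.log (Real.sin x)) (Real.pi/2)]
  have hp : Function.Periodic (fun x => Real.log (Real.sin x)) Real.pi := by
    intro x
    simp only [Real.sin_add_pi, Real.log_neg_eq_log]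
  have h2 := hp.intervalIntegral_add_eq (Real.pi/2) 0
  have e1 : 0 + Real.pi/2 = Real.pi/2 := by ring
  have e2 : Real.pi + Real.pi/2 = Real.pi/2 + Real.pi := by ring
  rw [e1, e2, h2]
  simpa using integral_log_sin_zero_pi

lemma integral_cF : ∫ x in (0:ℝ)..Real.pi, cF x = Real.pi * (1/4 - Real.log 2/2) := by
  have hlog : IntervalIntegrable (fun x => Real.log (Real.cos x)) volume 0 Real.pi :=
    intervalIntegrable_log_cos
  have hcF : IntervalIntegrable cF volume 0 Real.pi := cF_continuous.intervalIntegrable _ _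
  have key : ∫ x in (0:ℝ)..Real.pi, (cF x - Real.log (Real.cos x) / 2) = Real.pi/4 := by
    have h := integral_eq_of_hasDerivAt_off_countable_of_le
      (fun x => Real.sin x * (Real.cos x * Real.log (Real.cos x)) / 2 + x/4
        - Real.sin x * Real.cos x / 4)
      (fun x => cF x - Real.log (Real.cos x) / 2) Real.pi_pos.le
      (s := {Real.pi/2}) (countable_singleton _) ?_ ?_ ?_
    · rw [h]
      simp
    · apply Continuous.continuousOn
      have hc : Continuous (fun x => Real.cos x * Real.log (Real.cos x)) :=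
        Real.continuous_mul_log.comp Real.continuous_cos
      fun_prop
    · intro x hx
      have hx0 : Real.cos x ≠ 0 := by
        intro h0
        apply hx.2
        rw [mem_singleton_iff]
        rcases lt_trichotomy x (Real.pi/2) with h | h | h
        · exact absurd h0 (Real.cos_pos_of_mem_Ioo ⟨by linarith [hx.1.1, Real.pi_pos], h⟩).ne'
        · exact h
        · exact absurd h0 (Real.cos_neg_of_pi_div_two_lt_of_lt h
            (by linarith [hx.1.2, Real.pi_pos])).ne
      have hc := Real.hasDerivAt_cos x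
      have hs := Real.hasDerivAt_sin x
      have hl := hc.log hx0
      have hd := (((hs.mul (hc.mul hl)).div_const 2).add ((hasDerivAt_id' x).div_const 4)).sub
        ((hs.mul hc).div_const 4)
      refine hd.congr_deriv ?_
      simp only [cF, Pi.mul_apply]
      have e := Real.sin_sq_add_cos_sq x
      field_simp
      have e' : Real.sin x ^ 2 = 1 - Real.cos x ^ 2 := by linarith
      ring_nf
      rw [e']
      ring
    · exact hcF.sub (hlog.div_const 2)
  rw [intervalIntegral.integral_sub hcF (hlog.div_const 2), intervalIntegral.integral_div,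
    integral_log_cos_zero_pi] at key
  linarith

theorem prf_CN : S_CN := by
  intro ε hε
  -- uniform continuity
  have huc : UniformContinuousOn cF (Icc 0 Real.pi) :=
    isCompact_Icc.uniformContinuousOn_of_continuous cF_continuous.continuousOn
  rw [Metric.uniformContinuousOn_iff_le] at huc
  obtain ⟨δ, hδ, hu⟩ := huc ε hε
  obtain ⟨N0, hN0⟩ := exists_nat_gt (Real.pi / δ)
  refine ⟨N0 + 1, fun N hN => ?_⟩
  have hNpos : (0:ℝ) < N := by exact_mod_cast (by omega : 0 < N)
  have hN0' : (N0 : ℝ) ≤ N := by exact_mod_cast (by omega : N0 ≤ N)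
  have hπ := Real.pi_pos
  have hcell : Real.pi / N ≤ δ := by
    rw [div_le_iff₀ hNpos]
    rw [div_lt_iff₀ hδ] at hN0
    nlinarith
  set a : ℕ → ℝ := fun k => k * (Real.pi / N) with ha
  have hsum := sum_integral_adjacent_intervals (f := cF) (μ := volume) (a := a) (n := N)
    (fun k _ => cF_continuous.intervalIntegrable _ _)
  have ha0 : a 0 = 0 := by simp [ha]
  have haN : a N = Real.pi := by
    simp only [ha]
    field_simp
  rw [ha0, haN, integral_cF] at hsum
  have hstep : ∀ k ∈ Finset.range N, ∫ x in (a k)..(a (k+1)), cF x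
      ≤ (Real.pi/N) * (node N k ^ 2 * Real.log |node N k| + ε) := by
    intro k hk
    have hkN : (k:ℝ) + 1 ≤ N := by exact_mod_cast Finset.mem_range.mp hk
    have hk0 : (0:ℝ) ≤ k := Nat.cast_nonneg k
    have hcp : 0 < Real.pi / N := by positivity
    have hle : a k ≤ a (k+1) := by
      simp only [ha]; push_cast; nlinarith
    have hlen : a (k+1) - a k = Real.pi/N := by
      simp only [ha]; push_cast; ring
    set m : ℝ := (2 * k + 1) * Real.pi / (2 * N) with hm
    have hmk : m = a k + (Real.pi/N)/2 := by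
      simp only [ha, hm]; field_simp
    have hcFm : cF m = node N k ^ 2 * Real.log |node N k| := by
      unfold node cF
      rw [← hm, Real.log_abs]
      ring
    have hak0 : 0 ≤ a k := by simp only [ha]; positivity
    have hak1 : a (k+1) ≤ Real.pi := by
      have : a (k+1) = ((k:ℝ)+1) * (Real.pi/N) := by simp only [ha]; push_cast; ring
      rw [this]
      calc ((k:ℝ)+1) * (Real.pi/N) ≤ N * (Real.pi/N) :=
            mul_le_mul_of_nonneg_right hkN hcp.le
        _ = Real.pi := by field_simp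
    have hb : ∀ x ∈ Icc (a k) (a (k+1)), cF x ≤ cF m + ε := by
      intro x hx
      have h := hu x ⟨by linarith [hx.1], by linarith [hx.2]⟩ m
        ⟨by rw [hmk]; linarith, by rw [hmk]; linarith⟩ ?_
      · rw [Real.dist_eq] at h
        have := (abs_le.mp h).2
        linarith
      · rw [Real.dist_eq, abs_le, hmk]
        constructor <;> linarith [hx.1, hx.2]
    have h1 := intervalIntegral.integral_mono_on (μ := volume) hle
      (cF_continuous.intervalIntegrable _ _)
      (intervalIntegrable_const (c := cF m + ε)) hb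
    rw [intervalIntegral.integral_const, hlen, smul_eq_mul] at h1
    rw [← hcFm]
    exact h1
  have htot := Finset.sum_le_sum hstep
  rw [hsum, ← Finset.mul_sum, Finset.sum_add_distrib, Finset.sum_const, Finset.card_range,
    nsmul_eq_mul] at htot
  have h2 : Real.pi * (N * (1/4 - Real.log 2/2)) ≤ Real.pi *
      (∑ j ∈ Finset.range N, node N j ^ 2 * Real.log |node N j| + N * ε) := by
    have e : Real.pi * (N * (1/4 - Real.log 2/2)) = N * (Real.pi * (1/4 - Real.log 2/2)) := by
      ring
    rw [e]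
    calc N * (Real.pi * (1/4 - Real.log 2/2)) ≤ N * (Real.pi / N *
          (∑ j ∈ Finset.range N, node N j ^ 2 * Real.log |node N j| + N * ε)) :=
          mul_le_mul_of_nonneg_left htot hNpos.le
      _ = _ := by field_simp
  have h3 := le_of_mul_le_mul_left h2 hπ
  linarith

end MPf68f16

end

section

/-! Item CPT. -/

set_option autoImplicit false

open MeasureTheory Metric Set Filter Topology

namespace MPf68f16

theorem norm_pt {t θ : ℝ} (ht : 0 ≤ t) : ‖pt t θ‖ = t := by
  unfold pt
  rw [norm_mul, Complex.norm_exp_ofReal_mul_I, mul_one, Complex.norm_real, Real.norm_of_nonneg ht]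

theorem pt_periodic (t θ : ℝ) (k : ℤ) : pt t (θ + 2 * Real.pi * k) = pt t θ := by
  unfold pt
  congr 1
  have : ((θ + 2 * Real.pi * k : ℝ) : ℂ) * Complex.I =
      θ * Complex.I + k * (2 * Real.pi * Complex.I) := by
    push_cast
    ring
  rw [this]
  exact Complex.exp_periodic.int_mul k _

theorem prf_CPT : S_CPT := by
  intro g ρ κ hg h
  set Z : Set ℝ := Icc (-Real.pi) Real.pi ∩ {θ | κ ≤ Real.cos θ} with hZdef
  have hZ : IsCompact Z :=
    isCompact_Icc.inter_right (isClosed_le continuous_const Real.continuous_cos)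
  have hloc : ∀ θ : ℝ, ∃ t ρ' : ℝ, 0 < t ∧ t < 1 ∧ ρ < ρ' ∧
      (θ ∈ Z → ∀ᶠ θ' in 𝓝 θ, ρ' ≤ g (pt t θ')) := by
    intro θ
    by_cases hθ : θ ∈ Z
    · obtain ⟨t, h0, h1, h2⟩ := h θ hθ.2
      obtain ⟨ρ', h3, h4⟩ := exists_between h2
      refine ⟨t, ρ', h0, h1, h3, fun _ => ?_⟩
      have hmem : pt t θ ∈ ball (0 : ℂ) 1 := by
        rw [mem_ball_zero_iff, norm_pt h0.le]; exact h1
      have hc : ContinuousAt g (pt t θ) := hg.continuousAt (isOpen_ball.mem_nhds hmem)
      have hp : Continuous (fun θ' : ℝ => pt t θ') := by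
        unfold pt
        fun_prop
      have hc' : ContinuousAt (fun θ' : ℝ => g (pt t θ')) θ :=
        ContinuousAt.comp (f := fun θ' : ℝ => pt t θ') hc hp.continuousAt
      exact (hc'.eventually (lt_mem_nhds h4)).mono fun _ h => h.le
    · exact ⟨1 / 2, ρ + 1, by norm_num, by norm_num, by linarith, fun h => absurd h hθ⟩
  choose T R hT0 hT1 hR hev using hloc
  obtain ⟨s, hsZ, hcov⟩ := hZ.elim_nhds_subcover (fun θ => {θ' | R θ ≤ g (pt (T θ) θ')})
    (fun θ hθ => hev θ hθ)
  have key : ∀ s : Finset ℝ, ∃ t0 t1 ρ' : ℝ, 0 < t0 ∧ t0 < 1 ∧ t1 < 1 ∧ ρ < ρ' ∧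
      ∀ θ ∈ s, t0 ≤ T θ ∧ T θ ≤ t1 ∧ ρ' ≤ R θ := by
    intro s
    induction s using Finset.induction_on with
    | empty => exact ⟨1 / 2, 1 / 2, ρ + 1, by norm_num, by norm_num, by norm_num, by linarith,
        by simp⟩
    | insert a s ha ih =>
      obtain ⟨t0, t1, ρ', h0, h0', h1, h2, h3⟩ := ih
      refine ⟨min t0 (T a), max t1 (T a), min ρ' (R a), lt_min h0 (hT0 a),
        (min_le_left _ _).trans_lt h0', max_lt h1 (hT1 a), lt_min h2 (hR a), ?_⟩
      intro θ hθ
      rcases Finset.mem_insert.1 hθ with rfl | hθ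
      · exact ⟨min_le_right _ _, le_max_right _ _, min_le_right _ _⟩
      · obtain ⟨a1, a2, a3⟩ := h3 θ hθ
        exact ⟨(min_le_left _ _).trans a1, a2.trans (le_max_left _ _), (min_le_left _ _).trans a3⟩
  obtain ⟨t0, t1, ρ', h0, h0', h1, h2, h3⟩ := key s
  refine ⟨t0, t1, ρ', h0, h0', h1, h2, ?_⟩
  intro θ hθ
  -- shift into [-π, π]
  set θ' : ℝ := toIocMod Real.two_pi_pos (-Real.pi) θ with hθ'
  have hk : θ' + toIocDiv Real.two_pi_pos (-Real.pi) θ • (2 * Real.pi) = θ :=
    toIocMod_add_toIocDiv_zsmul _ _ _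
  set k : ℤ := toIocDiv Real.two_pi_pos (-Real.pi) θ
  have hk' : θ = θ' + 2 * Real.pi * k := by
    rw [← hk, zsmul_eq_mul]; ring
  have hmem := toIocMod_mem_Ioc Real.two_pi_pos (-Real.pi) θ
  have hcos : Real.cos θ' = Real.cos θ := by
    rw [hk', mul_comm (2 * Real.pi) (k : ℝ)]
    exact (Real.cos_add_int_mul_two_pi θ' k).symm
  have hZ' : θ' ∈ Z := by
    refine ⟨⟨hmem.1.le, ?_⟩, ?_⟩
    · have := hmem.2
      linarith
    · show κ ≤ Real.cos θ'
      rw [hcos]; exact hθ
  obtain ⟨i, his, hi⟩ := mem_iUnion₂.1 (hcov hZ')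
  obtain ⟨a1, a2, a3⟩ := h3 i his
  refine ⟨T i, a1, a2, ?_⟩
  rw [hk', pt_periodic]
  exact a3.trans hi

end MPf68f16

end

section

set_option autoImplicit false

/-!
# MP_f68f16_an, item D1: the disc minus finitely many short circular arcs at different radii
-/

open MeasureTheory Metric Set Filter Topology

namespace MPf68f16

theorem D1_norm_pt {t : ℝ} (ht : 0 ≤ t) (θ : ℝ) : ‖pt t θ‖ = t := by
  unfold pt
  rw [norm_mul, Complex.norm_exp_ofReal_mul_I, mul_one, Complex.norm_real, Real.norm_eq_abs,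
    abs_of_nonneg ht]

theorem D1_pt_polar (p : ℂ) : pt ‖p‖ (Complex.arg p) = p := by
  unfold pt
  exact Complex.norm_mul_exp_arg_mul_I p

theorem D1_continuous_radial (θ : ℝ) : Continuous (fun t : ℝ => pt t θ) := by
  unfold pt
  fun_prop

theorem D1_continuous_circ (t : ℝ) : Continuous (fun θ : ℝ => pt t θ) := by
  unfold pt
  fun_prop

/-- the union of the arcs -/
def D1E {m : ℕ} (r α δ : Fin m → ℝ) : Set ℂ := {z | ∃ i θ, |θ - α i| ≤ δ i ∧ z = pt (r i) θ}

section

variable {m : ℕ} {r α δ : Fin m → ℝ}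

theorem D1_closed : IsClosed (D1E r α δ) := by
  have h : D1E r α δ = ⋃ i : Fin m, (fun θ : ℝ => pt (r i) θ) '' Icc (α i - δ i) (α i + δ i) := by
    ext z
    simp only [D1E, mem_ofPred_eq, mem_iUnion, mem_image, mem_Icc]
    constructor
    · rintro ⟨i, θ, h1, h2⟩
      rw [abs_le] at h1
      exact ⟨i, θ, ⟨by linarith [h1.1], by linarith [h1.2]⟩, h2.symm⟩
    · rintro ⟨i, θ, h1, h2⟩
      exact ⟨i, θ, abs_le.2 ⟨by linarith [h1.1], by linarith [h1.2]⟩, h2.symm⟩
  rw [h]
  exact isClosed_iUnion_of_finite fun i =>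
    (isCompact_Icc.image (D1_continuous_circ (r i))).isClosed

theorem D1_norm_mem (h0 : ∀ i, 0 < r i) {z : ℂ} (hz : z ∈ D1E r α δ) : ∃ i, ‖z‖ = r i := by
  obtain ⟨i, θ, _, h2⟩ := hz
  exact ⟨i, by rw [h2, D1_norm_pt (h0 i).le]⟩

theorem D1_notMem (h0 : ∀ i, 0 < r i) {t : ℝ} (ht : 0 ≤ t) (htr : ∀ i, r i ≠ t) (θ : ℝ) :
    pt t θ ∉ D1E r α δ := by
  intro h
  obtain ⟨i, hi⟩ := D1_norm_mem h0 h
  rw [D1_norm_pt ht] at hi
  exact htr i hi.symm

theorem D1_opposite (hinj : Function.Injective r) (h0 : ∀ i, 0 < r i) (h3 : ∀ i, δ i ≤ 1)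
    (i : Fin m) : pt (r i) (α i + Real.pi) ∉ D1E r α δ := by
  rintro ⟨j, θ, h1, h2⟩
  have h4 := congrArg norm h2
  rw [D1_norm_pt (h0 i).le, D1_norm_pt (h0 j).le] at h4
  have hij : i = j := hinj h4
  subst hij
  unfold pt at h2
  have hr : (r i : ℂ) ≠ 0 := by exact_mod_cast (h0 i).ne'
  have h5 := mul_left_cancel₀ hr h2
  rw [Complex.exp_eq_exp_iff_exists_int] at h5
  obtain ⟨k, hk⟩ := h5
  have h6 : ((α i + Real.pi : ℝ) : ℂ) = (θ : ℂ) + k * (2 * Real.pi) := by
    have h7 : ((α i + Real.pi : ℝ) : ℂ) * Complex.I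
        = ((θ : ℂ) + k * (2 * Real.pi)) * Complex.I := by
      rw [hk]; ring
    exact mul_right_cancel₀ Complex.I_ne_zero h7
  have h8 : α i + Real.pi = θ + k * (2 * Real.pi) := by exact_mod_cast h6
  have h9 : |θ - α i| ≤ 1 := h1.trans (h3 i)
  have h10 : θ - α i = Real.pi * (1 - 2 * k) := by linarith
  rw [h10, abs_mul, abs_of_pos Real.pi_pos] at h9
  have h11 : (1 : ℝ) ≤ |(1 : ℝ) - 2 * k| := by
    have h12 : (1 : ℤ) ≤ |1 - 2 * k| := by
      rcases le_or_gt 1 |1 - 2 * k| with h | h
      · exact h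
      · have h13 : |1 - 2 * k| = 0 := by
          have := abs_nonneg (1 - 2 * k)
          omega
        rw [abs_eq_zero] at h13
        omega
    exact_mod_cast h12
  have h14 := Real.pi_gt_three
  nlinarith

theorem D1_open : IsOpen (ball (0 : ℂ) 1 \ D1E r α δ) := isOpen_ball.sdiff D1_closed

/-- radii slightly below `t` are not in the range of `r` -/
theorem D1_below (t : ℝ) (ht : 0 < t) :
    ∀ᶠ s in 𝓝[<] t, 0 < s ∧ s < t ∧ (∀ j, r j < t → r j < s) ∧ ∀ j, r j ≠ s := by
  have h1 : ∀ᶠ s in 𝓝[<] t, s < t := eventually_mem_nhdsWithin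
  have h2 : ∀ᶠ s in 𝓝[<] t, 0 < s := eventually_nhdsWithin_of_eventually_nhds (lt_mem_nhds ht)
  have h3 : ∀ᶠ s in 𝓝[<] t, ∀ j, r j < t → r j < s := by
    rw [eventually_all]
    intro j
    by_cases hj : r j < t
    · exact (eventually_nhdsWithin_of_eventually_nhds (lt_mem_nhds hj)).mono fun s hs _ => hs
    · exact Eventually.of_forall fun s h => absurd h hj
  filter_upwards [h1, h2, h3] with s a b c
  refine ⟨b, a, c, fun j hj => ?_⟩
  have := c j (hj ▸ a)
  exact absurd hj this.ne

theorem D1_joined_curve {S : Set ℂ} {f : ℝ → ℂ} (hf : Continuous f) {a b : ℝ}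
    (h : ∀ s ∈ uIcc a b, f s ∈ S) : JoinedIn S (f a) (f b) := by
  have h1 : IsPathConnected (f '' uIcc a b) :=
    ((convex_uIcc a b).isPathConnected ⟨a, left_mem_uIcc⟩).image hf
  refine (h1.joinedIn _ (mem_image_of_mem f left_mem_uIcc) _
    (mem_image_of_mem f right_mem_uIcc)).mono ?_
  rintro _ ⟨s, hs, rfl⟩
  exact h s hs

theorem D1_joined (hinj : Function.Injective r) (h0 : ∀ i, 0 < r i)
    (h3 : ∀ i, δ i ≤ 1) :
    ∀ (n : ℕ) (t θ : ℝ), 0 ≤ t → t < 1 → (∀ i, r i ≠ t) →
      (Finset.univ.filter fun j => r j < t).card = n →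
      JoinedIn (ball (0 : ℂ) 1 \ D1E r α δ) (pt t θ) 0 := by
  intro n
  induction n using Nat.strong_induction_on with
  | _ n ih =>
    intro t θ ht0 ht1 htr hn
    by_cases hS : ∃ j, r j < t
    · -- the largest radius below `t`
      obtain ⟨i, hi, hmax⟩ := Finset.exists_max_image (Finset.univ.filter fun j => r j < t) r
        (by obtain ⟨j, hj⟩ := hS; exact ⟨j, by simpa using hj⟩)
      simp only [Finset.mem_filter, Finset.mem_univ, true_and] at hi hmax
      obtain ⟨s, hs0, hs1, hs2, hs3⟩ := (D1_below (r := r) (r i) (h0 i)).exists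
      have hcard : (Finset.univ.filter fun j => r j < s).card < n := by
        rw [← hn]
        refine Finset.card_lt_card ⟨fun j hj => ?_, fun h => ?_⟩
        · simp only [Finset.mem_filter, Finset.mem_univ, true_and] at hj ⊢
          linarith
        · have := h (by simpa using hi : i ∈ Finset.univ.filter fun j => r j < t)
          simp only [Finset.mem_filter, Finset.mem_univ, true_and] at this
          linarith
      have hjs := ih _ hcard s (α i + Real.pi) hs0.le (by linarith) hs3 rfl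
      refine JoinedIn.trans ?_ (JoinedIn.trans ?_ hjs) (y := pt t (α i + Real.pi))
      · refine D1_joined_curve (f := fun θ => pt t θ) (D1_continuous_circ t) fun φ _ => ⟨?_, ?_⟩
        · rw [mem_ball_zero_iff, D1_norm_pt ht0]; exact ht1
        · exact D1_notMem h0 ht0 htr φ
      · refine D1_joined_curve (f := fun t => pt t (α i + Real.pi)) (D1_continuous_radial _)
          fun q hq => ?_
        rw [uIcc_of_ge (by linarith)] at hq
        have hq0 : 0 ≤ q := hs0.le.trans hq.1
        refine ⟨?_, ?_⟩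
        · rw [mem_ball_zero_iff, D1_norm_pt hq0]; linarith [hq.2]
        · by_cases hqi : q = r i
          · rw [hqi]; exact D1_opposite hinj h0 h3 i
          · refine D1_notMem h0 hq0 (fun j hj => ?_) _
            -- `r j = q`, in `[s, t]`
            have hqt : q ≠ t := fun h => htr j (hj.trans h)
            have h5 : r j < t := by rw [hj]; exact lt_of_le_of_ne hq.2 hqt
            have h6 : r j ≤ r i := hmax j h5
            have h7 : r j ≠ r i := fun h => hqi (hj.symm.trans h)
            have h8 := hs2 j (lt_of_le_of_ne h6 h7)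
            linarith [hq.1]
    · push Not at hS
      have h5 : pt 0 θ = 0 := by simp [pt]
      have key : JoinedIn (ball (0 : ℂ) 1 \ D1E r α δ) (pt t θ) (pt 0 θ) := by
        refine D1_joined_curve (f := fun t => pt t θ) (D1_continuous_radial _) fun q hq => ?_
        rw [uIcc_of_ge ht0] at hq
        refine ⟨?_, D1_notMem h0 hq.1 (fun j hj => ?_) _⟩
        · rw [mem_ball_zero_iff, D1_norm_pt hq.1]; linarith [hq.2]
        · have h6 := hS j
          rw [hj] at h6
          exact htr j (hj.trans (le_antisymm hq.2 h6))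
      rw [h5] at key
      exact key

end

theorem prf_D1 : S_D1 := by
  intro m r α δ hinj h0 h1 hδ0 hδ1 E
  have hE : E = D1E r α δ := rfl
  clear_value E
  subst hE
  have hEb : D1E r α δ ⊆ ball (0 : ℂ) 1 := by
    intro z hz
    obtain ⟨i, hi⟩ := D1_norm_mem h0 hz
    rw [mem_ball_zero_iff, hi]
    exact h1 i
  refine ⟨D1_closed, ?_, ?_⟩
  · have h00 : (0 : ℂ) ∈ ball (0 : ℂ) 1 \ D1E r α δ := by
      refine ⟨mem_ball_self one_pos, fun h => ?_⟩
      obtain ⟨i, hi⟩ := D1_norm_mem h0 h
      rw [norm_zero] at hi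
      exact (h0 i).ne hi
    have hp : IsPathConnected (ball (0 : ℂ) 1 \ D1E r α δ) := by
      refine ⟨0, h00, fun {p} hp => ?_⟩
      by_cases hp0 : p = 0
      · rw [hp0]; exact JoinedIn.refl h00
      · have hpos : 0 < ‖p‖ := norm_pos_iff.2 hp0
        obtain ⟨ε, hε, hball⟩ := Metric.isOpen_iff.1 D1_open p hp
        have hnear : ∀ᶠ s in 𝓝[<] ‖p‖, pt s (Complex.arg p) ∈ ball p ε := by
          have h2 := (D1_continuous_radial (Complex.arg p)).tendsto ‖p‖
          rw [D1_pt_polar] at h2
          exact (h2.mono_left nhdsWithin_le_nhds).eventually (ball_mem_nhds p hε)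
        obtain ⟨s, ⟨hs0, hs1, _, hs3⟩, hs4⟩ := ((D1_below (r := r) ‖p‖ hpos).and hnear).exists
        have hp1 : ‖p‖ < 1 := mem_ball_zero_iff.1 hp.1
        have hj := D1_joined (α := α) (δ := δ) hinj h0 hδ1 _ s (Complex.arg p) hs0.le
          (by linarith) hs3 rfl
        have hb : JoinedIn (ball p ε) p (pt s (Complex.arg p)) :=
          ((convex_ball p ε).isPathConnected ⟨p, mem_ball_self hε⟩).joinedIn _
            (mem_ball_self hε) _ hs4
        exact ((hb.mono hball).trans hj).symm
    exact hp.isConnected.isPreconnected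
  · rw [D1_open.frontier_eq]
    have hcl : closure (ball (0 : ℂ) 1 \ D1E r α δ) = closedBall 0 1 := by
      apply Subset.antisymm
      · exact closure_minimal (sdiff_subset.trans ball_subset_closedBall) isClosed_closedBall
      · intro p hp
        have hp1 : ‖p‖ ≤ 1 := mem_closedBall_zero_iff.1 hp
        by_cases hp0 : p = 0
        · refine subset_closure ⟨?_, fun h => ?_⟩
          · rw [hp0]; exact mem_ball_self one_pos
          · obtain ⟨i, hi⟩ := D1_norm_mem h0 h
            rw [hp0, norm_zero] at hi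
            exact (h0 i).ne hi
        · have hpos : 0 < ‖p‖ := norm_pos_iff.2 hp0
          have h2 := (D1_continuous_radial (Complex.arg p)).tendsto ‖p‖
          rw [D1_pt_polar] at h2
          refine mem_closure_of_tendsto (h2.mono_left (nhdsWithin_le_nhds (s := Iio ‖p‖))) ?_
          filter_upwards [D1_below (r := r) ‖p‖ hpos] with s hs
          refine ⟨?_, D1_notMem h0 hs.1.le hs.2.2.2 _⟩
          rw [mem_ball_zero_iff, D1_norm_pt hs.1.le]
          linarith [hs.2.1]
    rw [hcl]
    ext z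
    simp only [Set.mem_sdiff, mem_union, mem_closedBall_zero_iff, mem_ball_zero_iff,
      mem_sphere_iff_norm, sub_zero]
    constructor
    · rintro ⟨h2, h3⟩
      by_cases hz : z ∈ D1E r α δ
      · exact Or.inr hz
      · left
        by_contra hne
        exact h3 ⟨lt_of_le_of_ne h2 hne, hz⟩
    · rintro (h2 | h2)
      · exact ⟨h2.le, fun h => absurd h2 h.1.ne⟩
      · exact ⟨(mem_ball_zero_iff.1 (hEb h2)).le, fun h => h.2 h2⟩

end MPf68f16

end
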