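import Pool.Agent.Work.MP_f68f16_an.Stmts

/-! Bundle of small proof modules (one section per former module). -/

section

/-! MP_f68f16_an, item DMON (helper17): semicircle weights on the Chebyshev nodes. -/

set_option autoImplicit false

open Set

namespace MPf68f16

/-- a continuous function whose derivative is nonpositive off a finite set -/
theorem le_of_deriv_off_finite (f f' : ℝ → ℝ) (S : Finset ℝ) : ∀ (n : ℕ) (a b : ℝ), a ≤ b →
    (S.filter fun x => a < x ∧ x < b).card = n → ContinuousOn f (Icc a b) →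
    (∀ x ∈ Ioo a b, x ∉ S → HasDerivAt f (f' x) x ∧ f' x ≤ 0) → f b ≤ f a := by
  intro n
  induction n using Nat.strong_induction_on with
  | _ n ih =>
    intro a b hab hn hf hd
    by_cases h0 : (S.filter fun x => a < x ∧ x < b) = ∅
    · have h1 : ∀ x ∈ Ioo a b, x ∉ S := by
        intro x hx hxS
        have : x ∈ S.filter fun x => a < x ∧ x < b := Finset.mem_filter.2 ⟨hxS, hx⟩
        rw [h0] at this
        simp at this
      refine antitoneOn_of_deriv_nonpos (convex_Icc a b) hf ?_ ?_ ⟨le_rfl, hab⟩ ⟨hab, le_rfl⟩ hab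
      · intro x hx
        rw [interior_Icc] at hx
        exact (hd x hx (h1 x hx)).1.differentiableAt.differentiableWithinAt
      · intro x hx
        rw [interior_Icc] at hx
        rw [(hd x hx (h1 x hx)).1.deriv]
        exact (hd x hx (h1 x hx)).2
    · obtain ⟨s, hs⟩ := Finset.nonempty_iff_ne_empty.2 h0
      obtain ⟨hsS, has, hsb⟩ := Finset.mem_filter.1 hs
      have hlt1 : (S.filter fun x => a < x ∧ x < s).card < n := by
        rw [← hn]
        refine Finset.card_lt_card ⟨fun x hx => ?_, fun hsub => ?_⟩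
        · obtain ⟨h1, h2, h3⟩ := Finset.mem_filter.1 hx
          exact Finset.mem_filter.2 ⟨h1, h2, h3.trans hsb⟩
        · exact lt_irrefl s (Finset.mem_filter.1 (hsub hs)).2.2
      have hlt2 : (S.filter fun x => s < x ∧ x < b).card < n := by
        rw [← hn]
        refine Finset.card_lt_card ⟨fun x hx => ?_, fun hsub => ?_⟩
        · obtain ⟨h1, h2, h3⟩ := Finset.mem_filter.1 hx
          exact Finset.mem_filter.2 ⟨h1, has.trans h2, h3⟩
        · exact lt_irrefl s (Finset.mem_filter.1 (hsub hs)).2.1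
      have e1 := ih _ hlt1 a s has.le rfl (hf.mono (Icc_subset_Icc le_rfl hsb.le))
        (fun x hx => hd x ⟨hx.1, hx.2.trans hsb⟩)
      have e2 := ih _ hlt2 s b hsb.le rfl (hf.mono (Icc_subset_Icc has.le le_rfl))
        (fun x hx => hd x ⟨has.trans hx.1, hx.2⟩)
      exact e2.trans e1

theorem node_reflect {N j : ℕ} (hj : j < N) : node N (N - 1 - j) = -node N j := by
  unfold node
  rw [← Real.cos_pi_sub]
  congr 1
  have hN : (0 : ℝ) < N := by exact_mod_cast (by omega : 0 < N)
  have h1 : ((N - 1 - j : ℕ) : ℝ) = N - 1 - j := by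
    rw [Nat.cast_sub (by omega), Nat.cast_sub (by omega)]
    simp
  rw [h1]
  field_simp
  ring

theorem sum_node_reflect (N : ℕ) (g : ℝ → ℝ) :
    ∑ j ∈ Finset.range N, g (node N j) = ∑ j ∈ Finset.range N, g (-node N j) := by
  rw [← Finset.sum_range_reflect]
  refine Finset.sum_congr rfl fun j hj => ?_
  rw [node_reflect (Finset.mem_range.1 hj)]

theorem sum_log_le (h : S_CHEB) {N : ℕ} (hN : 1 ≤ N) {x : ℝ} (hx : |x| ≤ 1)
    (hne : ∀ j ∈ Finset.range N, x ≠ node N j) :
    ∑ j ∈ Finset.range N, Real.log |x - node N j| ≤ -((N : ℝ) - 1) * Real.log 2 := by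
  have hpos : ∀ j ∈ Finset.range N, |x - node N j| ≠ 0 := fun j hj =>
    abs_ne_zero.2 (sub_ne_zero.2 (hne j hj))
  rw [← Real.log_prod hpos]
  have h1 : 0 < ∏ j ∈ Finset.range N, |x - node N j| :=
    Finset.prod_pos fun j hj => lt_of_le_of_ne (abs_nonneg _) (Ne.symm (hpos j hj))
  refine (Real.log_le_log h1 (h N hN x hx)).trans (le_of_eq ?_)
  rw [Real.log_div (by norm_num) (by positivity), Real.log_pow]
  ring

theorem dmon_pos (h : S_CHEB) (h2 : S_MOM) {N : ℕ} (hN : 2 ≤ N) {x : ℝ} (hx0 : 0 ≤ x)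
    (hx1 : x ≤ 1) (hne : ∀ j ∈ Finset.range N, x ≠ node N j) :
    ∑ j ∈ Finset.range N, (1 - node N j ^ 2) * Real.log |x - node N j| ≤
    -((N : ℝ) - 1) * Real.log 2 + N * x ^ 2 / 2 -
      ∑ j ∈ Finset.range N, node N j ^ 2 * Real.log |node N j| := by
  obtain ⟨D, hD⟩ : ∃ D : ℝ → ℝ, D = fun y => ∑ j ∈ Finset.range N,
      (y + node N j) * ((y - node N j) * Real.log (y - node N j)) - N * y ^ 2 / 2 +
      (N - 1) * Real.log 2 * y ^ 2 := ⟨_, rfl⟩
  have hcont : Continuous D := by
    rw [hD]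
    refine Continuous.add (Continuous.sub ?_ (by fun_prop)) (by fun_prop)
    refine continuous_finsetSum _ fun j _ => ?_
    refine Continuous.mul (by fun_prop) ?_
    exact Real.continuous_mul_log.comp (continuous_id.sub continuous_const)
  have hsum0 := (h2 N hN).1
  have hder : ∀ y, (∀ j ∈ Finset.range N, y ≠ node N j) → HasDerivAt D
      (2 * y * ((∑ j ∈ Finset.range N, Real.log |y - node N j|) + (N - 1) * Real.log 2)) y := by
    intro y hy
    have e1 : ∀ j ∈ Finset.range N, HasDerivAt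
        (fun y => (y + node N j) * ((y - node N j) * Real.log (y - node N j)))
        (2 * y * Real.log |y - node N j| + (y + node N j)) y := by
      intro j hj
      have f1 : HasDerivAt (fun y : ℝ => y + node N j) 1 y := (hasDerivAt_id y).add_const _
      have f2 : HasDerivAt (fun y : ℝ => y - node N j) 1 y := (hasDerivAt_id y).sub_const _
      have f3 := (Real.hasDerivAt_mul_log (sub_ne_zero.2 (hy j hj))).comp y f2
      have f4 := f1.mul f3
      refine f4.congr_deriv ?_
      rw [Real.log_abs]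
      simp only [Function.comp_apply]
      ring
    have e2 := HasDerivAt.fun_sum e1
    have e3 : HasDerivAt (fun y : ℝ => (N : ℝ) * y ^ 2 / 2) (N * y) y := by
      have := ((hasDerivAt_pow 2 y).const_mul (N : ℝ)).div_const 2
      refine this.congr_deriv ?_
      simp
      ring
    have e4 : HasDerivAt (fun y : ℝ => ((N : ℝ) - 1) * Real.log 2 * y ^ 2)
        (((N : ℝ) - 1) * Real.log 2 * (2 * y)) y := by
      have := (hasDerivAt_pow 2 y).const_mul (((N : ℝ) - 1) * Real.log 2)
      refine this.congr_deriv ?_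
      simp
    rw [hD]
    refine ((e2.sub e3).add e4).congr_deriv ?_
    rw [Finset.sum_add_distrib, Finset.sum_add_distrib, hsum0, ← Finset.mul_sum,
      Finset.sum_const, Finset.card_range, nsmul_eq_mul]
    ring
  have hmono : D x ≤ D 0 := by
    refine le_of_deriv_off_finite D
      (fun y => 2 * y * ((∑ j ∈ Finset.range N, Real.log |y - node N j|) +
        (N - 1) * Real.log 2)) ((Finset.range N).image fun j => node N j) _ 0 x hx0 rfl
      hcont.continuousOn (fun y hy hyS => ?_)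
    have hy' : ∀ j ∈ Finset.range N, y ≠ node N j := fun j hj hyj =>
      hyS (Finset.mem_image.2 ⟨j, hj, hyj.symm⟩)
    refine ⟨hder y hy', ?_⟩
    have h3 := sum_log_le h (by omega : 1 ≤ N) (x := y)
      (abs_le.2 ⟨by linarith [hy.1], by linarith [hy.2]⟩) hy'
    have h4 : (∑ j ∈ Finset.range N, Real.log |y - node N j|) + (N - 1) * Real.log 2 ≤ 0 := by
      linarith
    exact mul_nonpos_of_nonneg_of_nonpos (by linarith [hy.1]) h4
  have hl := sum_log_le h (by omega : 1 ≤ N) (x := x)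
    (abs_le.2 ⟨by linarith, by linarith⟩) hne
  have hDx : D x = ∑ j ∈ Finset.range N, (x ^ 2 - node N j ^ 2) * Real.log |x - node N j| -
      N * x ^ 2 / 2 + (N - 1) * Real.log 2 * x ^ 2 := by
    rw [hD]
    simp only
    congr 2
    refine Finset.sum_congr rfl fun j _ => ?_
    rw [Real.log_abs]
    ring
  have hD0 : D 0 = -∑ j ∈ Finset.range N, node N j ^ 2 * Real.log |node N j| := by
    rw [hD]
    simp only
    rw [← Finset.sum_neg_distrib]
    have : ∑ j ∈ Finset.range N, (0 + node N j) * ((0 - node N j) * Real.log (0 - node N j)) =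
        ∑ j ∈ Finset.range N, -(node N j ^ 2 * Real.log |node N j|) := by
      refine Finset.sum_congr rfl fun j _ => ?_
      rw [Real.log_abs, zero_sub, Real.log_neg_eq_log]
      ring
    rw [this]
    ring
  have hsplit : ∑ j ∈ Finset.range N, (1 - node N j ^ 2) * Real.log |x - node N j| =
      (1 - x ^ 2) * ∑ j ∈ Finset.range N, Real.log |x - node N j| +
      ∑ j ∈ Finset.range N, (x ^ 2 - node N j ^ 2) * Real.log |x - node N j| := by
    rw [Finset.mul_sum, ← Finset.sum_add_distrib]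
    refine Finset.sum_congr rfl fun j _ => ?_
    ring
  have h5 : 0 ≤ 1 - x ^ 2 := by nlinarith
  have h6 := mul_le_mul_of_nonneg_left hl h5
  rw [hsplit]
  rw [hDx, hD0] at hmono
  linarith

theorem prf_DMON (h : S_CHEB) (h2 : S_MOM) : S_DMON := by
  intro N hN x hx hne
  obtain ⟨hx1, hx2⟩ := abs_le.1 hx
  rcases le_total 0 x with h0 | h0
  · exact dmon_pos h h2 hN h0 hx2 hne
  · have hne' : ∀ j ∈ Finset.range N, -x ≠ node N j := by
      intro j hj hxj
      have hj' := Finset.mem_range.1 hj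
      refine hne (N - 1 - j) (Finset.mem_range.2 (by omega)) ?_
      rw [node_reflect hj', ← hxj, neg_neg]
    have h3 := dmon_pos h h2 hN (x := -x) (by linarith) (by linarith) hne'
    have h4 := sum_node_reflect N (fun t => (1 - t ^ 2) * Real.log |x - t|)
    rw [h4]
    rw [neg_sq] at h3
    refine le_trans (le_of_eq ?_) h3
    refine Finset.sum_congr rfl fun j _ => ?_
    rw [neg_sq, sub_neg_eq_add, ← abs_neg (-x - node N j)]
    congr 3
    ring

end MPf68f16

end

section

/-!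
# Item DOM: a competitor gives an admissible domain
-/

set_option autoImplicit false

open MeasureTheory Metric Set Filter Topology

namespace MPf68f16

namespace IDOM

theorem pt_period (t θ : ℝ) (k : ℤ) : pt t (θ + 2 * Real.pi * k) = pt t θ := by
  unfold pt
  congr 1
  have h : (((θ + 2 * Real.pi * k : ℝ) : ℂ) * Complex.I) =
      (θ : ℂ) * Complex.I + k * (2 * Real.pi * Complex.I) := by
    push_cast
    ring
  rw [h, Complex.exp_add, Complex.exp_int_mul_two_pi_mul_I, mul_one]

theorem pt_ne_zero (t θ : ℝ) (ht : 0 < t) : pt t θ ≠ 0 := by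
  unfold pt
  refine mul_ne_zero ?_ (Complex.exp_ne_zero _)
  exact_mod_cast ht.ne'

theorem lower_le_one (h1 : S_MAX) (h2 : S_CI) (D : Set ℂ) (hD : Admissible D) (w : ℂ → ℝ)
    (hw : IsLower D w) : w 0 ≤ 1 := by
  have h := h1 D (fun z => w z - 1) hD.isOpen hD.subset ?_ ⟨1, fun z hz => ?_⟩ ?_ ?_ 0 hD.zero_mem
  · linarith
  · have := hw.usc
    exact this.add continuousOn_const.upperSemicontinuousOn
  · have := hw.nonneg z hz
    linarith
  · intro z r hr hzr
    have hci := h2 D w hw.usc hw.nonneg z r hr hzr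
    rw [Real.circleAverage_fun_sub hci (circleIntegrable_const 1 z r), Real.circleAverage_const]
    have := hw.submean z r hr hzr
    linarith
  · intro ζ hζ ε hε
    have hn : ‖ζ‖ ≤ 1 := by
      have h5 : ζ ∈ closure (ball (0 : ℂ) 1) := closure_mono hD.subset (frontier_subset_closure hζ)
      have h6 := closure_ball_subset_closedBall h5
      simpa using h6
    rcases lt_or_eq_of_le hn with h7 | h7
    · filter_upwards [hw.inner ζ hζ h7 ε hε] with z hz
      linarith
    · filter_upwards [hw.outer ζ hζ h7 ε hε] with z hz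
      linarith

end IDOM

open IDOM in
theorem prf_DOM (h1 : S_MAX) (h2 : S_CI) (h3 : S_D1) (h4 : S_D2) : S_DOM := by
  intro u hu hu0
  obtain ⟨m, r, α, δ, hinj, hr0, hr1, hδ0, hδ1, hneg, hcov⟩ := h4 u hu.nice.1 hu.neg
  obtain ⟨hE1, hE2, hE3⟩ := h3 m r α δ hinj hr0 hr1 hδ0 hδ1
  set E : Set ℂ := {z | ∃ i θ, |θ - α i| ≤ δ i ∧ z = pt (r i) θ} with hE
  have hEneg : ∀ z ∈ E, u z < 0 := by
    rintro z ⟨i, θ, h, rfl⟩
    exact hneg i θ h
  have hadm : Admissible (ball (0 : ℂ) 1 \ E) := by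
    refine ⟨isOpen_ball.sdiff hE1, hE2, ⟨mem_ball_self one_pos, ?_⟩, sdiff_subset, ?_, ?_⟩
    · intro h0
      exact absurd (hEneg 0 h0) (not_lt.2 hu0.le)
    · rw [hE3]
      exact subset_union_left
    · intro θ
      obtain ⟨i, k, hik⟩ := hcov θ
      refine ⟨r i, (hr0 i).le, hr1 i, ?_⟩
      rw [hE3]
      refine Or.inr ⟨i, θ + 2 * Real.pi * k, hik, ?_⟩
      rw [pt_period]
      rfl
  refine ⟨ball (0 : ℂ) 1 \ E, hadm, ?_⟩
  unfold omega
  refine le_csSup ⟨1, ?_⟩ ⟨fun z => max (u z) 0, ?_, max_eq_left hu0.le⟩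
  · rintro t ⟨w, hw, rfl⟩
    exact lower_le_one h1 h2 _ hadm w hw
  · have hvc : ContinuousOn (fun z => max (u z) 0) (ball 0 1) :=
      hu.nice.1.sup continuousOn_const
    refine ⟨fun z _ => le_max_right _ _, (hvc.mono sdiff_subset).upperSemicontinuousOn, ?_, ?_, ?_⟩
    · intro z s hs hzs
      have hzs' : closedBall z s ⊆ ball 0 1 := hzs.trans sdiff_subset
      have hu1 := hu.nice.2 id differentiableOn_id (fun z hz => hz) z s hs hzs'
      have hci : CircleIntegrable (fun w => u (id w)) z s :=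
        (hu.nice.1.mono (sphere_subset_closedBall.trans hzs')).circleIntegrable hs.le
      have hci2 : CircleIntegrable (fun z => max (u z) 0) z s :=
        (hvc.mono (sphere_subset_closedBall.trans hzs')).circleIntegrable hs.le
      refine max_le (hu1.trans ?_) ?_
      · exact Real.circleAverage_mono hci hci2 fun x _ => le_max_left _ _
      · exact Real.circleAverage_nonneg_of_nonneg fun x _ => le_max_right _ _
    · intro ζ _ _ ε hε
      filter_upwards [self_mem_nhdsWithin] with z hz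
      have h5 := hu.le_one z hz.1
      have h6 : max (u z) 0 ≤ 1 := max_le h5 zero_le_one
      linarith
    · intro ζ hζ hζ1 ε hε
      rw [hE3] at hζ
      rcases hζ with h5 | h5
      · rw [mem_sphere_zero_iff_norm] at h5
        linarith
      · have h6 : u ζ < 0 := hEneg ζ h5
        have h7 : ContinuousAt u ζ :=
          hu.nice.1.continuousAt (isOpen_ball.mem_nhds (by simpa using hζ1))
        have h8 : ∀ᶠ z in 𝓝 ζ, u z < 0 := h7.eventually_lt continuousAt_const h6
        filter_upwards [mem_nhdsWithin_of_mem_nhds h8] with z hz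
        rw [max_eq_right (le_of_lt hz)]
        exact hε

end MPf68f16

end

section

/-!
# Item FINE: fine structure near the complementary arc
-/

set_option autoImplicit false

open MeasureTheory Metric Set Filter Topology

namespace MPf68f16

namespace IFINE

theorem norm_pt (t θ : ℝ) (ht : 0 ≤ t) : ‖pt t θ‖ = t := by
  unfold pt
  rw [norm_mul, Complex.norm_exp_ofReal_mul_I, mul_one, Complex.norm_real, Real.norm_eq_abs,
    abs_of_nonneg ht]

theorem dist_pt (t φ φ' : ℝ) (ht : 0 ≤ t) (ht1 : t ≤ 1) : dist (pt t φ') (pt t φ) ≤ |φ' - φ| := by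
  rw [dist_eq_norm]
  unfold pt
  have h1 : (t : ℂ) * Complex.exp ((φ' : ℂ) * Complex.I) - (t : ℂ) * Complex.exp ((φ : ℂ) * Complex.I)
      = (t : ℂ) * Complex.exp ((φ : ℂ) * Complex.I) *
        (Complex.exp (Complex.I * ((φ' - φ : ℝ) : ℂ)) - 1) := by
    have h2 : Complex.exp ((φ' : ℂ) * Complex.I) = Complex.exp ((φ : ℂ) * Complex.I) *
        Complex.exp (Complex.I * ((φ' - φ : ℝ) : ℂ)) := by
      rw [← Complex.exp_add]
      congr 1
      push_cast
      ring
    rw [h2]
    ring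
  rw [h1, norm_mul, norm_mul, Complex.norm_exp_ofReal_mul_I, mul_one, Complex.norm_real,
    Real.norm_eq_abs, abs_of_nonneg ht]
  have h3 := Real.norm_exp_I_mul_ofReal_sub_one_le (x := φ' - φ)
  rw [Real.norm_eq_abs] at h3
  calc t * ‖Complex.exp (Complex.I * ((φ' - φ : ℝ) : ℂ)) - 1‖
      ≤ 1 * |φ' - φ| := mul_le_mul ht1 h3 (norm_nonneg _) zero_le_one
    _ = |φ' - φ| := one_mul _

theorem psi_eq (A : ℝ) (n : ℕ) (z : ℂ) (t : ℝ) (ht : 0 < t)
    (h : (n : ℝ) * hA A z = Real.log (1 / t)) : psi A n z = pt t (-(n : ℝ) * (FA A z).im) := by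
  unfold psi pt
  have h1 : -(n : ℂ) * FA A z = ((-(n : ℝ) * hA A z : ℝ) : ℂ) +
      ((-(n : ℝ) * (FA A z).im : ℝ) : ℂ) * Complex.I := by
    apply Complex.ext
    · simp [hA]
    · simp
  rw [h1, Complex.exp_add, ← Complex.ofReal_exp]
  congr 2
  have h2 : -(n : ℝ) * hA A z = Real.log t := by
    rw [neg_mul, h, one_div, Real.log_inv, neg_neg]
  rw [h2, Real.exp_log ht]

end IFINE

open IFINE in
theorem prf_FINE (_h1 : S_Q1) (h2 : S_Q2) (h3 : S_Q3) (h4 : S_CPT) : S_FINE := by
  intro A d hA0 hd u hu hneg C hC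
  obtain ⟨t0, t1, k, ht0, ht01, ht1, hk, hcpt⟩ := h4 (fun z => -u z) 0 (-1) hu.neg (fun θ _ => by
    obtain ⟨t, h5, h6, h7⟩ := hneg θ
    exact ⟨t, h5, h6, by linarith⟩)
  have hcpt' : ∀ θ : ℝ, ∃ t : ℝ, t0 ≤ t ∧ t ≤ t1 ∧ k ≤ -u (pt t θ) :=
    fun θ => hcpt θ (Real.neg_one_le_cos θ)
  -- uniform continuity
  have hcomp : IsCompact (closedBall (0 : ℂ) t1) := isCompact_closedBall _ _
  have huc : UniformContinuousOn u (closedBall (0 : ℂ) t1) :=
    hcomp.uniformContinuousOn_of_continuous (hu.mono (closedBall_subset_ball ht1))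
  rw [Metric.uniformContinuousOn_iff] at huc
  obtain ⟨s, hs, hus⟩ := huc (k / 4) (by linarith)
  obtain ⟨C3, hC3⟩ := h3 A d hA0 hd
  set cQ : ℝ := A / (2 * Real.pi * (1 + A ^ 2)) with hcQ
  have hcQ0 : 0 < cQ := by
    rw [hcQ]
    have := Real.pi_pos
    positivity
  set L : ℝ := Real.log (1 / t0) with hL
  have hL0 : 0 < L := Real.log_pos (by rw [lt_div_iff₀ ht0]; linarith)
  set c' : ℝ := L / cQ with hc'
  -- the large number
  obtain ⟨N, hN⟩ := exists_nat_gt (max (max 1 (L / (cQ / 2))) (max (|C3| * c' ^ 2 / s) (C * L / (k / 4))))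
  refine ⟨N, fun n hn θ hθ => ?_⟩
  have hnN : (N : ℝ) ≤ (n : ℝ) := by exact_mod_cast hn
  have hn1 : (1 : ℝ) < n := lt_of_le_of_lt (le_trans (le_max_left _ _) (le_max_left _ _)) (lt_of_lt_of_le hN hnN)
  have hn2 : L / (cQ / 2) < n := lt_of_le_of_lt (le_trans (le_max_right _ _) (le_max_left _ _)) (lt_of_lt_of_le hN hnN)
  have hn3 : |C3| * c' ^ 2 / s < n := lt_of_le_of_lt (le_trans (le_max_left _ _) (le_max_right _ _)) (lt_of_lt_of_le hN hnN)
  have hn4 : C * L / (k / 4) < n := lt_of_le_of_lt (le_trans (le_max_right _ _) (le_max_right _ _)) (lt_of_lt_of_le hN hnN)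
  have hn0 : (0 : ℝ) < n := by linarith
  rw [div_lt_iff₀ (by linarith)] at hn2 hn4
  rw [div_lt_iff₀ hs] at hn3
  obtain ⟨hcont, hzero, him⟩ := hC3 θ hθ
  obtain ⟨t, htt0, htt1, htk⟩ := hcpt' (-(n : ℝ) * (FA A (pt 1 θ)).im)
  have ht : 0 < t := lt_of_lt_of_le ht0 htt0
  have htlt : t < 1 := lt_of_le_of_lt htt1 ht1
  set v : ℝ := Real.log (1 / t) / n with hv
  have hlog : 0 < Real.log (1 / t) := Real.log_pos (by rw [lt_div_iff₀ ht]; linarith)
  have hv0 : 0 < v := div_pos hlog hn0
  have hlogle : Real.log (1 / t) ≤ L :=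
    Real.log_le_log (by positivity) (one_div_le_one_div_of_le ht0 htt0)
  have hvL : v ≤ L / n := by
    rw [hv]
    gcongr
  have hhalf : v < hA A (pt (1 / 2) θ) := by
    have h5 := h2 A hA0 (pt (1 / 2) θ) (by
      rw [mem_ball_zero_iff, norm_pt _ _ (by norm_num)]
      norm_num)
    rw [norm_pt _ _ (by norm_num), ← hcQ] at h5
    have h6 : L / n < cQ / 2 := by
      rw [div_lt_iff₀ hn0]
      linarith
    linarith
  -- intermediate value
  obtain ⟨r, hr, hrv⟩ : ∃ r ∈ Icc (1 / 2 : ℝ) 1, hA A (pt r θ) = v := by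
    have hc2 : ContinuousOn (fun r : ℝ => hA A (pt r θ)) (Icc (1 / 2) 1) :=
      hcont.mono (Icc_subset_Icc (by norm_num) le_rfl)
    have hiv := intermediate_value_Icc' (by norm_num : (1 / 2 : ℝ) ≤ 1) hc2
    have hvm : v ∈ Icc (hA A (pt 1 θ)) (hA A (pt (1 / 2) θ)) := by
      rw [hzero]
      exact ⟨hv0.le, hhalf.le⟩
    obtain ⟨r, hr, hrv⟩ := hiv hvm
    exact ⟨r, hr, hrv⟩
  have hr1 : r < 1 := by
    rcases lt_or_eq_of_le hr.2 with h5 | h5
    · exact h5
    · exfalso
      rw [h5, hzero] at hrv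
      linarith
  have hr0 : 0 < r := lt_of_lt_of_le (by norm_num) hr.1
  refine ⟨r, hr0, hr1, ?_⟩
  have hQ2 := h2 A hA0 (pt r θ) (by
    rw [mem_ball_zero_iff, norm_pt _ _ hr0.le]
    exact hr1)
  rw [norm_pt _ _ hr0.le, ← hcQ, hrv] at hQ2
  have h1r : 1 - r ≤ c' / n := by
    rw [hc', div_div, le_div_iff₀ (by positivity)]
    have h5 : cQ * (1 - r) ≤ L / n := hQ2.trans hvL
    rw [le_div_iff₀ hn0] at h5
    linarith
  have hpsi : psi A n (pt r θ) = pt t (-(n : ℝ) * (FA A (pt r θ)).im) := by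
    refine psi_eq A n _ t ht ?_
    rw [hrv, hv]
    field_simp
  have hdist : dist (pt t (-(n : ℝ) * (FA A (pt r θ)).im)) (pt t (-(n : ℝ) * (FA A (pt 1 θ)).im)) < s := by
    refine lt_of_le_of_lt (dist_pt t _ _ ht.le htlt.le) ?_
    have h5 : -(n : ℝ) * (FA A (pt r θ)).im - -(n : ℝ) * (FA A (pt 1 θ)).im =
        -(n : ℝ) * ((FA A (pt r θ)).im - (FA A (pt 1 θ)).im) := by ring
    rw [h5, abs_mul, abs_neg, abs_of_pos hn0]
    have h6 := him r hr
    have h7 : C3 * (1 - r) ^ 2 ≤ |C3| * (c' / n) ^ 2 := by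
      have h8 : (1 - r) ^ 2 ≤ (c' / n) ^ 2 := pow_le_pow_left₀ (by linarith) h1r 2
      calc C3 * (1 - r) ^ 2 ≤ |C3| * (1 - r) ^ 2 :=
            mul_le_mul_of_nonneg_right (le_abs_self _) (sq_nonneg _)
        _ ≤ |C3| * (c' / n) ^ 2 := mul_le_mul_of_nonneg_left h8 (abs_nonneg _)
    have h9 : (n : ℝ) * (|C3| * (c' / n) ^ 2) = |C3| * c' ^ 2 / n := by
      field_simp
    have h10 : |C3| * c' ^ 2 / n < s := by
      rw [div_lt_iff₀ hn0]
      linarith
    calc (n : ℝ) * |(FA A (pt r θ)).im - (FA A (pt 1 θ)).im| ≤ n * (|C3| * (c' / n) ^ 2) :=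
          mul_le_mul_of_nonneg_left (h6.trans h7) hn0.le
      _ = |C3| * c' ^ 2 / n := h9
      _ < s := h10
  have hu1 := hus _ (by
    rw [mem_closedBall_zero_iff, norm_pt _ _ ht.le]
    exact htt1) _ (by
    rw [mem_closedBall_zero_iff, norm_pt _ _ ht.le]
    exact htt1) hdist
  rw [Real.dist_eq] at hu1
  rw [hpsi, hrv]
  have h11 := (abs_lt.1 hu1).2
  have h12 : C * v < k / 4 := by
    calc C * v ≤ C * (L / n) := mul_le_mul_of_nonneg_left hvL hC
      _ = C * L / n := by ring
      _ < k / 4 := by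
        rw [div_lt_iff₀ hn0]
        linarith
  linarith

end MPf68f16

end

section

/-!
MP_f68f16_an, item GLUE: the gluing lemma (helper57).
-/

set_option autoImplicit false

open MeasureTheory Metric Set Filter Topology

namespace MPf68f16

private theorem glue_norm_pt (t θ : ℝ) (ht : 0 ≤ t) : ‖pt t θ‖ = t := by
  unfold pt
  rw [norm_mul, Complex.norm_exp_ofReal_mul_I, mul_one, Complex.norm_real, Real.norm_eq_abs,
    abs_of_nonneg ht]

private theorem glue_pt_mem {t : ℝ} (θ : ℝ) (ht : 0 ≤ t) (ht1 : t < 1) :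
    pt t θ ∈ ball (0 : ℂ) 1 := by
  rw [mem_ball_zero_iff, glue_norm_pt t θ ht]
  exact ht1

private theorem glue_norm_psi (A : ℝ) (n : ℕ) (z : ℂ) :
    ‖psi A n z‖ = Real.exp (-(n * hA A z)) := by
  unfold psi hA
  rw [Complex.norm_exp]
  congr 1
  rw [neg_mul, Complex.neg_re, ← Complex.ofReal_natCast, Complex.re_ofReal_mul]

private theorem glue_exp_le {x y s : ℝ} (hs : 0 < s) (h : Real.log (1 / s) ≤ x) (hxy : x ≤ y) :
    Real.exp (-y) ≤ s := by
  rw [← Real.le_log_iff_exp_le hs]
  rw [one_div, Real.log_inv] at h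
  linarith

private theorem glue_ge (c x : ℝ) (hc : 0 < c) : ∃ N : ℕ, ∀ n : ℕ, N ≤ n → x ≤ n * c := by
  obtain ⟨N, hN⟩ := exists_nat_ge (x / c)
  refine ⟨N, fun n hn => ?_⟩
  have h1 : (N : ℝ) ≤ n := by exact_mod_cast hn
  rw [div_le_iff₀ hc] at hN
  nlinarith

theorem prf_GLUE (q1 : S_Q1) (q2 : S_Q2) (cp : S_CPT) (fi : S_FINE) (nr : S_NRE) (na : S_NADD)
    (nc : S_NCOMP) : S_GLUE := by
  intro A d ρ P hA0 hd hρ hP hPn hcov hP0 R hR
  obtain ⟨-, hFd, hh, -⟩ := q1 A hA0
  have h0ball : (0 : ℂ) ∈ ball (0 : ℂ) 1 := mem_ball_self one_pos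
  set T : Set ℝ := {x | ∃ u : ℂ → ℝ, InA u ∧ u 0 = x} with hT
  have hTb : BddAbove T := ⟨1, by rintro _ ⟨u, hu, rfl⟩; exact hu.le_one 0 h0ball⟩
  have hconst : ∀ η : ℝ, 0 < η → -η ∈ T := by
    intro η hη
    refine ⟨fun z => (((-η : ℝ) : ℂ)).re, ⟨nr (fun _ => ((-η : ℝ) : ℂ))
      (differentiableOn_const _), ?_, ?_⟩, Complex.ofReal_re _⟩
    · intro z _
      show (((-η : ℝ) : ℂ)).re ≤ 1
      rw [Complex.ofReal_re]
      linarith
    · intro θ
      refine ⟨1 / 2, by norm_num, by norm_num, ?_⟩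
      show (((-η : ℝ) : ℂ)).re < 0
      rw [Complex.ofReal_re]
      linarith
  have hTne : T.Nonempty := ⟨-1, hconst 1 one_pos⟩
  set S := sSup T with hS
  have hS0 : 0 ≤ S := by
    refine le_of_forall_pos_lt_add fun η hη => ?_
    have := le_csSup hTb (hconst (η / 2) (by positivity))
    linarith
  by_cases hcase : ρ / (1 + ρ) ≤ S
  · obtain ⟨_, ⟨u, hu, rfl⟩, hlt⟩ := exists_lt_of_lt_csSup hTne (hR.trans_le hcase)
    exact ⟨u, hu, hlt⟩
  exfalso
  rw [not_le] at hcase
  have hS1' : S * (1 + ρ) < ρ := (lt_div_iff₀ (by linarith)).1 hcase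
  have hS1 : S < 1 := by
    by_contra h
    rw [not_lt] at h
    nlinarith
  set q0 := ρ - S * (1 + ρ) with hq0
  have hq0p : 0 < q0 := by linarith
  set g := hA A 0 - P 0 with hg
  have hgp : 0 < g := by linarith
  have hgs : 0 < g * (1 - S) := mul_pos hgp (by linarith)
  obtain ⟨_, ⟨u1, hu1, rfl⟩, hlt⟩ := exists_lt_of_lt_csSup hTne
    (show S - g * (1 - S) / 4 < sSup T by linarith)
  set R1 := u1 0 with hR1
  have hR1S : R1 ≤ S := le_csSup hTb ⟨u1, hu1, rfl⟩
  set B := 1 - R1 with hB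
  have hB0 : 0 < B := by linarith
  have hRB : R1 - B * ρ ≤ -q0 := by
    rw [hB, hq0]
    nlinarith
  set τ := min (q0 / 4) (g * (1 - S) / 4) with hτ
  have hτp : 0 < τ := lt_min (by positivity) (by positivity)
  have hτ1 : τ ≤ q0 / 4 := min_le_left _ _
  have hτ2 : τ ≤ g * (1 - S) / 4 := min_le_right _ _
  have hval : S * (1 + τ) < R1 - τ + B * g := by
    have h1 : (1 - S) * g ≤ B * g := by
      apply mul_le_mul_of_nonneg_right _ hgp.le
      linarith
    have h2 : S * τ ≤ τ := by nlinarith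
    nlinarith
  -- continuity at zero
  obtain ⟨s, hs0, hs1, hs⟩ : ∃ s : ℝ, 0 < s ∧ s < 1 ∧ ∀ w : ℂ, ‖w‖ ≤ s → |u1 w - R1| ≤ τ := by
    have hc : ContinuousAt u1 0 := hu1.nice.1.continuousAt (isOpen_ball.mem_nhds h0ball)
    obtain ⟨δ, hδ, hδ'⟩ := Metric.continuousAt_iff.1 hc τ hτp
    refine ⟨min (δ / 2) (1 / 2), lt_min (by positivity) (by norm_num),
      (min_le_right _ _).trans_lt (by norm_num), fun w hw => ?_⟩
    have h1 : dist w 0 < δ := by
      rw [dist_zero_right]
      exact (hw.trans (min_le_left _ _)).trans_lt (by linarith)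
    have := hδ' h1
    rw [Real.dist_eq] at this
    exact this.le
  -- compactness
  have hPc : ContinuousOn P (ball 0 1) := by
    have h1 := hP.1.neg
    have h3 : (-fun z => -P z) = P := by funext z; simp
    rwa [h3] at h1
  have hhc : ContinuousOn (hA A) (ball 0 1) :=
    Complex.continuous_re.comp_continuousOn hFd.continuousOn
  obtain ⟨t0, t1, ρ', ht0, ht01, ht1, hρ', hcp⟩ := cp (fun z => P z - hA A z) ρ (cA A - d)
    (hPc.sub hhc) hcov
  set cQ := A / (2 * Real.pi * (1 + A ^ 2)) with hcQ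
  have hcQ0 : 0 < cQ := by positivity
  obtain ⟨N1, hN1⟩ := glue_ge τ (B * Real.log (1 / s)) hτp
  obtain ⟨N2, hN2⟩ := glue_ge (hA A 0) (Real.log (1 / s)) (hh 0 h0ball).1
  obtain ⟨N3, hN3⟩ := glue_ge (cQ * (1 - t1)) (Real.log (1 / s)) (mul_pos hcQ0 (by linarith))
  obtain ⟨N4, hN4⟩ := fi A d hA0 hd u1 hu1.nice.1 hu1.neg B hB0.le
  set n := max 1 (max N1 (max N2 (max N3 N4))) with hn
  have hn1 : 1 ≤ n := le_max_left _ _
  have hnN1 : N1 ≤ n := (le_max_left _ _).trans (le_max_right _ _)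
  have hnN2 : N2 ≤ n := ((le_max_left _ _).trans (le_max_right _ _)).trans (le_max_right _ _)
  have hnN3 : N3 ≤ n :=
    (((le_max_left _ _).trans (le_max_right _ _)).trans (le_max_right _ _)).trans (le_max_right _ _)
  have hnN4 : N4 ≤ n :=
    (((le_max_right _ _).trans (le_max_right _ _)).trans (le_max_right _ _)).trans
      (le_max_right _ _)
  have hn0 : (0 : ℝ) < n := by exact_mod_cast hn1
  have hpsi : MapsTo (psi A n) (ball 0 1) (ball 0 1) := by
    intro z hz
    rw [mem_ball_zero_iff, glue_norm_psi, Real.exp_lt_one_iff]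
    have := mul_pos hn0 (hh z hz).1
    linarith
  have hpsid : DifferentiableOn ℂ (psi A n) (ball 0 1) := by
    unfold psi
    exact (hFd.const_mul _).cexp
  set v : ℂ → ℝ := fun z => 1 * (1 * u1 (psi A n z) + B * (FA A z).re) + B * (-P z) with hv
  have hvn : Nice v := na _ _ (na _ _ (nc u1 (psi A n) hu1.nice hpsid hpsi) (nr (FA A) hFd) 1 B
    zero_le_one hB0.le) hP 1 B zero_le_one hB0.le
  have hve : ∀ z, v z = u1 (psi A n z) + B * hA A z - B * P z := by
    intro z
    simp only [hv, hA]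
    ring
  set u : ℂ → ℝ := fun z => 1 / (1 + τ) * v z + 0 * v z with hu
  have h1τ : 0 < 1 + τ := by linarith
  have hun : Nice u := na v v hvn hvn _ _ (by positivity) le_rfl
  have hue : ∀ z, u z = v z / (1 + τ) := by
    intro z
    simp only [hu]
    ring
  have huA : InA u := by
    refine ⟨hun, ?_, ?_⟩
    · intro z hz
      rw [hue, div_le_one h1τ, hve]
      have h1 := (hh z hz).1
      have h2 := (hh z hz).2
      have h3 := hPn z hz
      have h4 : 0 ≤ B * P z := mul_nonneg hB0.le h3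
      by_cases hc : ‖psi A n z‖ ≤ s
      · have h5 := (abs_le.1 (hs _ hc)).2
        have h6 : B * hA A z ≤ B := by nlinarith
        linarith
      · rw [not_le, glue_norm_psi, ← Real.log_lt_iff_lt_exp hs0] at hc
        have h5 := hu1.le_one _ (hpsi hz)
        have h6 : (n : ℝ) * hA A z ≤ Real.log (1 / s) := by
          rw [one_div, Real.log_inv]
          linarith
        have h7 := hN1 n hnN1
        have h8 : B * hA A z ≤ τ := by
          have : (n : ℝ) * (B * hA A z) ≤ n * τ := by nlinarith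
          exact le_of_mul_le_mul_left this hn0
        linarith
    · intro θ
      rcases le_total (Real.cos θ) (cA A - d) with hθ | hθ
      · obtain ⟨r, hr0, hr1, hr⟩ := hN4 n hnN4 θ hθ
        refine ⟨r, hr0, hr1, ?_⟩
        rw [hue, hve]
        have h3 := hPn _ (glue_pt_mem θ hr0.le hr1)
        have h4 : 0 ≤ B * P (pt r θ) := mul_nonneg hB0.le h3
        exact div_neg_of_neg_of_pos (by linarith) h1τ
      · obtain ⟨t, ht0', ht1', ht⟩ := hcp θ hθ
        have htp : 0 < t := ht0.trans_le ht0'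
        have htl : t < 1 := ht1'.trans_lt ht1
        refine ⟨t, htp, htl, ?_⟩
        rw [hue, hve]
        have hmem := glue_pt_mem θ htp.le htl
        have h3 := q2 A hA0 _ hmem
        rw [glue_norm_pt t θ htp.le] at h3
        have h4 : cQ * (1 - t1) ≤ hA A (pt t θ) := by
          refine le_trans ?_ h3
          exact mul_le_mul_of_nonneg_left (by linarith) hcQ0.le
        have h5 : ‖psi A n (pt t θ)‖ ≤ s := by
          rw [glue_norm_psi]
          exact glue_exp_le hs0 (hN3 n hnN3) (mul_le_mul_of_nonneg_left h4 hn0.le)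
        have h6 := (abs_le.1 (hs _ h5)).2
        have h7 : B * ρ ≤ B * (P (pt t θ) - hA A (pt t θ)) :=
          mul_le_mul_of_nonneg_left (hρ'.le.trans ht) hB0.le
        rw [mul_sub] at h7
        have h8 : u1 (psi A n (pt t θ)) + B * hA A (pt t θ) - B * P (pt t θ) < 0 := by
          linarith
        exact div_neg_of_neg_of_pos h8 h1τ
  have hu0 : S < u 0 := by
    rw [hue, hve, lt_div_iff₀ h1τ]
    have h5 : ‖psi A n 0‖ ≤ s := by
      rw [glue_norm_psi]
      exact glue_exp_le hs0 (hN2 n hnN2) le_rfl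
    have h6 := (abs_le.1 (hs _ h5)).1
    have h7 : B * hA A 0 - B * P 0 = B * g := by rw [hg]; ring
    linarith
  exact absurd (le_csSup hTb ⟨u, huA, rfl⟩) (not_le.2 hu0)

end MPf68f16

end

section

/-! MP_f68f16_an, item HIT (helper17): the first hitting radius. -/

set_option autoImplicit false

open MeasureTheory Metric Set Filter Topology

namespace MPf68f16

theorem continuous_pt : Continuous (fun p : ℝ × ℝ => pt p.1 p.2) := by
  unfold pt
  fun_prop

theorem prf_HIT : S_HIT := by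
  intro D hD
  have hfc : IsClosed (frontier D) := isClosed_frontier
  have hleast : ∀ θ : ℝ, ∃ m, IsLeast {t : ℝ | 0 ≤ t ∧ t < 1 ∧ pt t θ ∈ frontier D} m := by
    intro θ
    obtain ⟨t', h0, h1, h2⟩ := hD.meets θ
    have hK : IsCompact (Icc (0 : ℝ) t' ∩ {t | pt t θ ∈ frontier D}) := by
      refine isCompact_Icc.inter_right ?_
      exact hfc.preimage (continuous_pt.comp (continuous_id.prodMk continuous_const))
    have hne : (Icc (0 : ℝ) t' ∩ {t | pt t θ ∈ frontier D}).Nonempty := ⟨t', ⟨h0, le_rfl⟩, h2⟩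
    obtain ⟨m, ⟨⟨hm0, hm1⟩, hm2⟩, hm3⟩ := hK.exists_isLeast hne
    refine ⟨m, ⟨hm0, hm1.trans_lt h1, hm2⟩, fun t ht => ?_⟩
    rcases le_total t t' with h | h
    · exact hm3 ⟨⟨ht.1, h⟩, ht.2.2⟩
    · exact hm1.trans h
  choose r hr using hleast
  refine ⟨r, ⟨?_, fun θ => ?_, fun θ => (hr θ).1.2.1, fun θ => (hr θ).1.2.2⟩⟩
  · refine measurable_of_Iic fun c => ?_
    rcases lt_or_ge c 1 with hc | hc
    · have h1 : r ⁻¹' Iic c = Prod.snd ''
          {p : Icc (0 : ℝ) c × ℝ | pt (p.1 : ℝ) p.2 ∈ frontier D} := by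
        ext θ
        constructor
        · intro hθ
          exact ⟨(⟨r θ, (hr θ).1.1, hθ⟩, θ), (hr θ).1.2.2, rfl⟩
        · rintro ⟨⟨t, θ'⟩, ht, rfl⟩
          exact ((hr θ').2 ⟨t.2.1, t.2.2.trans_lt hc, ht⟩).trans t.2.2
      rw [h1]
      have h2 : IsClosed {p : Icc (0 : ℝ) c × ℝ | pt (p.1 : ℝ) p.2 ∈ frontier D} := by
        refine hfc.preimage (f := fun p : Icc (0 : ℝ) c × ℝ => pt (p.1 : ℝ) p.2) ?_
        exact continuous_pt.comp (f := fun p : Icc (0 : ℝ) c × ℝ => ((p.1 : ℝ), p.2))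
          (by fun_prop)
      exact (isClosedMap_snd_of_compactSpace _ h2).measurableSet
    · have h1 : r ⁻¹' Iic c = univ := by
        ext θ
        simp only [mem_preimage, mem_Iic, mem_univ, iff_true]
        exact (hr θ).1.2.1.le.trans hc
      rw [h1]
      exact MeasurableSet.univ
  · refine lt_of_le_of_ne (hr θ).1.1 fun h => ?_
    have h1 := (hr θ).1.2.2
    rw [← h] at h1
    have h2 : pt 0 θ = 0 := by simp [pt]
    rw [h2, hD.isOpen.frontier_eq] at h1
    exact h1.2 hD.zero_mem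

end MPf68f16

end

section

/-!
# Maximum principle for upper semicontinuous submean functions
-/

set_option autoImplicit false

open MeasureTheory Metric Set Filter Topology

namespace MPf68f16

theorem MAX_compact (D : Set ℂ) (w : ℂ → ℝ) (hD : IsOpen D) (hDb : D ⊆ ball 0 1)
    (hw : UpperSemicontinuousOn w D)
    (hb : ∀ ζ ∈ frontier D, ∀ ε : ℝ, 0 < ε → ∀ᶠ z in 𝓝[D] ζ, w z < ε) (δ : ℝ) (hδ : 0 < δ) :
    IsCompact {z | z ∈ D ∧ δ ≤ w z} := by
  apply Metric.isCompact_of_isClosed_isBounded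
  · rw [← closure_subset_iff_isClosed]
    intro ζ hζ
    have h1 : ζ ∈ closure D := closure_mono (fun z hz => hz.1) hζ
    have h2 : ∃ᶠ z in 𝓝[D] ζ, δ ≤ w z := by
      rw [frequently_nhdsWithin_iff]
      have := mem_closure_iff_frequently.1 hζ
      exact this.mono fun z hz => ⟨hz.2, hz.1⟩
    by_cases h3 : ζ ∈ D
    · refine ⟨h3, ?_⟩
      by_contra h4
      push Not at h4
      have h5 := hw ζ h3 δ h4
      obtain ⟨z, hz1, hz2⟩ := (h2.and_eventually h5).exists
      exact absurd hz2 (not_lt.2 hz1)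
    · exfalso
      have h4 : ζ ∈ frontier D := by
        rw [hD.frontier_eq]
        exact ⟨h1, h3⟩
      obtain ⟨z, hz1, hz2⟩ := (h2.and_eventually (hb ζ h4 δ hδ)).exists
      exact absurd hz2 (not_lt.2 hz1)
  · exact isBounded_ball.subset fun z hz => hDb hz.1

theorem prf_MAX : S_MAX := by
  intro D w hD hDb hw hlow hsub hb
  by_contra hcon
  push Not at hcon
  obtain ⟨z1, hz1, hw1⟩ := hcon
  obtain ⟨M, hM⟩ := hlow
  have hK := MAX_compact D w hD hDb hw hb (w z1) hw1
  have hne : {z | z ∈ D ∧ w z1 ≤ w z}.Nonempty := ⟨z1, hz1, le_rfl⟩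
  obtain ⟨a, haK, hamax⟩ := UpperSemicontinuousOn.exists_isMaxOn hne hK
    (hw.mono fun z hz => hz.1)
  have hm0 : 0 < w a := lt_of_lt_of_le hw1 haK.2
  have hmax : ∀ z ∈ D, w z ≤ w a := by
    intro z hz
    by_cases h : w z1 ≤ w z
    · exact hamax (show z ∈ {z | z ∈ D ∧ w z1 ≤ w z} from ⟨hz, h⟩)
    · push Not at h
      exact h.le.trans haK.2
  have hZ := MAX_compact D w hD hDb hw hb (w a) hm0
  obtain ⟨z0, hz0, hre⟩ := hZ.exists_isMaxOn ⟨a, haK.1, le_rfl⟩ Complex.continuous_re.continuousOn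
  obtain ⟨ε, hε, hball⟩ := Metric.isOpen_iff.1 hD z0 hz0.1
  have hr : 0 < ε / 2 := by positivity
  have hcb : closedBall z0 (ε / 2) ⊆ D :=
    (closedBall_subset_ball (by linarith)).trans hball
  have hcirc : ∀ θ, circleMap z0 (ε / 2) θ ∈ D := fun θ =>
    hcb (circleMap_mem_closedBall z0 hr.le θ)
  set h : ℝ → ℝ := fun θ => w (circleMap z0 (ε / 2) θ) with hh
  have husc : UpperSemicontinuous h := by
    intro θ y hy
    have h1 := hw _ (hcirc θ) y hy
    have h2 : Tendsto (circleMap z0 (ε / 2)) (𝓝 θ) (𝓝[D] (circleMap z0 (ε / 2) θ)) := by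
      apply tendsto_nhdsWithin_iff.2
      exact ⟨(continuous_circleMap z0 (ε / 2)).continuousAt, Eventually.of_forall hcirc⟩
    exact h2.eventually h1
  have hmeas : Measurable h := husc.measurable
  have hint : ∀ x y : ℝ, IntervalIntegrable h volume x y := by
    intro x y
    rw [intervalIntegrable_iff]
    apply Measure.integrableOn_of_bounded (M := max M (w a))
    · exact (measure_lt_top_of_subset uIoc_subset_uIcc (isCompact_uIcc.measure_lt_top.ne)).ne
    · exact hmeas.aestronglyMeasurable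
    · refine Eventually.of_forall fun θ => ?_
      rw [Real.norm_eq_abs, abs_le]
      constructor
      · have h1 := hM _ (hcirc θ)
        have h2 := le_max_left M (w a)
        show _ ≤ w (circleMap z0 (ε / 2) θ)
        linarith
      · exact (hmax _ (hcirc θ)).trans (le_max_right _ _)
  have h0 : h 0 < w a := by
    by_contra hn
    push Not at hn
    have h1 : circleMap z0 (ε / 2) 0 ∈ {z | z ∈ D ∧ w a ≤ w z} := ⟨hcirc 0, hn⟩
    have h2 := hre h1
    simp [circleMap] at h2
    linarith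
  obtain ⟨c, hc1, hc2⟩ := exists_between h0
  have h1 := husc 0 c hc1
  obtain ⟨η, hη, hηb⟩ := Metric.eventually_nhds_iff.1 h1
  have hpi := Real.pi_pos
  let t := min (η / 2) Real.pi
  have ht0 : 0 < t := lt_min (by positivity) hpi
  have ht1 : t < η := lt_of_le_of_lt (min_le_left _ _) (by linarith)
  have ht2 : t ≤ Real.pi := min_le_right _ _
  have hI1 : ∫ θ in (0 : ℝ)..t, h θ ≤ c * t := by
    have h2 : ∫ θ in (0 : ℝ)..t, h θ ≤ ∫ θ in (0 : ℝ)..t, c := by
      apply intervalIntegral.integral_mono_on ht0.le (hint _ _) (by simp)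
      intro θ hθ
      apply (hηb _).le
      rw [Real.dist_eq, sub_zero, abs_of_nonneg hθ.1]
      linarith [hθ.2]
    rw [intervalIntegral.integral_const] at h2
    simpa [mul_comm] using h2
  have hI2 : ∫ θ in t..(2 * Real.pi), h θ ≤ w a * (2 * Real.pi - t) := by
    have h2 : ∫ θ in t..(2 * Real.pi), h θ ≤ ∫ θ in t..(2 * Real.pi), w a := by
      apply intervalIntegral.integral_mono_on (by linarith) (hint _ _) (by simp)
      intro θ _
      exact hmax _ (hcirc θ)
    rw [intervalIntegral.integral_const] at h2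
    simpa [mul_comm] using h2
  have hI := intervalIntegral.integral_add_adjacent_intervals (hint 0 t) (hint t (2 * Real.pi))
  have hs := hsub z0 (ε / 2) hr hcb
  rw [Real.circleAverage_def] at hs
  have hs2 : (2 * Real.pi)⁻¹ • ∫ θ in (0 : ℝ)..(2 * Real.pi), w (circleMap z0 (ε / 2) θ) < w a := by
    show (2 * Real.pi)⁻¹ * ∫ θ in (0 : ℝ)..(2 * Real.pi), h θ < w a
    rw [inv_mul_lt_iff₀ (by positivity), ← hI]
    have h3 : c * t < w a * t := mul_lt_mul_of_pos_right hc2 ht0
    nlinarith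
  exact absurd (lt_of_le_of_lt hs hs2) (not_lt.2 hz0.2)

end MPf68f16

end

section

/-!
# MOM: power sums of the nodes (helper69)
-/

set_option autoImplicit false

open Finset

namespace MPf68f16

theorem MOM_reflect (N j : ℕ) (hj : j < N) : node N (N - 1 - j) = - node N j := by
  unfold node
  rw [← Real.cos_pi_sub]
  congr 1
  have hN : (N : ℝ) ≠ 0 := by
    have : 0 < N := by omega
    exact_mod_cast this.ne'
  have h : ((N - 1 - j : ℕ) : ℝ) = (N : ℝ) - 1 - j := by
    rw [Nat.cast_sub (by omega), Nat.cast_sub (by omega)]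
    push_cast
    ring
  rw [h]
  field_simp
  ring

theorem MOM_odd (N k : ℕ) (hk : Odd k) : ∑ j ∈ range N, node N j ^ k = 0 := by
  have h := Finset.sum_range_reflect (fun j => node N j ^ k) N
  have h2 : ∑ j ∈ range N, node N (N - 1 - j) ^ k = ∑ j ∈ range N, -(node N j ^ k) := by
    refine Finset.sum_congr rfl fun j hj => ?_
    rw [MOM_reflect N j (Finset.mem_range.1 hj), hk.neg_pow]
  rw [h2, Finset.sum_neg_distrib] at h
  linarith

theorem MOM_cos (N : ℕ) (hN : 2 ≤ N) :
    ∑ j ∈ range N, Real.cos (2 * ((2 * j + 1) * Real.pi / (2 * N))) = 0 := by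
  have hN0 : (0 : ℝ) < N := by
    have : 0 < N := by omega
    exact_mod_cast this
  have hN2 : (2 : ℝ) ≤ N := by exact_mod_cast hN
  have hs : 0 < Real.sin (Real.pi / N) := by
    apply Real.sin_pos_of_pos_of_lt_pi
    · positivity
    · rw [div_lt_iff₀ hN0]
      nlinarith [Real.pi_pos]
  have h1 : ∀ j : ℕ, 2 * Real.sin (Real.pi / N) *
      Real.cos (2 * ((2 * j + 1) * Real.pi / (2 * N))) =
      Real.sin (2 * ((j + 1 : ℕ) : ℝ) * Real.pi / N) - Real.sin (2 * (j : ℝ) * Real.pi / N) := by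
    intro j
    rw [Real.sin_sub_sin]
    have e1 : (2 * ((j + 1 : ℕ) : ℝ) * Real.pi / N - 2 * (j : ℝ) * Real.pi / N) / 2 =
        Real.pi / N := by
      push_cast
      field_simp
      ring
    have e2 : (2 * ((j + 1 : ℕ) : ℝ) * Real.pi / N + 2 * (j : ℝ) * Real.pi / N) / 2 =
        2 * ((2 * j + 1) * Real.pi / (2 * N)) := by
      push_cast
      field_simp
      ring
    rw [e1, e2]
  have h2 : 2 * Real.sin (Real.pi / N) *
      ∑ j ∈ range N, Real.cos (2 * ((2 * j + 1) * Real.pi / (2 * N))) = 0 := by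
    rw [Finset.mul_sum, Finset.sum_congr rfl fun j _ => h1 j,
      Finset.sum_range_sub (fun j => Real.sin (2 * (j : ℝ) * Real.pi / N))]
    have e3 : 2 * (N : ℝ) * Real.pi / N = 2 * Real.pi := by field_simp
    rw [e3]
    simp
  rcases mul_eq_zero.1 h2 with h | h
  · exfalso
    have : 0 < 2 * Real.sin (Real.pi / N) := by positivity
    exact this.ne' h
  · exact h

theorem prf_MOM : S_MOM := by
  intro N hN
  refine ⟨?_, ?_, MOM_odd N 3 (by decide)⟩
  · have := MOM_odd N 1 odd_one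
    simpa using this
  · have h : ∀ j ∈ range N, node N j ^ 2 = 1 / 2 +
        Real.cos (2 * ((2 * j + 1) * Real.pi / (2 * N))) / 2 := by
      intro j _
      unfold node
      rw [Real.cos_sq]
    have h2 : ∑ j ∈ range N, Real.cos (2 * ((2 * j + 1) * Real.pi / (2 * N))) / 2 = 0 := by
      rw [← Finset.sum_div, MOM_cos N hN, zero_div]
    rw [Finset.sum_congr rfl h, Finset.sum_add_distrib, h2, Finset.sum_const, card_range,
      nsmul_eq_mul]
    ring

end MPf68f16

end
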