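import Pool.Agent.Work.MP_f68f16_an.Stmts
import Pool.Agent.Work.MP_f68f16_an.Item_N2
import Pool.Agent.Work.MP_f68f16_an.Bd.B02
import Pool.Agent.Work.MP_f68f16_an.Item_P1

/-! Bundle of small proof modules (one section per former module). -/

section

/-! Assembly of the upper bound. -/

set_option autoImplicit false

open MeasureTheory Metric Set Filter Topology

namespace MPf68f16

theorem K0_ge : (1 : ℝ) ≤ K0 := by unfold K0; norm_num

theorem upper_of (hN6 : S_N6) (hHIT : S_HIT) (h1 : S_POT1) (h2 : S_POT2) (h3 : S_POT3)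
    (h4 : S_POT4) (h5 : S_POT5) (hCI : S_CI) (hMAX : S_MAX) : S_UPPER := by
  intro D hD
  obtain ⟨H, hH⟩ := hN6
  obtain ⟨r, hr⟩ := hHIT D hD
  have hK := K0_ge
  have hK' : (0 : ℝ) < K0 := by linarith
  refine Real.sSup_le ?_ (by norm_num)
  rintro t ⟨u, hu, rfl⟩
  have key : ∀ ρ : ℝ, ρ < 1 → u 0 ≤ 1 - pot r ρ 0 / K0 := by
    intro ρ hρ
    have hpc : ContinuousOn (pot r ρ) D := h1 D r ρ hD hr hρ
    have hpk : ∀ z ∈ D, 0 ≤ pot r ρ z ∧ pot r ρ z ≤ K0 := fun z hz =>
      h4 H K0 hH hK r hr.meas hr.pos hr.lt_one ρ z (by simpa using hD.subset hz)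
    have hw := hMAX D (fun z => u z + (pot r ρ z / K0 - 1)) hD.isOpen hD.subset ?_ ?_ ?_ ?_ 0
      hD.zero_mem
    · linarith
    · refine hu.usc.add ?_
      exact ((hpc.div_const K0).sub continuousOn_const).upperSemicontinuousOn
    · refine ⟨1, fun z hz => ?_⟩
      have h := hu.nonneg z hz
      have h' : 0 ≤ pot r ρ z / K0 := div_nonneg (hpk z hz).1 hK'.le
      linarith
    · intro z s hs hzs
      have hz : z ∈ D := hzs (mem_closedBall_self hs.le)
      have hci : CircleIntegrable u z s := hCI D u hu.usc hu.nonneg z s hs hzs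
      have hsph : sphere z |s| ⊆ D := by
        rw [abs_of_pos hs]
        exact sphere_subset_closedBall.trans hzs
      have hc1 : ContinuousOn (fun z => pot r ρ z / K0 - 1) (sphere z |s|) :=
        ((hpc.div_const K0).sub continuousOn_const).mono hsph
      have hci2 : CircleIntegrable (fun z => pot r ρ z / K0 - 1) z s := hc1.circleIntegrable'
      have hci3 : CircleIntegrable (pot r ρ) z s := (hpc.mono hsph).circleIntegrable'
      have e1 : Real.circleAverage (fun z => u z + (pot r ρ z / K0 - 1)) z s =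
          Real.circleAverage u z s + Real.circleAverage (fun z => pot r ρ z / K0 - 1) z s :=
        Real.circleAverage_fun_add hci hci2
      have e2 : Real.circleAverage (fun z => pot r ρ z / K0 - 1) z s = pot r ρ z / K0 - 1 := by
        have e3 : (fun z => pot r ρ z / K0 - 1) = fun z => K0⁻¹ • pot r ρ z - 1 := by
          funext z
          rw [smul_eq_mul, div_eq_inv_mul]
        have hci4 : CircleIntegrable (fun z => K0⁻¹ • pot r ρ z) z s := hci3.const_smul
        rw [e3, Real.circleAverage_fun_sub hci4 (circleIntegrable_const _ _ _),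
          Real.circleAverage_fun_smul, Real.circleAverage_const, h2 D r ρ hD hr hρ z s hs hzs,
          smul_eq_mul, div_eq_inv_mul]
      rw [e1, e2]
      have := hu.submean z s hs hzs
      linarith
    · intro ζ hζ ε hε
      have hζ1 : ‖ζ‖ ≤ 1 := by
        have : ζ ∈ closedBall (0 : ℂ) 1 := by
          have h := frontier_subset_closure hζ
          have h' := closure_mono hD.subset h
          exact closure_ball_subset_closedBall h'
        simpa using this
      rcases hζ1.lt_or_eq with hlt | heq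
      · filter_upwards [hu.inner ζ hζ hlt ε hε, self_mem_nhdsWithin] with z hz hzD
        have h' : pot r ρ z / K0 ≤ 1 := (div_le_one hK').2 (hpk z hzD).2
        linarith
      · obtain ⟨s, hs, hs'⟩ := h3 r hr.meas hr.pos hr.lt_one ρ (ε / 2) hρ (by linarith)
        have hev : ∀ᶠ z in 𝓝[D] ζ, s < ‖z‖ := by
          refine (eventually_nhdsWithin_of_eventually_nhds ?_)
          exact (continuous_norm.tendsto ζ).eventually (lt_mem_nhds (by rw [heq]; exact hs))
        filter_upwards [hu.outer ζ hζ heq (ε / 2) (by linarith), self_mem_nhdsWithin, hev] with z hz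
          hzD hzs
        have hz1 : ‖z‖ < 1 := by simpa using hD.subset hzD
        have h' := hs' z hzs hz1
        have h'' : pot r ρ z / K0 ≤ pot r ρ z := div_le_self (hpk z hzD).1 hK
        linarith
  refine le_of_forall_pos_le_add fun ε hε => ?_
  obtain ⟨ρ, hρ, hρ'⟩ := h5 r hr.meas hr.pos hr.lt_one ε hε
  have hk := key ρ hρ
  have : (1 - ε) / K0 ≤ pot r ρ 0 / K0 := by gcongr
  have e : (1 - ε) / K0 = 0.906 - 0.906 * ε := by unfold K0; ring
  linarith

end MPf68f16

end

section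

/-! Item N5: table of 14 nodes (helper90). -/

set_option autoImplicit false

open MeasureTheory Metric Set Filter Topology

namespace MPf68f16

namespace N5

theorem cert (X r R : ℝ) (h1 : 0 ≤ X) (hr : 0 ≤ r)
    (h2 : r ≤ ∑ k ∈ Finset.range 12, (X / 16) ^ k / (Nat.factorial k : ℝ))
    (hR : 0 < R) (h3 : R ≤ r ^ 16) : Real.log R ≤ X := by
  rw [Real.log_le_iff_le_exp hR]
  have h4 : r ≤ Real.exp (X / 16) := h2.trans (Real.sum_le_exp_of_nonneg (by linarith) 12)
  have h5 : Real.exp X = Real.exp (X / 16) ^ 16 := by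
    rw [← Real.exp_nat_mul]
    congr 1
    push_cast
    ring
  rw [h5]
  exact h3.trans (pow_le_pow_left₀ hr h4 16)

theorem n0 (h : S_N2) (η : ℝ) (hη : 0 < η) : gH 0.485 1 η ≤ η * 1.6336 := by
  refine h 0.485 1.6336 0.50156 0.50157 (by norm_num) (by norm_num) (by norm_num) (by norm_num)
    (by norm_num) (by norm_num) (by norm_num) (by norm_num) ?_ η hη
  refine cert _ (553923533 / 500000000) _ (by norm_num) (by norm_num) ?_ (by norm_num) (by norm_num)
  norm_num [Finset.sum_range_succ, Nat.factorial]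

theorem n1 (h : S_N2) (η : ℝ) (hη : 0 < η) : gH 0.404 1 η ≤ η * 1.7792 := by
  refine h 0.404 1.7792 0.66923 0.66924 (by norm_num) (by norm_num) (by norm_num) (by norm_num)
    (by norm_num) (by norm_num) (by norm_num) (by norm_num) ?_ η hη
  refine cert _ (1160483527 / 1000000000) _ (by norm_num) (by norm_num) ?_ (by norm_num) (by norm_num)
  norm_num [Finset.sum_range_succ, Nat.factorial]

theorem n2 (h : S_N2) (η : ℝ) (hη : 0 < η) : gH 0.333 1 η ≤ η * 1.9390 := by
  refine h 0.333 1.9390 0.77434 0.77435 (by norm_num) (by norm_num) (by norm_num) (by norm_num)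
    (by norm_num) (by norm_num) (by norm_num) (by norm_num) ?_ η hη
  refine cert _ (1206448183 / 1000000000) _ (by norm_num) (by norm_num) ?_ (by norm_num) (by norm_num)
  norm_num [Finset.sum_range_succ, Nat.factorial]

theorem n3 (h : S_N2) (η : ℝ) (hη : 0 < η) : gH 0.271 1 η ≤ η * 2.1152 := by
  refine h 0.271 2.1152 0.84602 0.84603 (by norm_num) (by norm_num) (by norm_num) (by norm_num)
    (by norm_num) (by norm_num) (by norm_num) (by norm_num) ?_ η hη
  refine cert _ (250136071 / 200000000) _ (by norm_num) (by norm_num) ?_ (by norm_num) (by norm_num)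
  norm_num [Finset.sum_range_succ, Nat.factorial]

theorem n4 (h : S_N2) (η : ℝ) (hη : 0 < η) : gH 0.218 1 η ≤ η * 2.3071 := by
  refine h 0.218 2.3071 0.89564 0.89565 (by norm_num) (by norm_num) (by norm_num) (by norm_num)
    (by norm_num) (by norm_num) (by norm_num) (by norm_num) ?_ η hη
  refine cert _ (647358009 / 500000000) _ (by norm_num) (by norm_num) ?_ (by norm_num) (by norm_num)
  norm_num [Finset.sum_range_succ, Nat.factorial]

theorem n5 (h : S_N2) (η : ℝ) (hη : 0 < η) : gH 0.172 1 η ≤ η * 2.5217 := by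
  refine h 0.172 2.5217 0.93105 0.93106 (by norm_num) (by norm_num) (by norm_num) (by norm_num)
    (by norm_num) (by norm_num) (by norm_num) (by norm_num) ?_ η hη
  refine cert _ (1341084477 / 1000000000) _ (by norm_num) (by norm_num) ?_ (by norm_num) (by norm_num)
  norm_num [Finset.sum_range_succ, Nat.factorial]

theorem n6 (h : S_N2) (η : ℝ) (hη : 0 < η) : gH 0.136 1 η ≤ η * 2.7393 := by
  refine h 0.136 2.7393 0.95404 0.95405 (by norm_num) (by norm_num) (by norm_num) (by norm_num)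
    (by norm_num) (by norm_num) (by norm_num) (by norm_num) ?_ η hη
  refine cert _ (1386351147 / 1000000000) _ (by norm_num) (by norm_num) ?_ (by norm_num) (by norm_num)
  norm_num [Finset.sum_range_succ, Nat.factorial]

theorem n7 (h : S_N2) (η : ℝ) (hη : 0 < η) : gH 0.107 1 η ≤ η * 2.9657 := by
  refine h 0.107 2.9657 0.96956 0.96957 (by norm_num) (by norm_num) (by norm_num) (by norm_num)
    (by norm_num) (by norm_num) (by norm_num) (by norm_num) ?_ η hη
  refine cert _ (1432509801 / 1000000000) _ (by norm_num) (by norm_num) ?_ (by norm_num) (by norm_num)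
  norm_num [Finset.sum_range_succ, Nat.factorial]

theorem n8 (h : S_N2) (η : ℝ) (hη : 0 < η) : gH 0.085 1 η ≤ η * 3.1860 := by
  refine h 0.085 3.1860 0.97949 0.97950 (by norm_num) (by norm_num) (by norm_num) (by norm_num)
    (by norm_num) (by norm_num) (by norm_num) (by norm_num) ?_ η hη
  refine cert _ (184637719 / 125000000) _ (by norm_num) (by norm_num) ?_ (by norm_num) (by norm_num)
  norm_num [Finset.sum_range_succ, Nat.factorial]

theorem n9 (h : S_N2) (η : ℝ) (hη : 0 < η) : gH 0.067 1 η ≤ η * 3.4163 := by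
  refine h 0.067 3.4163 0.98638 0.98639 (by norm_num) (by norm_num) (by norm_num) (by norm_num)
    (by norm_num) (by norm_num) (by norm_num) (by norm_num) ?_ η hη
  refine cert _ (304764277 / 200000000) _ (by norm_num) (by norm_num) ?_ (by norm_num) (by norm_num)
  norm_num [Finset.sum_range_succ, Nat.factorial]

theorem n10 (h : S_N2) (η : ℝ) (hη : 0 < η) : gH 0.052 1 η ≤ η * 3.6638 := by
  refine h 0.052 3.6638 0.99120 0.99121 (by norm_num) (by norm_num) (by norm_num) (by norm_num)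
    (by norm_num) (by norm_num) (by norm_num) (by norm_num) ?_ η hη
  refine cert _ (1574511113 / 1000000000) _ (by norm_num) (by norm_num) ?_ (by norm_num) (by norm_num)
  norm_num [Finset.sum_range_succ, Nat.factorial]

theorem n11 (h : S_N2) (η : ℝ) (hη : 0 < η) : gH 0.040 1 η ≤ η * 3.9218 := by
  refine h 0.040 3.9218 0.99442 0.99443 (by norm_num) (by norm_num) (by norm_num) (by norm_num)
    (by norm_num) (by norm_num) (by norm_num) (by norm_num) ?_ η hη
  refine cert _ (814111751 / 500000000) _ (by norm_num) (by norm_num) ?_ (by norm_num) (by norm_num)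
  norm_num [Finset.sum_range_succ, Nat.factorial]

theorem n12 (h : S_N2) (η : ℝ) (hη : 0 < η) : gH 0.029 1 η ≤ η * 4.2397 := by
  refine h 0.029 4.2397 0.99681 0.99682 (by norm_num) (by norm_num) (by norm_num) (by norm_num)
    (by norm_num) (by norm_num) (by norm_num) (by norm_num) ?_ η hη
  refine cert _ (211999869 / 125000000) _ (by norm_num) (by norm_num) ?_ (by norm_num) (by norm_num)
  norm_num [Finset.sum_range_succ, Nat.factorial]

theorem n13 (h : S_N2) (η : ℝ) (hη : 0 < η) : gH 0.021 1 η ≤ η * 4.5602 := by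
  refine h 0.021 4.5602 0.99819 0.99820 (by norm_num) (by norm_num) (by norm_num) (by norm_num)
    (by norm_num) (by norm_num) (by norm_num) (by norm_num) ?_ η hη
  refine cert _ (220810969 / 125000000) _ (by norm_num) (by norm_num) ?_ (by norm_num) (by norm_num)
  norm_num [Finset.sum_range_succ, Nat.factorial]

end N5

open N5 in
theorem prf_N5 (h : S_N2) : S_N5 := fun η hη =>
  ⟨n0 h η hη, n1 h η hη, n2 h η hη, n3 h η hη, n4 h η hη, n5 h η hη, n6 h η hη, n7 h η hη, n8 h η hη, n9 h η hη, n10 h η hη, n11 h η hη, n12 h η hη, n13 h η hη⟩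

end MPf68f16

end

section

set_option autoImplicit false

namespace MPf68f16

theorem prf_NUM2 : S_NUM2 := by
  unfold S_NUM2
  have hle : (2 * 0.281 / (1 + 0.2811 ^ 2 - 0.281 ^ 2) : ℝ) ≤ 0.56197 := by norm_num
  have hmono := Real.arctan_mono hle
  have ha := arctan_le_poly 0.56197 (by norm_num)
  have hl := log_ge
  have hpi := Real.pi_gt_d6
  have hdiv : Real.arctan (2 * 0.281 / (1 + 0.2811 ^ 2 - 0.281 ^ 2)) / Real.pi ≤ 0.162975 := by
    rw [div_le_iff₀ Real.pi_pos]
    refine le_trans hmono (le_trans ha ?_)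
    norm_num
    nlinarith
  refine lt_of_le_of_lt (b := 0.06953 + 0.162975 + 0.00002) (by linarith) ?_
  norm_num at *
  nlinarith

end MPf68f16

end

section

/-! Item PER: periodised kernel bound (helper90). -/

set_option autoImplicit false

open MeasureTheory Metric Set Filter Topology

namespace MPf68f16

namespace PER

/-- Unfolding of a periodisation. -/
theorem unfold_int (F : ℝ → ENNReal) (hF : Measurable F) :
    ∫⁻ θ in Ioc 0 (2 * Real.pi), ∑' k : ℤ, F (θ + 2 * Real.pi * k) = ∫⁻ x, F x := by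
  have hp : (0 : ℝ) < 2 * Real.pi := by positivity
  have h0 : ∀ k : ℤ, AEMeasurable (fun θ : ℝ => F (θ + 2 * Real.pi * k))
      (volume.restrict (Ioc 0 (2 * Real.pi))) := fun k =>
    (hF.comp (measurable_id.add_const _)).aemeasurable
  rw [lintegral_tsum h0]
  have h1 : ∫⁻ x, F x = ∑' k : ℤ, ∫⁻ x in Ioc (0 + k • (2 * Real.pi))
      (0 + (k + 1) • (2 * Real.pi)), F x := by
    rw [← lintegral_iUnion (fun _ => measurableSet_Ioc)
      (pairwise_disjoint_Ioc_add_zsmul (0 : ℝ) (2 * Real.pi)), iUnion_Ioc_add_zsmul hp 0,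
      Measure.restrict_univ]
  rw [h1]
  refine tsum_congr fun k => ?_
  have h2 := (measurePreserving_add_right (volume : Measure ℝ)
    (2 * Real.pi * k)).setLIntegral_comp_preimage_emb (measurableEmbedding_addRight _) F
    (Ioc (0 + k • (2 * Real.pi)) (0 + (k + 1) • (2 * Real.pi)))
  rw [← h2, Set.preimage_add_const_Ioc]
  congr 2
  congr 1
  · simp [mul_comm]
  · simp only [zsmul_eq_mul, Int.cast_add, Int.cast_one, zero_add]
    ring

/-- Scaling and translation. -/
theorem scale (G : ℝ → ENNReal) (hG : Measurable G) (φ : ℝ) {y : ℝ} (hy : 0 < y) :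
    ∫⁻ x, ENNReal.ofReal (1 / y) * G ((x - φ) / y) = ∫⁻ x, G x := by
  have hm : Measurable fun x : ℝ => G (x / y) := hG.comp (measurable_id.div_const y)
  have h1 : ∫⁻ x, ENNReal.ofReal (1 / y) * G ((x - φ) / y) =
      ∫⁻ x, ENNReal.ofReal (1 / y) * G (x / y) :=
    lintegral_sub_right_eq_self (fun x => ENNReal.ofReal (1 / y) * G (x / y)) φ
  rw [h1, lintegral_const_mul _ hm]
  have ha : (1 / y : ℝ) ≠ 0 := by positivity
  have h2 := Real.smul_map_volume_mul_left ha
  conv_rhs => rw [← h2]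
  rw [lintegral_smul_measure, lintegral_map hG (measurable_const_mul _), abs_of_pos (by positivity)]
  simp only [smul_eq_mul]
  congr 2
  funext x
  congr 1
  ring

theorem gH_scale {x y η : ℝ} (hy : 0 < y) : gH x y η = gH (x / y) 1 (η / y) := by
  unfold gH
  congr 2
  have h1 : (x / y) ^ 2 + (1 + η / y) ^ 2 = (x ^ 2 + (y + η) ^ 2) / y ^ 2 := by
    field_simp
  have h2 : (x / y) ^ 2 + (1 - η / y) ^ 2 = (x ^ 2 + (y - η) ^ 2) / y ^ 2 := by
    field_simp
  rw [h1, h2, div_div_div_cancel_right₀ (by positivity)]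

end PER

open PER in
theorem prf_PER (h : S_P1) (_h0 : S_POT0) : S_PER := by
  intro H K hM hK z hz r hr hr0 hr1
  have hpi := Real.pi_pos
  have hvol : volume (Ioc 0 (2 * Real.pi)) = ENNReal.ofReal (2 * Real.pi) := by
    rw [Real.volume_Ioc, sub_zero]
  have hη : ∀ θ, 0 < Real.log (1 / r θ) := fun θ =>
    Real.log_pos (by rw [lt_div_iff₀ (hr0 θ), one_mul]; exact hr1 θ)
  by_cases hz0 : z = 0
  · subst hz0
    have e : ∀ θ, gD 0 (pt (r θ) θ) / Real.log (1 / r θ) = 1 := by
      intro θ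
      have : ‖pt (r θ) θ‖ = r θ := by
        unfold pt
        rw [norm_mul, Complex.norm_exp_ofReal_mul_I, mul_one, Complex.norm_real,
          Real.norm_eq_abs, abs_of_pos (hr0 θ)]
      unfold gD
      rw [mul_zero, sub_zero, zero_sub, norm_neg, this, norm_one]
      exact div_self (hη θ).ne'
    simp only [e, ENNReal.ofReal_one, lintegral_const, one_mul, Measure.restrict_apply,
      MeasurableSet.univ, univ_inter]
    rw [hvol]
    apply ENNReal.ofReal_le_ofReal
    nlinarith
  -- the general case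
  have hzn : 0 < ‖z‖ := norm_pos_iff.2 hz0
  have hz1 : ‖z‖ < 1 := by simpa using hz
  set y : ℝ := -Real.log ‖z‖ with hy
  have hy0 : 0 < y := by
    rw [hy]
    exact neg_pos.2 (Real.log_neg hzn hz1)
  set φ : ℝ := Complex.arg z with hφ
  have hzpt : z = pt (Real.exp (-y)) φ := by
    unfold pt
    rw [hy, neg_neg, Real.exp_log hzn, hφ]
    exact (Complex.norm_mul_exp_arg_mul_I z).symm
  set F : ℝ → ENNReal := fun x => ENNReal.ofReal (1 / y) * ENNReal.ofReal (H ((x - φ) / y)) with hF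
  have hFm : Measurable F := by
    have := hM.meas
    fun_prop
  have key : ∀ θ, (∀ k : ℤ, θ - φ + 2 * Real.pi * k ≠ 0) →
      ENNReal.ofReal (gD z (pt (r θ) θ) / Real.log (1 / r θ)) ≤
        ∑' k : ℤ, F (θ + 2 * Real.pi * k) := by
    intro θ hθ
    set η : ℝ := Real.log (1 / r θ) with hηd
    have hη0 : 0 < η := hη θ
    have hrη : r θ = Real.exp (-η) := by
      rw [hηd, Real.log_div one_ne_zero (hr0 θ).ne', Real.log_one, zero_sub, neg_neg,
        Real.exp_log (hr0 θ)]
    have h1 := h y η φ θ hy0 hη0 hθ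
    rw [← hzpt, ← hrη] at h1
    have h2 : Tendsto (fun N : ℕ => ENNReal.ofReal
        ((∑ k ∈ Finset.Icc (-(N : ℤ)) N, gH (θ - φ + 2 * Real.pi * k) y η) / η)) atTop
        (𝓝 (ENNReal.ofReal (gD z (pt (r θ) θ) / η))) :=
      ENNReal.tendsto_ofReal (h1.div_const η)
    refine le_of_tendsto h2 (Eventually.of_forall fun N => ?_)
    refine le_trans ?_ (ENNReal.sum_le_tsum (Finset.Icc (-(N : ℤ)) N))
    rw [Finset.sum_div]
    have h3 : ∀ k : ℤ, gH (θ - φ + 2 * Real.pi * k) y η / η ≤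
        1 / y * H ((θ + 2 * Real.pi * k - φ) / y) := by
      intro k
      rw [gH_scale hy0]
      have h4 := hM.bound ((θ - φ + 2 * Real.pi * k) / y) (η / y)
        (div_ne_zero (hθ k) hy0.ne') (div_pos hη0 hy0)
      have e : θ + 2 * Real.pi * k - φ = θ - φ + 2 * Real.pi * k := by ring
      rw [e, div_le_iff₀ hη0]
      refine h4.trans (le_of_eq ?_)
      field_simp
    calc ENNReal.ofReal (∑ k ∈ Finset.Icc (-(N : ℤ)) N, gH (θ - φ + 2 * Real.pi * k) y η / η)
        ≤ ENNReal.ofReal (∑ k ∈ Finset.Icc (-(N : ℤ)) N,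
            1 / y * H ((θ + 2 * Real.pi * k - φ) / y)) :=
          ENNReal.ofReal_le_ofReal (Finset.sum_le_sum fun k _ => h3 k)
      _ = ∑ k ∈ Finset.Icc (-(N : ℤ)) N, ENNReal.ofReal
            (1 / y * H ((θ + 2 * Real.pi * k - φ) / y)) :=
          ENNReal.ofReal_sum_of_nonneg fun k _ => mul_nonneg (by positivity) (hM.nonneg _)
      _ = ∑ k ∈ Finset.Icc (-(N : ℤ)) N, F (θ + 2 * Real.pi * k) := by
          refine Finset.sum_congr rfl fun k _ => ?_
          rw [ENNReal.ofReal_mul (by positivity)]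
  have hcount : ({θ : ℝ | ∃ k : ℤ, θ - φ + 2 * Real.pi * k = 0}).Countable := by
    have : {θ : ℝ | ∃ k : ℤ, θ - φ + 2 * Real.pi * k = 0} =
        Set.range (fun k : ℤ => φ - 2 * Real.pi * k) := by
      ext θ
      constructor
      · rintro ⟨k, hk⟩
        exact ⟨k, by linarith⟩
      · rintro ⟨k, hk⟩
        refine ⟨k, ?_⟩
        rw [← hk]
        ring
    rw [this]
    exact Set.countable_range _
  have hae : ∀ᵐ θ : ℝ ∂(volume.restrict (Ioc 0 (2 * Real.pi))),
      ENNReal.ofReal (gD z (pt (r θ) θ) / Real.log (1 / r θ)) ≤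
        ∑' k : ℤ, F (θ + 2 * Real.pi * k) := by
    refine ae_restrict_of_ae ?_
    filter_upwards [hcount.ae_notMem volume] with θ hθ
    refine key θ fun k hk => hθ ⟨k, hk⟩
  calc ∫⁻ θ in Ioc 0 (2 * Real.pi), ENNReal.ofReal (gD z (pt (r θ) θ) / Real.log (1 / r θ))
      ≤ ∫⁻ θ in Ioc 0 (2 * Real.pi), ∑' k : ℤ, F (θ + 2 * Real.pi * k) := lintegral_mono_ae hae
    _ = ∫⁻ x, F x := unfold_int F hFm
    _ = ∫⁻ x, ENNReal.ofReal (H x) :=
        scale (fun x => ENNReal.ofReal (H x)) (hM.meas.ennreal_ofReal) φ hy0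
    _ ≤ ENNReal.ofReal (2 * Real.pi * K) := hM.integral

end MPf68f16

end

section

set_option autoImplicit false

open MeasureTheory Metric Set Filter Topology

namespace MPf68f16

theorem q2_norm_le (A : ℝ) {z : ℂ} (hz : ‖z‖ < 1) (s : ℝ) (hs : s ^ 2 = 1) :
    ‖Complex.I * (1 - z) + s * A * (1 + z)‖ ^ 2 ≤ 4 * (1 + A ^ 2) := by
  have h1 : ‖z‖ ^ 2 = z.re ^ 2 + z.im ^ 2 := by
    rw [← Complex.normSq_eq_norm_sq, Complex.normSq_apply]
    ring
  have h2 : z.re ^ 2 + z.im ^ 2 ≤ 1 := by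
    rw [← h1]
    nlinarith [norm_nonneg z]
  rw [← Complex.normSq_eq_norm_sq, Complex.normSq_apply]
  simp only [Complex.add_re, Complex.add_im, Complex.mul_re, Complex.sub_re, Complex.sub_im,
    Complex.mul_im, Complex.I_re, Complex.I_im, Complex.one_re, Complex.one_im, Complex.ofReal_re,
    Complex.ofReal_im]
  set x := z.re
  set y := z.im
  have e : (0 * (1 - x) - 1 * (0 - y) + ((s * A - 0 * 0) * (1 + x) - (s * 0 + 0 * A) * (0 + y))) *
      (0 * (1 - x) - 1 * (0 - y) + ((s * A - 0 * 0) * (1 + x) - (s * 0 + 0 * A) * (0 + y))) +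
      (0 * (0 - y) + 1 * (1 - x) + ((s * A - 0 * 0) * (0 + y) + (s * 0 + 0 * A) * (1 + x))) *
      (0 * (0 - y) + 1 * (1 - x) + ((s * A - 0 * 0) * (0 + y) + (s * 0 + 0 * A) * (1 + x))) =
      (y + s * A * (1 + x)) ^ 2 + ((1 - x) + s * A * y) ^ 2 := by ring
  rw [e]
  have h3 : (y + s * A * (1 + x)) ^ 2 + ((1 - x) + s * A * y) ^ 2 ≤
      (1 + A ^ 2) * (2 * (1 + (x ^ 2 + y ^ 2))) := by
    have h4 : (1 + A ^ 2) * (2 * (1 + (x ^ 2 + y ^ 2))) -
        ((y + s * A * (1 + x)) ^ 2 + ((1 - x) + s * A * y) ^ 2) =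
        (s * A * y - (1 + x)) ^ 2 + (s * A * (1 - x) - y) ^ 2 := by
      linear_combination (2 * A ^ 2 * (-1) * (1 + x ^ 2 + y ^ 2)) * hs
    nlinarith [sq_nonneg (s * A * y - (1 + x)), sq_nonneg (s * A * (1 - x) - y)]
  refine h3.trans ?_
  nlinarith [sq_nonneg A]

theorem prf_Q2 : S_Q2 := by
  intro A hA0 z hz
  have hz1 : ‖z‖ < 1 := by simpa using hz
  have hne := q1_ne hA0 hz
  set N := Complex.I * (1 - z) - A * (1 + z) with hN
  set D := Complex.I * (1 - z) + A * (1 + z) with hD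
  have hq : qA A z = N / D := rfl
  have him := q1_im A z
  have hDp : 0 < ‖D‖ := norm_pos_iff.2 hne
  have hqne : qA A z ≠ 0 := by
    intro h
    have := q1_im_pos hA0 hz
    rw [h] at this
    simp at this
  have hNne : N ≠ 0 := by
    intro h
    rw [hq, h, zero_div] at hqne
    exact hqne rfl
  have hNp : 0 < ‖N‖ := norm_pos_iff.2 hNne
  have hN2 : ‖N‖ ^ 2 ≤ 4 * (1 + A ^ 2) := by
    have := q2_norm_le A hz1 (-1) (by norm_num)
    have e : Complex.I * (1 - z) + ((-1 : ℝ) : ℂ) * A * (1 + z) = N := by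
      rw [hN]
      push_cast
      ring
    rwa [e] at this
  have hD2 : ‖D‖ ^ 2 ≤ 4 * (1 + A ^ 2) := by
    have := q2_norm_le A hz1 1 (by norm_num)
    have e : Complex.I * (1 - z) + ((1 : ℝ) : ℂ) * A * (1 + z) = D := by
      rw [hD]
      push_cast
      ring
    rwa [e] at this
  have hND : ‖N‖ * ‖D‖ ≤ 4 * (1 + A ^ 2) := by nlinarith [sq_nonneg (‖N‖ - ‖D‖)]
  obtain ⟨a1, a2⟩ := q1_arg_pos (q1_im_pos hA0 hz)
  have hsin : Real.sin (Complex.arg (qA A z)) ≤ Complex.arg (qA A z) := Real.sin_le a1.le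
  rw [Complex.sin_arg] at hsin
  have hval : (qA A z).im / ‖qA A z‖ = 2 * A * (1 - ‖z‖ ^ 2) / (‖N‖ * ‖D‖) := by
    rw [him, ← hD, hq, norm_div, Complex.normSq_eq_norm_sq]
    field_simp
  rw [hval] at hsin
  rw [q1_hA]
  have hpi := Real.pi_pos
  have h1 : A * (1 - ‖z‖) / (2 * (1 + A ^ 2)) ≤ 2 * A * (1 - ‖z‖ ^ 2) / (‖N‖ * ‖D‖) := by
    have h2 : A * (1 - ‖z‖) / (2 * (1 + A ^ 2)) = 2 * A * (1 - ‖z‖) / (4 * (1 + A ^ 2)) := by
      field_simp
      ring
    rw [h2]
    refine div_le_div₀ ?_ ?_ (by positivity) hND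
    · have := q1_pos hA0 hz
      exact this.le
    · have : 1 - ‖z‖ ≤ 1 - ‖z‖ ^ 2 := by nlinarith [norm_nonneg z]
      exact mul_le_mul_of_nonneg_left this (by positivity)
  have h3 : A / (2 * Real.pi * (1 + A ^ 2)) * (1 - ‖z‖) =
      A * (1 - ‖z‖) / (2 * (1 + A ^ 2)) / Real.pi := by
    field_simp
  rw [h3]
  exact div_le_div_of_nonneg_right (h1.trans hsin) hpi.le

end MPf68f16

end

section

set_option autoImplicit false

open MeasureTheory Metric Set Filter Topology

namespace MPf68f16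

theorem q3_re (r θ : ℝ) : (pt r θ).re = r * Real.cos θ := by
  unfold pt
  rw [Complex.mul_re, Complex.exp_ofReal_mul_I_re, Complex.exp_ofReal_mul_I_im]
  simp

theorem q3_im (r θ : ℝ) : (pt r θ).im = r * Real.sin θ := by
  unfold pt
  rw [Complex.mul_im, Complex.exp_ofReal_mul_I_re, Complex.exp_ofReal_mul_I_im]
  simp

theorem q3_norm {r θ : ℝ} (hr : 0 ≤ r) : ‖pt r θ‖ = r := by
  unfold pt
  rw [norm_mul, Complex.norm_exp_ofReal_mul_I, mul_one, Complex.norm_real, Real.norm_eq_abs,
    abs_of_nonneg hr]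

/-- `s = ± 1`: `cos (θ ∓ φ₀)`. -/
noncomputable def q3C (A s θ : ℝ) : ℝ := cA A * Real.cos θ + s * (2 * A / (1 + A ^ 2)) * Real.sin θ

theorem q3_normSq (A s r θ : ℝ) (hs : s ^ 2 = 1) :
    Complex.normSq (Complex.I * (1 - pt r θ) - s * A * (1 + pt r θ)) =
      (1 + A ^ 2) * ((1 - r) ^ 2 + 2 * r * (1 - q3C A s θ)) := by
  have hA : (1 + A ^ 2) ≠ 0 := by positivity
  rw [Complex.normSq_apply]
  simp only [Complex.add_re, Complex.add_im, Complex.mul_re, Complex.sub_re, Complex.sub_im,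
    Complex.mul_im, Complex.I_re, Complex.I_im, Complex.one_re, Complex.one_im, Complex.ofReal_re,
    Complex.ofReal_im, q3_re, q3_im]
  unfold q3C cA
  have ht := Real.sin_sq_add_cos_sq θ
  field_simp
  have h1 : Real.sin θ ^ 2 = 1 - Real.cos θ ^ 2 := by linarith
  linear_combination (r ^ 2 * (1 + A ^ 2 * s ^ 2)) * ht +
    (A ^ 2 * (1 + 2 * r * Real.cos θ + r ^ 2)) * hs

theorem q3_gap {A d θ s : ℝ} (hd : 0 < d) (hs : s ^ 2 = 1) (h : Real.cos θ ≤ cA A - d) :
    d ^ 2 / 2 ≤ 1 - q3C A s θ := by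
  have hA : (1 + A ^ 2) ≠ 0 := by positivity
  have h1 : cA A ^ 2 + (2 * A / (1 + A ^ 2)) ^ 2 = 1 := by
    unfold cA
    field_simp
    ring
  have h2 : 2 * (1 - q3C A s θ) = (cA A - Real.cos θ) ^ 2 +
      (s * (2 * A / (1 + A ^ 2)) - Real.sin θ) ^ 2 := by
    unfold q3C
    have ht := Real.sin_sq_add_cos_sq θ
    linear_combination -h1 - ht + ((2 * A / (1 + A ^ 2)) ^ 2) * (-hs)
  have h3 : d ^ 2 ≤ (cA A - Real.cos θ) ^ 2 := pow_le_pow_left₀ hd.le (by linarith) 2
  nlinarith [sq_nonneg (s * (2 * A / (1 + A ^ 2)) - Real.sin θ)]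

theorem q3_pos {A d θ s r : ℝ} (hd : 0 < d) (hs : s ^ 2 = 1) (h : Real.cos θ ≤ cA A - d)
    (hr0 : 0 ≤ r) : 0 < (1 - r) ^ 2 + 2 * r * (1 - q3C A s θ) := by
  have h1 := q3_gap hd hs h
  have h2 : 0 < 1 - q3C A s θ := by nlinarith [sq_nonneg d, pow_pos hd 2]
  rcases hr0.eq_or_lt with h0 | h0
  · rw [← h0]
    norm_num
  · have : 0 < 2 * r * (1 - q3C A s θ) := by positivity
    nlinarith [sq_nonneg (1 - r)]

theorem q3_FA_im (A : ℝ) (z : ℂ) : (FA A z).im = -(1 / Real.pi) * Real.log ‖qA A z‖ := by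
  unfold FA
  rw [Complex.mul_im, Complex.log_re]
  have h1 : (-(Complex.I / (Real.pi : ℂ))).re = 0 := by
    rw [Complex.neg_re, Complex.div_ofReal_re, Complex.I_re, zero_div, neg_zero]
  have h2 : (-(Complex.I / (Real.pi : ℂ))).im = -(1 / Real.pi) := by
    rw [Complex.neg_im, Complex.div_ofReal_im, Complex.I_im]
  rw [h1, h2]
  ring

theorem prf_Q3 : S_Q3 := by
  intro A d hA0 hd
  have hpi := Real.pi_pos
  refine ⟨1 / (Real.pi * d ^ 2), fun θ hθ => ?_⟩
  have hA2 : 0 < 1 + A ^ 2 := by positivity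
  -- numerator and denominator
  have hN : ∀ r : ℝ, Complex.normSq (Complex.I * (1 - pt r θ) - A * (1 + pt r θ)) =
      (1 + A ^ 2) * ((1 - r) ^ 2 + 2 * r * (1 - q3C A 1 θ)) := by
    intro r
    have := q3_normSq A 1 r θ (by norm_num)
    rwa [Complex.ofReal_one, one_mul] at this
  have hD : ∀ r : ℝ, Complex.normSq (Complex.I * (1 - pt r θ) + A * (1 + pt r θ)) =
      (1 + A ^ 2) * ((1 - r) ^ 2 + 2 * r * (1 - q3C A (-1) θ)) := by
    intro r
    have := q3_normSq A (-1) r θ (by norm_num)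
    rw [← this]
    congr 1
    push_cast
    ring
  have hDne : ∀ r : ℝ, 0 ≤ r → Complex.I * (1 - pt r θ) + A * (1 + pt r θ) ≠ 0 := by
    intro r hr
    rw [← Complex.normSq_pos, hD r]
    exact mul_pos hA2 (q3_pos hd (by norm_num) hθ hr)
  -- the boundary value
  have him1 : (qA A (pt 1 θ)).im = 0 := by
    rw [q1_im, q3_norm zero_le_one]
    norm_num
  have hre1 : 0 < (qA A (pt 1 θ)).re := by
    unfold qA
    rw [Complex.div_re, ← add_div]
    refine div_pos ?_ (Complex.normSq_pos.2 (hDne 1 zero_le_one))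
    have e : (Complex.I * (1 - pt 1 θ) - A * (1 + pt 1 θ)).re *
        (Complex.I * (1 - pt 1 θ) + A * (1 + pt 1 θ)).re +
        (Complex.I * (1 - pt 1 θ) - A * (1 + pt 1 θ)).im *
        (Complex.I * (1 - pt 1 θ) + A * (1 + pt 1 θ)).im =
        2 * (1 + A ^ 2) * (cA A - Real.cos θ) := by
      simp only [Complex.add_re, Complex.add_im, Complex.mul_re, Complex.sub_re, Complex.sub_im,
        Complex.mul_im, Complex.I_re, Complex.I_im, Complex.one_re, Complex.one_im,
        Complex.ofReal_re, Complex.ofReal_im, q3_re, q3_im]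
      unfold cA
      have ht := Real.sin_sq_add_cos_sq θ
      field_simp
      linear_combination (1 - A ^ 2) * ht
    rw [e]
    have : 0 < cA A - Real.cos θ := by linarith
    positivity
  refine ⟨?_, ?_, ?_⟩
  · have e : (fun r : ℝ => hA A (pt r θ)) = fun r : ℝ => Complex.arg (qA A (pt r θ)) / Real.pi := by
      funext r
      rw [q1_hA]
    rw [e]
    intro r hr
    refine ContinuousAt.continuousWithinAt ?_
    have hpt : ContinuousAt (fun r : ℝ => pt r θ) r := by
      unfold pt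
      fun_prop
    have hq : ContinuousAt (fun r : ℝ => qA A (pt r θ)) r := by
      unfold qA
      refine ContinuousAt.div ?_ ?_ (hDne r hr.1)
      · fun_prop
      · fun_prop
    have hs : qA A (pt r θ) ∈ Complex.slitPlane := by
      rcases hr.2.eq_or_lt with h1 | h1
      · rw [h1]
        exact Or.inl hre1
      · refine Or.inr (q1_im_pos hA0 ?_).ne'
        rw [mem_ball_zero_iff, q3_norm hr.1]
        exact h1
    have hcomp : ContinuousAt (fun r : ℝ => Complex.arg (qA A (pt r θ))) r :=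
      ContinuousAt.comp (f := fun r : ℝ => qA A (pt r θ)) (g := Complex.arg)
        (Complex.continuousAt_arg hs) hq
    exact hcomp.div_const _
  · rw [q1_hA]
    have : Complex.arg (qA A (pt 1 θ)) = 0 := Complex.arg_eq_zero_iff.2 ⟨hre1.le, him1⟩
    rw [this, zero_div]
  · intro r hr
    have hr0 : 0 < r := by linarith [hr.1]
    have hl : ∀ t : ℝ, 0 ≤ t → Real.log ‖qA A (pt t θ)‖ =
        (Real.log ((1 - t) ^ 2 + 2 * t * (1 - q3C A 1 θ)) -
          Real.log ((1 - t) ^ 2 + 2 * t * (1 - q3C A (-1) θ))) / 2 := by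
      intro t ht
      have p1 := q3_pos (s := 1) hd (by norm_num) hθ ht
      have p2 := q3_pos (s := -1) hd (by norm_num) hθ ht
      have n1 : Complex.I * (1 - pt t θ) - A * (1 + pt t θ) ≠ 0 := by
        rw [← Complex.normSq_pos, hN t]
        exact mul_pos hA2 p1
      have n2 := hDne t ht
      have e1 : ∀ w : ℂ, w ≠ 0 → Real.log ‖w‖ = Real.log (Complex.normSq w) / 2 := by
        intro w _
        rw [Complex.normSq_eq_norm_sq, Real.log_pow]
        push_cast
        ring
      unfold qA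
      rw [norm_div, Real.log_div (norm_ne_zero_iff.2 n1) (norm_ne_zero_iff.2 n2), e1 _ n1, e1 _ n2,
        hN, hD, Real.log_mul hA2.ne' p1.ne', Real.log_mul hA2.ne' p2.ne']
      ring
    rw [q3_FA_im, q3_FA_im, hl r hr0.le, hl 1 zero_le_one]
    -- each logarithm
    have hx : ∀ s : ℝ, s ^ 2 = 1 →
        0 ≤ Real.log ((1 - r) ^ 2 + 2 * r * (1 - q3C A s θ)) - Real.log r -
          Real.log ((1 - 1) ^ 2 + 2 * 1 * (1 - q3C A s θ)) ∧
        Real.log ((1 - r) ^ 2 + 2 * r * (1 - q3C A s θ)) - Real.log r -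
          Real.log ((1 - 1) ^ 2 + 2 * 1 * (1 - q3C A s θ)) ≤ 2 * (1 - r) ^ 2 / d ^ 2 := by
      intro s hs
      have hg := q3_gap hd hs hθ
      have hg0 : 0 < 1 - q3C A s θ := by nlinarith [pow_pos hd 2]
      have p1 := q3_pos (r := r) hd hs hθ hr0.le
      have e1 : Real.log ((1 - r) ^ 2 + 2 * r * (1 - q3C A s θ)) - Real.log r -
          Real.log ((1 - 1) ^ 2 + 2 * 1 * (1 - q3C A s θ)) =
          Real.log (1 + (1 - r) ^ 2 / (2 * r * (1 - q3C A s θ))) := by
        have e2 : (1 - 1 : ℝ) ^ 2 + 2 * 1 * (1 - q3C A s θ) = 2 * (1 - q3C A s θ) := by ring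
        rw [e2, ← Real.log_div p1.ne' hr0.ne', ← Real.log_div (by positivity) (by positivity)]
        congr 1
        field_simp
        ring
      rw [e1]
      have hy : 0 ≤ (1 - r) ^ 2 / (2 * r * (1 - q3C A s θ)) := by positivity
      refine ⟨Real.log_nonneg (by linarith), ?_⟩
      have h2 : Real.log (1 + (1 - r) ^ 2 / (2 * r * (1 - q3C A s θ))) ≤
          (1 - r) ^ 2 / (2 * r * (1 - q3C A s θ)) := by
        have := Real.log_le_sub_one_of_pos
          (show 0 < 1 + (1 - r) ^ 2 / (2 * r * (1 - q3C A s θ)) by linarith)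
        linarith
      refine h2.trans ?_
      rw [div_le_div_iff₀ (by positivity) (by positivity)]
      have h3 : d ^ 2 ≤ 2 * (2 * r * (1 - q3C A s θ)) := by nlinarith [hr.1]
      nlinarith [mul_le_mul_of_nonneg_left h3 (sq_nonneg (1 - r))]
    obtain ⟨a1, a2⟩ := hx 1 (by norm_num)
    obtain ⟨b1, b2⟩ := hx (-1) (by norm_num)
    have hC : 1 / (Real.pi * d ^ 2) * (1 - r) ^ 2 = 1 / Real.pi * (2 * (1 - r) ^ 2 / d ^ 2 / 2) := by
      field_simp
    rw [hC, ← mul_sub, abs_mul, abs_neg, abs_of_pos (by positivity : 0 < 1 / Real.pi)]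
    refine mul_le_mul_of_nonneg_left ?_ (by positivity)
    have hab : ∀ x y u v w X : ℝ, 0 ≤ x - w - u → x - w - u ≤ X → 0 ≤ y - w - v →
        y - w - v ≤ X → |(x - y) / 2 - (u - v) / 2| ≤ X / 2 := by
      intro x y u v w X h1 h2 h3 h4
      rw [abs_le]
      constructor <;> linarith
    exact hab _ _ _ _ _ _ a1 a2 b1 b2

end MPf68f16

end
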